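import Pool.Agent.Lib.MP_00e05b_nt.Gap.KR

/-!
# LEAF J (helper66): Jensen's inequality at a point of a finite weighted set

`N z = ∑_{p ∈ s} w p/(z - p)`, `P = {p ∈ s | |p - x0| ≤ R}`, `g z = N z ∏_{p ∈ P} (z - p)` is analytic near the closed disc `D(x0, R)` and
`g x0 = w x0 ∏_{p ∈ P, p ≠ x0} (x0 - p)`. Jensen (`log |g x0| ≤` circle average of `log |g|`) and `avg log |z - p| = log R` for `|p - x0| ≤ R`:
(1) `log |w x0| - log R - avg log |N| ≤ ∑_{p ∈ P, p ≠ x0} log (R/|p - x0|)`.
(2) For `y = |Im z| > 0`: `|N z| ≤ 2π ∫_0^∞ e^{-2πuy} |ν(± u)| du`, `ν u = ∑ w p e(-u p)` (`1/(z-p) = -2πi ∫_0^∞ e^{2πiu(z-p)} du` for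
`Im z > 0`).
(3) a.e. `θ`, `z = x0 + R e^{iθ}`, `y = R |sin θ|`, `λ = M e^{-2πay}/y`: `log |N| ≤ log λ - 1 + |N|/λ`, and
`(1/2π) ∫ log λ dθ = log M - 4aR - log R + log 2` (`∫_0^π sin = 2`, `∫_0^π log sin = -π log 2`),
`(1/2π) ∫ |N|/λ dθ ≤ M⁻¹ ∫ kk a R u |ν u| du` (Tonelli).
-/

open Real MeasureTheory Metric Set Filter Topology

namespace Pool.Agent.Lib.MP_00e05b_nt.Gap.Jx

open Pool.Agent.Lib.MP_00e05b_nt.Gap (kk)

/-- Jensen's inequality. -/
theorem jensen_le {g : ℂ → ℂ} {c : ℂ} {R : ℝ} (hR : 0 < R)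
    (hg : AnalyticOnNhd ℂ g (closedBall c R)) (h0 : g c ≠ 0) :
    Real.log ‖g c‖ ≤ circleAverage (fun z => Real.log ‖g z‖) c R := by
  have hR' : |R| = R := abs_of_pos hR
  have hg' : AnalyticOnNhd ℂ g (closedBall c |R|) := by rwa [hR']
  have h := hg'.circleAverage_log_norm hR.ne' h0
  have h2 : 0 ≤ ∑ᶠ u, MeromorphicOn.divisor g (closedBall c |R|) u * Real.log (R * ‖c - u‖⁻¹) := by
    apply finsum_nonneg
    intro u
    by_cases hu : u ∈ closedBall c |R|
    · refine mul_nonneg (by exact_mod_cast MeromorphicOn.AnalyticOnNhd.divisor_nonneg hg' u) ?_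
      by_cases hcu : u = c
      · simp [hcu]
      · apply Real.log_nonneg
        have : 0 < ‖c - u‖ := norm_pos_iff.2 (sub_ne_zero.2 (Ne.symm hcu))
        rw [← div_eq_mul_inv, le_div_iff₀ this, one_mul]
        simpa [dist_eq_norm', hR'] using hu
    · have : MeromorphicOn.divisor g (closedBall c |R|) u = 0 :=
        Function.locallyFinsuppWithin.apply_eq_zero_of_notMem _ hu
      simp [this]
  have h3 : circleAverage (fun z => Real.log ‖g z‖) c R = circleAverage (Real.log ‖g ·‖) c R := rfl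
  rw [h3, h]
  linarith

/-- Average of a logarithm, with a bound that may fail at the zeros. -/
theorem avg_le {g : ℂ → ℂ} {c : ℂ} {R : ℝ} (hR : 0 < R)
    (hg : AnalyticOnNhd ℂ g (closedBall c R)) (h0 : g c ≠ 0) {B : ℂ → ℝ}
    (hB : CircleIntegrable B c R)
    (hb : ∀ z ∈ sphere c R, g z ≠ 0 → Real.log ‖g z‖ ≤ B z) :
    Real.log ‖g c‖ ≤ circleAverage B c R := by
  refine (jensen_le hR hg h0).trans ?_
  have hR' : |R| = R := abs_of_pos hR
  have hcod : ∀ᶠ x in codiscreteWithin (closedBall c R), g x ≠ 0 := by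
    rcases hg.eqOn_zero_or_eventually_ne_zero_of_preconnected
      (convex_closedBall c R).isPreconnected with h | h
    · exact absurd (h (mem_closedBall_self hR.le)) h0
    · exact h
  have hcod2 : ∀ᶠ x in codiscreteWithin (sphere c |R|), g x ≠ 0 ∧ x ∈ sphere c |R| := by
    rw [hR']
    exact (hcod.filter_mono (codiscreteWithin_mono sphere_subset_closedBall)).and
      (self_mem_codiscreteWithin _)
  have hint : CircleIntegrable (fun z => Real.log ‖g z‖) c R :=
    ((hg.mono (by rw [hR']; exact sphere_subset_closedBall) :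
      AnalyticOnNhd ℂ g (sphere c |R|))).meromorphicOn.circleIntegrable_log_norm
  have heq : (fun z => Real.log ‖g z‖) =ᶠ[codiscreteWithin (sphere c |R|)]
      (fun z => min (Real.log ‖g z‖) (B z)) := by
    filter_upwards [hcod2] with z hz
    exact (min_eq_left (hb z (by simpa [hR'] using hz.2) hz.1)).symm
  rw [circleAverage_congr_codiscreteWithin heq hR.ne']
  refine circleAverage_mono ?_ hB ?_
  · exact hint.congr_codiscreteWithin heq
  · intro z _
    exact min_le_right _ _

/-- The average of `|Im z|`. -/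
theorem avg_abs_im (c : ℝ) {R : ℝ} (hR : 0 < R) :
    circleAverage (fun z : ℂ => |z.im|) (c : ℂ) R = 2 * R / π := by
  have h1 : (∫ θ in (0:ℝ)..(2*π), |(circleMap (c:ℂ) R θ).im|) = 4 * R := by
    have h2 : ∀ θ : ℝ, |(circleMap (c:ℂ) R θ).im| = R * |Real.sin θ| := by
      intro θ
      simp [circleMap, Complex.exp_ofReal_mul_I_im, abs_mul, abs_of_pos hR]
    simp_rw [h2]
    rw [intervalIntegral.integral_const_mul]
    have hi : ∀ a b : ℝ, IntervalIntegrable (fun x => |Real.sin x|) volume a b :=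
      fun a b => (continuous_abs.comp Real.continuous_sin).intervalIntegrable a b
    have h3 : (∫ x in (0:ℝ)..(2*π), |Real.sin x|) = 4 := by
      rw [← intervalIntegral.integral_add_adjacent_intervals (hi 0 π) (hi π (2*π))]
      have e1 : (∫ x in (0:ℝ)..π, |Real.sin x|) = ∫ x in (0:ℝ)..π, Real.sin x := by
        apply intervalIntegral.integral_congr
        intro x hx
        rw [uIcc_of_le Real.pi_pos.le] at hx
        exact abs_of_nonneg (Real.sin_nonneg_of_nonneg_of_le_pi hx.1 hx.2)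
      have e2 : (∫ x in π..(2*π), |Real.sin x|) = ∫ x in π..(2*π), - Real.sin x := by
        apply intervalIntegral.integral_congr
        intro x hx
        rw [uIcc_of_le (by linarith [Real.pi_pos])] at hx
        simp only
        apply abs_of_nonpos
        have : Real.sin (x - 2*π) ≤ 0 := Real.sin_nonpos_of_nonpos_of_neg_pi_le (by linarith [hx.2]) (by linarith [hx.1])
        simpa using this
      rw [e1, e2, intervalIntegral.integral_neg, integral_sin, integral_sin]
      simp
      norm_num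
    rw [h3]; ring
  rw [circleAverage_def, h1, smul_eq_mul]
  field_simp
  ring

theorem analytic_part {ι : Type*} (x : ι → ℝ) (w : ι → ℂ) (hw : Summable fun j => ‖w j‖)
    {c R d : ℝ} (hR : 0 < R) (hd : 0 < d) (P : Finset ℝ) (hP1 : ∀ p ∈ P, |p - c| ≤ R)
    (hP2 : ∀ j, x j ∉ P → R + d ≤ |x j - c|) (hc : c ∈ P) :
    ∃ g : ℂ → ℂ, AnalyticOnNhd ℂ g (closedBall (c : ℂ) R) ∧
      g c = (∑' j, if x j = c then w j else 0) * ∏ p ∈ P.erase c, ((c : ℂ) - p) ∧
      ∀ z : ℂ, z.im ≠ 0 → g z = (∑' j, w j / (z - x j)) * ∏ p ∈ P, (z - (p : ℂ)) := by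
  classical
  set F : ι → ℂ → ℂ := fun j z =>
    if x j ∈ P then w j * ∏ p ∈ P.erase (x j), (z - (p : ℂ))
    else w j / (z - x j) * ∏ p ∈ P, (z - (p : ℂ)) with hF
  set M : ℝ := 2 * R + d + 1 with hM
  have hM1 : 1 ≤ M := by rw [hM]; linarith
  set U : Set ℂ := ball (c : ℂ) (R + d / 2) with hU
  have hzp : ∀ z ∈ U, ∀ p ∈ P, ‖z - (p : ℂ)‖ ≤ M := by
    intro z hz p hp
    have h1 : ‖z - c‖ < R + d / 2 := by simpa [hU, dist_eq_norm] using hz
    have h2 : ‖(c : ℂ) - p‖ ≤ R := by
      rw [← Complex.ofReal_sub, Complex.norm_real, Real.norm_eq_abs, abs_sub_comm]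
      exact hP1 p hp
    calc ‖z - (p : ℂ)‖ = ‖(z - c) + (c - p)‖ := by ring_nf
      _ ≤ ‖z - c‖ + ‖(c : ℂ) - p‖ := norm_add_le _ _
      _ ≤ M := by rw [hM]; linarith
  have hprod : ∀ z ∈ U, ∀ Q : Finset ℝ, Q ⊆ P → ‖∏ p ∈ Q, (z - (p : ℂ))‖ ≤ M ^ P.card := by
    intro z hz Q hQ
    rw [norm_prod]
    calc ∏ p ∈ Q, ‖z - (p : ℂ)‖ ≤ ∏ p ∈ Q, M :=
          Finset.prod_le_prod (fun _ _ => norm_nonneg _) (fun p hp => hzp z hz p (hQ hp))
      _ = M ^ Q.card := by simp
      _ ≤ M ^ P.card := pow_le_pow_right₀ hM1 (Finset.card_le_card hQ)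
  have hfar : ∀ z ∈ U, ∀ j, x j ∉ P → d / 2 ≤ ‖z - x j‖ := by
    intro z hz j hj
    have h1 : ‖z - c‖ < R + d / 2 := by simpa [hU, dist_eq_norm] using hz
    have h2 : R + d ≤ ‖(x j : ℂ) - c‖ := by
      rw [← Complex.ofReal_sub, Complex.norm_real, Real.norm_eq_abs]
      exact hP2 j hj
    have h3 : ‖(x j : ℂ) - c‖ ≤ ‖(x j : ℂ) - z‖ + ‖z - c‖ := norm_sub_le_norm_sub_add_norm_sub _ _ _
    rw [norm_sub_rev (x j : ℂ) z] at h3
    linarith
  have hbd : ∀ j, ∀ z ∈ U, ‖F j z‖ ≤ ‖w j‖ * ((1 + 2 / d) * M ^ P.card) := by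
    intro j z hz
    have hd2 : 0 ≤ 2 / d := by positivity
    have hMp : 0 ≤ M ^ P.card := by positivity
    simp only [hF]
    split_ifs with h
    · rw [norm_mul]
      have := hprod z hz (P.erase (x j)) (Finset.erase_subset _ _)
      calc ‖w j‖ * _ ≤ ‖w j‖ * M ^ P.card := by gcongr
        _ ≤ ‖w j‖ * ((1 + 2 / d) * M ^ P.card) := by
          apply mul_le_mul_of_nonneg_left _ (norm_nonneg _)
          nlinarith
    · rw [norm_mul, norm_div]
      have h1 := hprod z hz P (Finset.Subset.refl _)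
      have h2 := hfar z hz j h
      have h3 : ‖w j‖ / ‖z - x j‖ ≤ ‖w j‖ * (2 / d) := by
        rw [div_eq_mul_inv]
        apply mul_le_mul_of_nonneg_left _ (norm_nonneg _)
        rw [inv_le_comm₀ (by linarith) (by positivity)]
        rw [inv_div]; exact h2
      calc ‖w j‖ / ‖z - x j‖ * ‖∏ p ∈ P, (z - (p : ℂ))‖ ≤ ‖w j‖ * (2 / d) * M ^ P.card := by
            apply mul_le_mul h3 h1 (norm_nonneg _) (by positivity)
        _ ≤ ‖w j‖ * ((1 + 2 / d) * M ^ P.card) := by
          rw [mul_assoc]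
          apply mul_le_mul_of_nonneg_left _ (norm_nonneg _)
          nlinarith
  have hdiff : ∀ j, DifferentiableOn ℂ (F j) U := by
    intro j
    simp only [hF]
    have hpoly : ∀ Q : Finset ℝ, DifferentiableOn ℂ (fun z : ℂ => ∏ p ∈ Q, (z - (p : ℂ))) U := by
      intro Q
      apply DifferentiableOn.fun_finsetProd
      intro p _
      fun_prop
    by_cases h : x j ∈ P
    · simp only [h, if_true]
      exact (hpoly _).const_mul _
    · simp only [h, if_false]
      apply DifferentiableOn.mul _ (hpoly _)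
      apply DifferentiableOn.div (by fun_prop) (by fun_prop)
      intro z hz h0
      have := hfar z hz j h
      rw [h0, norm_zero] at this
      linarith
  refine ⟨fun z => ∑' j, F j z, ?_, ?_, ?_⟩
  · have h1 : DifferentiableOn ℂ (fun z => ∑' j, F j z) U :=
      Complex.differentiableOn_tsum_of_summable_norm (hw.mul_right _) hdiff isOpen_ball hbd
    have h2 := h1.analyticOnNhd isOpen_ball
    apply h2.mono
    apply closedBall_subset_ball
    linarith
  · have h1 : ∀ j, F j c = (if x j = c then w j else 0) * ∏ p ∈ P.erase c, ((c : ℂ) - p) := by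
      intro j
      simp only [hF]
      by_cases h : x j = c
      · simp [h, hc]
      · rw [if_neg h, zero_mul]
        split_ifs with h2
        · have : c ∈ P.erase (x j) := Finset.mem_erase.2 ⟨fun e => h e.symm, hc⟩
          rw [Finset.prod_eq_zero this (by simp), mul_zero]
        · rw [Finset.prod_eq_zero hc (by simp), mul_zero]
    simp_rw [h1]
    rw [tsum_mul_right]
  · intro z hz
    have hne : ∀ p : ℝ, (z - (p : ℂ)) ≠ 0 := by
      intro p h
      apply hz
      have := congrArg Complex.im h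
      simpa using this
    have h1 : ∀ j, F j z = w j / (z - x j) * ∏ p ∈ P, (z - (p : ℂ)) := by
      intro j
      simp only [hF]
      split_ifs with h
      · rw [← Finset.mul_prod_erase P _ h]
        have := hne (x j)
        field_simp
      · rfl
    simp_rw [h1]
    rw [tsum_mul_right]

/-- On a circle with real centre, `|Im z|` is a product of two distances. -/
theorem log_abs_im_eq {c R : ℝ} (hR : 0 < R) {z : ℂ} (hz : z ∈ sphere (c : ℂ) R) :
    Real.log |z.im| = Real.log ‖z - ((c + R : ℝ) : ℂ)‖ + Real.log ‖z - ((c - R : ℝ) : ℂ)‖ -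
      Real.log (2 * R) := by
  have hz' : ‖z - c‖ = R := by simpa [dist_eq_norm] using hz
  have hmul : ‖z - ((c + R : ℝ) : ℂ)‖ * ‖z - ((c - R : ℝ) : ℂ)‖ = 2 * R * |z.im| := by
    rw [← norm_mul]
    have e1 : (z - ((c + R : ℝ) : ℂ)) * (z - ((c - R : ℝ) : ℂ))
        = (z - c) * ((z - c) - (starRingEnd ℂ) (z - c)) := by
      have : (z - c) * (starRingEnd ℂ) (z - c) = ((R ^ 2 : ℝ) : ℂ) := by
        rw [Complex.mul_conj, Complex.normSq_eq_norm_sq, hz']
      rw [mul_sub (z - (c : ℂ)) (z - c), this]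
      push_cast
      ring
    rw [e1, norm_mul, hz', Complex.sub_conj]
    simp
    ring
  by_cases h1 : z = ((c + R : ℝ) : ℂ)
  · have h2 : z.im = 0 := by rw [h1]; exact Complex.ofReal_im _
    have h3 : ‖z - ((c - R : ℝ) : ℂ)‖ = 2 * R := by
      rw [h1, ← Complex.ofReal_sub, Complex.norm_real, Real.norm_eq_abs]
      rw [show c + R - (c - R) = 2 * R by ring, abs_of_pos (by positivity)]
    rw [h2, h3, h1, sub_self]; simp
  by_cases h2 : z = ((c - R : ℝ) : ℂ)
  · have h3 : z.im = 0 := by rw [h2]; exact Complex.ofReal_im _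
    have h4 : ‖z - ((c + R : ℝ) : ℂ)‖ = 2 * R := by
      rw [h2, ← Complex.ofReal_sub, Complex.norm_real, Real.norm_eq_abs]
      rw [show c - R - (c + R) = -(2 * R) by ring, abs_neg, abs_of_pos (by positivity)]
    rw [h3, h4, h2, sub_self]; simp
  have p1 : 0 < ‖z - ((c + R : ℝ) : ℂ)‖ := norm_pos_iff.2 (sub_ne_zero.2 h1)
  have p2 : 0 < ‖z - ((c - R : ℝ) : ℂ)‖ := norm_pos_iff.2 (sub_ne_zero.2 h2)
  have p3 : 0 < |z.im| := by
    have := mul_pos p1 p2
    rw [hmul] at this
    exact (pos_iff_pos_of_mul_pos this).1 (by positivity)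
  rw [← Real.log_mul p1.ne' p2.ne', hmul, Real.log_mul (by positivity) p3.ne']
  ring

/-- `log ‖z - p‖` is integrable on circles. -/
theorem int_log_sub (c R p : ℝ) : CircleIntegrable (fun z : ℂ => Real.log ‖z - (p : ℂ)‖) (c : ℂ) R :=
  (analyticOnNhd_id.sub analyticOnNhd_const).meromorphicOn.circleIntegrable_log_norm

/-- `log |Im z|` is integrable on circles with real centre. -/
theorem int_log_abs_im (c : ℝ) {R : ℝ} (hR : 0 < R) :
    CircleIntegrable (fun z : ℂ => Real.log |z.im|) (c : ℂ) R := by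
  have h1 : CircleIntegrable (fun z : ℂ => Real.log ‖z - ((c + R : ℝ) : ℂ)‖ +
      Real.log ‖z - ((c - R : ℝ) : ℂ)‖ - Real.log (2 * R)) (c : ℂ) R :=
    ((int_log_sub c R _).add (int_log_sub c R _)).sub (circleIntegrable_const _ _ _)
  apply h1.congr_codiscreteWithin
  filter_upwards [self_mem_codiscreteWithin (sphere (c : ℂ) |R|)] with z hz
  rw [abs_of_pos hR] at hz
  exact (log_abs_im_eq hR hz).symm

/-- The average of `log |Im z|`. -/
theorem avg_log_abs_im (c : ℝ) {R : ℝ} (hR : 0 < R) :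
    circleAverage (fun z : ℂ => Real.log |z.im|) (c : ℂ) R = Real.log R - Real.log 2 := by
  have hR' : |R| = R := abs_of_pos hR
  have h1 : circleAverage (fun z : ℂ => Real.log |z.im|) (c : ℂ) R =
      circleAverage (fun z : ℂ => (Real.log ‖z - ((c + R : ℝ) : ℂ)‖ +
      Real.log ‖z - ((c - R : ℝ) : ℂ)‖) - Real.log (2 * R)) (c : ℂ) R := by
    apply circleAverage_congr_sphere
    intro z hz
    rw [hR'] at hz
    exact log_abs_im_eq hR hz
  have m1 : ((c + R : ℝ) : ℂ) ∈ closedBall (c : ℂ) |R| := by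
    rw [mem_closedBall, dist_eq_norm, ← Complex.ofReal_sub, Complex.norm_real, Real.norm_eq_abs]
    simp
  have m2 : ((c - R : ℝ) : ℂ) ∈ closedBall (c : ℂ) |R| := by
    rw [mem_closedBall, dist_eq_norm, ← Complex.ofReal_sub, Complex.norm_real, Real.norm_eq_abs]
    simp
  have h2 : circleAverage (fun z : ℂ => Real.log ‖z - ((c + R : ℝ) : ℂ)‖) (c : ℂ) R = Real.log R :=
    circleAverage_log_norm_sub_const_of_mem_closedBall m1
  have h3 : circleAverage (fun z : ℂ => Real.log ‖z - ((c - R : ℝ) : ℂ)‖) (c : ℂ) R = Real.log R :=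
    circleAverage_log_norm_sub_const_of_mem_closedBall m2
  have i1 : CircleIntegrable (fun z : ℂ => Real.log ‖z - ((c + R : ℝ) : ℂ)‖ +
      Real.log ‖z - ((c - R : ℝ) : ℂ)‖) (c : ℂ) R := (int_log_sub c R _).add (int_log_sub c R _)
  rw [h1, circleAverage_fun_sub i1 (circleIntegrable_const _ _ _),
    circleAverage_fun_add (int_log_sub c R _) (int_log_sub c R _),
    h2, h3, circleAverage_const, Real.log_mul (by norm_num) hR.ne']
  ring

/-- **Jensen's inequality for a finite sum of simple fractions**: any radius, distinct real poles,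
a circle integrable majorant `B` of `log ‖N‖` outside the real line and the zeros. -/
theorem jensen_iso_le {s : Finset ℝ} (w : ℝ → ℂ) {x0 : ℝ} (hx0 : x0 ∈ s) (hw : w x0 ≠ 0) {R : ℝ}
    (hR : 0 < R) {B : ℂ → ℝ} (hB : CircleIntegrable B (x0 : ℂ) R)
    (hb : ∀ z ∈ sphere (x0 : ℂ) R, z.im ≠ 0 → ∑ p ∈ s, w p / (z - (p : ℂ)) ≠ 0 →
      Real.log ‖∑ p ∈ s, w p / (z - (p : ℂ))‖ ≤ B z) :
    Real.log ‖w x0‖ - Real.log R - circleAverage B (x0 : ℂ) R ≤
      ∑ p ∈ s.filter (fun p => p ≠ x0 ∧ |p - x0| < R), Real.log (R / |p - x0|) := by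
  classical
  have hR' : |R| = R := abs_of_pos hR
  set P : Finset ℝ := s.filter (fun p => |p - x0| ≤ R) with hP
  have hxP : x0 ∈ P := by rw [hP, Finset.mem_filter]; exact ⟨hx0, by simpa using hR.le⟩
  obtain ⟨d, hd, hd2⟩ : ∃ d : ℝ, 0 < d ∧ ∀ p ∈ s, p ∉ P → R + d ≤ |p - x0| := by
    have hfinQ : ∀ Q : Finset ℝ, (∀ p ∈ Q, R < |p - x0|) →
        ∃ d : ℝ, 0 < d ∧ ∀ p ∈ Q, R + d ≤ |p - x0| := by
      intro Q
      induction Q using Finset.induction_on with
      | empty => intro _; exact ⟨1, one_pos, by simp⟩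
      | insert q Q hq ih =>
        intro h
        obtain ⟨d, hd, hd'⟩ := ih (fun p hp => h p (Finset.mem_insert_of_mem hp))
        have hq' := h q (Finset.mem_insert_self _ _)
        refine ⟨min d (|q - x0| - R), lt_min hd (by linarith), ?_⟩
        intro p hp
        rcases Finset.mem_insert.1 hp with rfl | hp
        · have := min_le_right d (|p - x0| - R); linarith
        · have := min_le_left d (|q - x0| - R)
          have := hd' p hp; linarith
    obtain ⟨d, hd, hd'⟩ := hfinQ (s.filter (fun p => R < |p - x0|))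
      (fun p hp => (Finset.mem_filter.1 hp).2)
    refine ⟨d, hd, fun p hp hpP => hd' p ?_⟩
    rw [Finset.mem_filter]
    refine ⟨hp, ?_⟩
    by_contra h
    exact hpP (by rw [hP, Finset.mem_filter]; exact ⟨hp, not_lt.1 h⟩)
  obtain ⟨g, hg1, hg2, hg3⟩ := analytic_part (fun j : s => (j : ℝ)) (fun j : s => w j)
    (hasSum_fintype _).summable hR hd P (fun p hp => (Finset.mem_filter.1 hp).2)
    (fun j hj => hd2 j j.2 hj) hxP
  have hgx : g x0 = w x0 * ∏ p ∈ P.erase x0, ((x0 : ℂ) - p) := by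
    rw [hg2, tsum_fintype]
    congr 1
    rw [Finset.sum_coe_sort s (fun p => if p = x0 then w p else 0), Finset.sum_ite_eq' s x0 w,
      if_pos hx0]
  set N : ℂ → ℂ := fun z => ∑ p ∈ s, w p / (z - (p : ℂ)) with hN
  have hgN : ∀ z : ℂ, z.im ≠ 0 → g z = N z * ∏ p ∈ P, (z - (p : ℂ)) := by
    intro z hz
    rw [hg3 z hz, tsum_fintype, hN]
    congr 1
    exact Finset.sum_coe_sort s (fun p => w p / (z - (p : ℂ)))
  have hne : ∀ p ∈ P.erase x0, (0:ℝ) < ‖(x0 : ℂ) - p‖ := by
    intro p hp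
    apply norm_pos_iff.2
    rw [← Complex.ofReal_sub]
    intro h
    have h2 : x0 - p = 0 := by exact_mod_cast h
    exact (Finset.mem_erase.1 hp).1 (by linarith)
  have hprodpos : 0 < ∏ p ∈ P.erase x0, ‖(x0 : ℂ) - p‖ := Finset.prod_pos hne
  have hw0 : 0 < ‖w x0‖ := norm_pos_iff.2 hw
  have hgx' : ‖g x0‖ = ‖w x0‖ * ∏ p ∈ P.erase x0, ‖(x0 : ℂ) - p‖ := by
    rw [hgx, norm_mul, norm_prod]
  have hg0 : g x0 ≠ 0 := by
    rw [← norm_pos_iff, hgx']; positivity
  have hSint : CircleIntegrable (fun z : ℂ => ∑ p ∈ P, Real.log ‖z - (p : ℂ)‖) (x0 : ℂ) R := by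
    have := CircleIntegrable.sum P (f := fun (p : ℝ) (z : ℂ) => Real.log ‖z - (p : ℂ)‖)
      (fun p _ => int_log_sub x0 R p)
    simpa [Finset.sum_fn] using this
  -- the average of `log ‖g‖`
  have havg : Real.log ‖g x0‖ ≤
      circleAverage (fun z : ℂ => B z + ∑ p ∈ P, Real.log ‖z - (p : ℂ)‖) (x0 : ℂ) R := by
    -- use `h = g * (z - (x0 + R)) * (z - (x0 - R))`
    set h : ℂ → ℂ := fun z => g z * ((z - ((x0 + R : ℝ) : ℂ)) * (z - ((x0 - R : ℝ) : ℂ))) with hh
    have hhan : AnalyticOnNhd ℂ h (closedBall (x0 : ℂ) R) := by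
      apply hg1.mul
      exact ((analyticOnNhd_id.sub analyticOnNhd_const).mul
        (analyticOnNhd_id.sub analyticOnNhd_const))
    have hhc : ‖h x0‖ = ‖g x0‖ * (R * R) := by
      simp only [hh, norm_mul]
      congr 1
      have e1 : ((x0 : ℂ) - ((x0 + R : ℝ) : ℂ)) = ((-R : ℝ) : ℂ) := by push_cast; ring
      have e2 : ((x0 : ℂ) - ((x0 - R : ℝ) : ℂ)) = ((R : ℝ) : ℂ) := by push_cast; ring
      rw [e1, e2, Complex.norm_real, Complex.norm_real, norm_neg, Real.norm_eq_abs, hR']
    have hgpos : 0 < ‖g x0‖ := norm_pos_iff.2 hg0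
    have hhc0 : h x0 ≠ 0 := by
      rw [← norm_pos_iff, hhc]; positivity
    have hBI : CircleIntegrable (fun z : ℂ => (B z + ∑ p ∈ P, Real.log ‖z - (p : ℂ)‖) +
        (Real.log |z.im| + Real.log (2 * R))) (x0 : ℂ) R :=
      (hB.add hSint).add ((int_log_abs_im x0 hR).add (circleIntegrable_const _ _ _))
    have key := avg_le hR hhan hhc0 hBI (by
      intro z hz hz0
      have hlog := log_abs_im_eq hR hz
      have hz1 : z - ((x0 + R : ℝ) : ℂ) ≠ 0 := by
        intro e; apply hz0; simp only [hh]; rw [e]; simp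
      have hz2 : z - ((x0 - R : ℝ) : ℂ) ≠ 0 := by
        intro e; apply hz0; simp only [hh]; rw [e]; simp
      have him : z.im ≠ 0 := by
        intro e
        have hz' : ‖z - x0‖ = R := by simpa [dist_eq_norm] using hz
        have e2 : z = ((z.re : ℝ) : ℂ) := by
          apply Complex.ext <;> simp [e]
        rw [e2, ← Complex.ofReal_sub, Complex.norm_real, Real.norm_eq_abs] at hz'
        rcases (abs_eq hR.le).1 hz' with h | h
        · apply hz1; rw [e2, ← Complex.ofReal_sub]
          have : z.re - (x0 + R) = 0 := by linarith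
          rw [this]; simp
        · apply hz2; rw [e2, ← Complex.ofReal_sub]
          have : z.re - (x0 - R) = 0 := by linarith
          rw [this]; simp
      have hgz : g z ≠ 0 := by
        intro e; apply hz0; simp only [hh]; rw [e]; simp
      have hNz : N z ≠ 0 := by
        intro e; apply hgz; rw [hgN z him, e, zero_mul]
      have hpr : ∀ p ∈ P, ‖z - (p : ℂ)‖ ≠ 0 := by
        intro p _ e
        apply him
        have := congrArg Complex.im (norm_eq_zero.1 e)
        simpa using this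
      have e1 : ‖h z‖ = (‖N z‖ * ∏ p ∈ P, ‖z - (p : ℂ)‖) *
          (‖z - ((x0 + R : ℝ) : ℂ)‖ * ‖z - ((x0 - R : ℝ) : ℂ)‖) := by
        simp only [hh]
        rw [norm_mul, norm_mul, hgN z him, norm_mul, norm_prod]
      rw [e1, Real.log_mul (mul_ne_zero (norm_ne_zero_iff.2 hNz) (Finset.prod_ne_zero_iff.2 hpr))
        (mul_ne_zero (norm_ne_zero_iff.2 hz1) (norm_ne_zero_iff.2 hz2)),
        Real.log_mul (norm_ne_zero_iff.2 hNz) (Finset.prod_ne_zero_iff.2 hpr),
        Real.log_mul (norm_ne_zero_iff.2 hz1) (norm_ne_zero_iff.2 hz2), Real.log_prod hpr]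
      have hbz := hb z hz him hNz
      change Real.log ‖N z‖ ≤ B z at hbz
      linarith)
    have i1 : CircleIntegrable (fun z : ℂ => B z + ∑ p ∈ P, Real.log ‖z - (p : ℂ)‖)
      (x0 : ℂ) R := hB.add hSint
    have i2 : CircleIntegrable (fun z : ℂ => Real.log |z.im| + Real.log (2 * R)) (x0 : ℂ) R :=
      (int_log_abs_im x0 hR).add (circleIntegrable_const _ _ _)
    rw [circleAverage_fun_add i1 i2,
      circleAverage_fun_add (int_log_abs_im x0 hR) (circleIntegrable_const _ _ _),
      avg_log_abs_im x0 hR, circleAverage_const, hhc, Real.log_mul hgpos.ne' (by positivity),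
      Real.log_mul hR.ne' hR.ne', Real.log_mul (by norm_num) hR.ne'] at key
    linarith
  have h2 : circleAverage (fun z : ℂ => ∑ p ∈ P, Real.log ‖z - (p : ℂ)‖) (x0 : ℂ) R
      = P.card * Real.log R := by
    rw [circleAverage_fun_sum (fun p _ => int_log_sub x0 R p),
      Finset.sum_congr rfl (g := fun _ => Real.log R)]
    · simp
    · intro p hp
      have : (p : ℂ) ∈ closedBall (x0 : ℂ) |R| := by
        rw [hR', mem_closedBall, dist_eq_norm, ← Complex.ofReal_sub, Complex.norm_real]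
        exact (Finset.mem_filter.1 hp).2
      exact circleAverage_log_norm_sub_const_of_mem_closedBall this
  rw [circleAverage_fun_add hB hSint, h2, hgx', Real.log_mul hw0.ne' hprodpos.ne',
    Real.log_prod (fun p hp => (hne p hp).ne')] at havg
  have hcardP : (P.card : ℝ) = (P.erase x0).card + 1 := by
    rw [Finset.card_erase_of_mem hxP]
    have : 1 ≤ P.card := Finset.card_pos.2 ⟨x0, hxP⟩
    push_cast [Nat.cast_sub this]
    ring
  have hsum : ∑ p ∈ s.filter (fun p => p ≠ x0 ∧ |p - x0| < R), Real.log (R / |p - x0|) =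
      (P.erase x0).card * Real.log R - ∑ p ∈ P.erase x0, Real.log ‖(x0 : ℂ) - p‖ := by
    have h3 : ∀ p ∈ P.erase x0, Real.log (R / |p - x0|) = Real.log R - Real.log ‖(x0 : ℂ) - p‖ := by
      intro p hp
      have h4 := hne p hp
      have h5 : ‖(x0 : ℂ) - p‖ = |p - x0| := by
        rw [← Complex.ofReal_sub, Complex.norm_real, Real.norm_eq_abs, abs_sub_comm]
      rw [h5] at h4 ⊢
      exact Real.log_div hR.ne' h4.ne'
    have h6 : ∑ p ∈ s.filter (fun p => p ≠ x0 ∧ |p - x0| < R), Real.log (R / |p - x0|) =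
        ∑ p ∈ P.erase x0, Real.log (R / |p - x0|) := by
      apply Finset.sum_subset
      · intro p hp
        rw [Finset.mem_filter] at hp
        rw [Finset.mem_erase, hP, Finset.mem_filter]
        exact ⟨hp.2.1, hp.1, hp.2.2.le⟩
      · intro p hp hp2
        rw [Finset.mem_erase, hP, Finset.mem_filter] at hp
        have : ¬ |p - x0| < R := fun h => hp2 (Finset.mem_filter.2 ⟨hp.2.1, hp.1, h⟩)
        have h7 : |p - x0| = R := le_antisymm hp.2.2 (not_lt.1 this)
        rw [h7, div_self hR.ne', Real.log_one]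
    rw [h6, Finset.sum_congr rfl h3, Finset.sum_sub_distrib, Finset.sum_const, nsmul_eq_mul]
  rw [hsum]
  rw [hcardP] at havg
  linarith

/-- `log ‖N‖` itself. -/
theorem jensen_iso {s : Finset ℝ} (w : ℝ → ℂ) {x0 : ℝ} (hx0 : x0 ∈ s) (hw : w x0 ≠ 0) {R : ℝ}
    (hR : 0 < R) :
    Real.log ‖w x0‖ - Real.log R -
      circleAverage (fun z : ℂ => Real.log ‖∑ p ∈ s, w p / (z - (p : ℂ))‖) (x0 : ℂ) R ≤
      ∑ p ∈ s.filter (fun p => p ≠ x0 ∧ |p - x0| < R), Real.log (R / |p - x0|) := by
  refine jensen_iso_le w hx0 hw hR ?_ (fun z _ _ _ => le_rfl)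
  have hNmer : MeromorphicOn (fun z : ℂ => ∑ p ∈ s, w p / (z - (p : ℂ))) (sphere (x0 : ℂ) |R|) := by
    intro z _
    apply MeromorphicAt.fun_sum
    intro p _
    fun_prop
  exact hNmer.circleIntegrable_log_norm

/-- The Fourier transform of a finite measure on the line. -/
noncomputable def nu (s : Finset ℝ) (w : ℝ → ℂ) (u : ℝ) : ℂ :=
  ∑ p ∈ s, w p * Complex.exp (-(2 * π * u * p : ℝ) * Complex.I)

theorem nu_cont (s : Finset ℝ) (w : ℝ → ℂ) : Continuous (nu s w) := by
  unfold nu
  fun_prop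

theorem nu_le (s : Finset ℝ) (w : ℝ → ℂ) (u : ℝ) : ‖nu s w u‖ ≤ ∑ p ∈ s, ‖w p‖ := by
  unfold nu
  refine (norm_sum_le _ _).trans (le_of_eq (Finset.sum_congr rfl fun p _ => ?_))
  rw [norm_mul, Complex.norm_exp]
  simp

theorem cauchy_pos (s : Finset ℝ) (w : ℝ → ℂ) {z : ℂ} (hz : 0 < z.im) :
    ‖∑ p ∈ s, w p / (z - (p : ℂ))‖ ≤
      2 * π * ∫ u in Ioi (0:ℝ), Real.exp (-(2 * π * u * z.im)) * ‖nu s w u‖ := by
  have hpi := Real.pi_pos
  have hre : ∀ p : ℝ, ((2 * π : ℝ) * Complex.I * (z - p)).re < 0 := by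
    intro p
    have : ((2 * π : ℝ) * Complex.I * (z - p)).re = -(2 * π * z.im) := by
      simp [Complex.mul_re, Complex.mul_im]
    rw [this]
    have : 0 < 2 * π * z.im := by positivity
    linarith
  have hone : ∀ p : ℝ, w p / (z - (p : ℂ)) = (-(2 * π : ℝ) * Complex.I) *
      ∫ u in Ioi (0:ℝ), w p * Complex.exp ((2 * π : ℝ) * Complex.I * (z - p) * u) := by
    intro p
    rw [integral_const_mul, integral_exp_mul_complex_Ioi (hre p)]
    have hne : (z - (p : ℂ)) ≠ 0 := by
      intro h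
      have := congrArg Complex.im h
      simp at this
      linarith
    have hpi' : ((π : ℝ) : ℂ) ≠ 0 := by exact_mod_cast hpi.ne'
    simp only [Complex.ofReal_zero, mul_zero, Complex.exp_zero]
    push_cast
    field_simp
  have hint : ∀ p ∈ s, Integrable (fun u : ℝ => w p * Complex.exp ((2 * π : ℝ) * Complex.I * (z - p) * u))
      (volume.restrict (Ioi (0:ℝ))) := by
    intro p _
    exact (integrableOn_exp_mul_complex_Ioi (hre p) 0).const_mul _
  have hsum : ∑ p ∈ s, w p / (z - (p : ℂ)) = (-(2 * π : ℝ) * Complex.I) *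
      ∫ u in Ioi (0:ℝ), Complex.exp ((2 * π : ℝ) * Complex.I * z * u) * nu s w u := by
    rw [Finset.sum_congr rfl (fun p _ => hone p), ← Finset.mul_sum, ← integral_finset_sum _ hint]
    congr 2
    funext u
    unfold nu
    rw [Finset.mul_sum]
    apply Finset.sum_congr rfl
    intro p _
    rw [mul_left_comm, ← Complex.exp_add]
    congr 2
    push_cast
    ring
  rw [hsum, norm_mul]
  have h1 : ‖(-(2 * π : ℝ) * Complex.I : ℂ)‖ = 2 * π := by
    rw [norm_mul, Complex.norm_I, mul_one, norm_neg, Complex.norm_real, Real.norm_eq_abs,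
      abs_of_pos (by positivity)]
  rw [h1]
  apply mul_le_mul_of_nonneg_left _ (by positivity)
  refine (norm_integral_le_integral_norm _).trans (le_of_eq ?_)
  congr 1
  funext u
  rw [norm_mul, Complex.norm_exp]
  congr 2
  simp [Complex.mul_re, Complex.mul_im]
  ring

theorem cauchy_neg (s : Finset ℝ) (w : ℝ → ℂ) {z : ℂ} (hz : z.im < 0) :
    ‖∑ p ∈ s, w p / (z - (p : ℂ))‖ ≤
      2 * π * ∫ u in Ioi (0:ℝ), Real.exp (-(2 * π * u * |z.im|)) * ‖nu s w (-u)‖ := by
  have h := cauchy_pos s (fun p => (starRingEnd ℂ) (w p)) (z := (starRingEnd ℂ) z) (by simpa using hz)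
  have e1 : ‖∑ p ∈ s, (starRingEnd ℂ) (w p) / ((starRingEnd ℂ) z - (p : ℂ))‖ =
      ‖∑ p ∈ s, w p / (z - (p : ℂ))‖ := by
    rw [← Complex.norm_conj (∑ p ∈ s, w p / (z - (p : ℂ)))]
    congr 1
    rw [map_sum]
    apply Finset.sum_congr rfl
    intro p _
    simp
  have e2 : ∀ u : ℝ, ‖nu s (fun p => (starRingEnd ℂ) (w p)) u‖ = ‖nu s w (-u)‖ := by
    intro u
    rw [← Complex.norm_conj (nu s w (-u))]
    congr 1
    unfold nu
    rw [map_sum]
    apply Finset.sum_congr rfl
    intro p _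
    rw [map_mul, ← Complex.exp_conj]
    congr 2
    simp [map_ofNat]
  rw [e1] at h
  simp_rw [e2] at h
  rw [abs_of_neg hz]
  simpa using h

/-- The integrand of the kernel. -/
noncomputable def ph (a y u : ℝ) : ℝ := y * Real.exp (-(2 * π * (|u| - a) * y))

theorem ph_nonneg {a y : ℝ} (hy : 0 ≤ y) (u : ℝ) : 0 ≤ ph a y u := by
  unfold ph; positivity

theorem ph_integrable (a : ℝ) {y : ℝ} (hy : 0 ≤ y) : Integrable (fun u => ph a y u) := by
  rcases hy.eq_or_lt with h | h
  · subst h; simp [ph]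
  have hpi := Real.pi_pos
  have hc : -(2 * π * y) < 0 := by have : 0 < 2 * π * y := by positivity
                                   linarith
  have h1 : IntegrableOn (fun u : ℝ => Real.exp (-(2 * π * y) * u)) (Ioi 0) :=
    integrableOn_exp_mul_Ioi hc 0
  have h2 : IntegrableOn (fun u : ℝ => ph a y u) (Ioi 0) := by
    have h3 : IntegrableOn (fun u : ℝ => (y * Real.exp (2 * π * a * y)) *
        Real.exp (-(2 * π * y) * u)) (Ioi 0) := h1.const_mul _
    refine h3.congr_fun ?_ measurableSet_Ioi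
    intro u hu
    simp only [ph]
    rw [abs_of_pos hu, mul_assoc, ← Real.exp_add]
    congr 2; ring
  have h4 : IntegrableOn (fun u : ℝ => ph a y u) (Iic 0) := by
    have h5 : IntegrableOn (fun u : ℝ => ph a y (-u)) (Iic 0) := by
      have := (integrableOn_Iic_iff_integrableOn_Iio (μ := volume) (f := fun u : ℝ => ph a y (-u)) (b := 0))
      rw [this]
      have h6 : IntegrableOn (fun u : ℝ => ph a y u) (Ioi (-(0:ℝ))) := by simpa using h2
      exact h6.comp_neg_Iio
    refine h5.congr_fun ?_ measurableSet_Iic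
    intro u _
    simp [ph]
  have h7 := h4.union h2
  rw [Iic_union_Ioi, integrableOn_univ] at h7
  exact h7

theorem ph_integral (a : ℝ) {y : ℝ} (hy : 0 < y) : ∫ u, ph a y u = Real.exp (2 * π * a * y) / π := by
  have hpi := Real.pi_pos
  have hc : -(2 * π * y) < 0 := by have : 0 < 2 * π * y := by positivity
                                   linarith
  have h1 : ∫ u : ℝ, ph a y u = 2 * ∫ u in Ioi (0:ℝ), (y * Real.exp (-(2 * π * (u - a) * y))) :=
    integral_comp_abs (f := fun u => y * Real.exp (-(2 * π * (u - a) * y)))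
  have h2 : (∫ u in Ioi (0:ℝ), (y * Real.exp (-(2 * π * (u - a) * y)))) =
      (y * Real.exp (2 * π * a * y)) * ∫ u in Ioi (0:ℝ), Real.exp (-(2 * π * y) * u) := by
    rw [← integral_const_mul]
    congr 1
    funext u
    rw [mul_assoc y (Real.exp _) (Real.exp _), ← Real.exp_add]
    congr 2; ring
  rw [h1, h2, integral_exp_mul_Ioi hc]
  simp only [mul_zero, Real.exp_zero]
  field_simp

theorem prod_integrable (a : ℝ) {R : ℝ} (hR : 0 < R) {f : ℝ → ℝ} (hf : Continuous f) {C : ℝ}
    (hC : ∀ u, |f u| ≤ C) :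
    Integrable (fun q : ℝ × ℝ => ph a (R * Real.sin q.1) q.2 * f q.2)
      ((volume.restrict (Ioc (0:ℝ) π)).prod volume) := by
  have hpi := Real.pi_pos
  have hsin : ∀ t ∈ Ioc (0:ℝ) π, 0 ≤ R * Real.sin t := fun t ht =>
    mul_nonneg hR.le (Real.sin_nonneg_of_nonneg_of_le_pi ht.1.le ht.2)
  have hcont : Continuous (fun q : ℝ × ℝ => ph a (R * Real.sin q.1) q.2) := by
    unfold ph; fun_prop
  have h1 : Integrable (fun q : ℝ × ℝ => ph a (R * Real.sin q.1) q.2)
      ((volume.restrict (Ioc (0:ℝ) π)).prod volume) := by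
    rw [integrable_prod_iff hcont.aestronglyMeasurable]
    constructor
    · filter_upwards [ae_restrict_mem measurableSet_Ioc] with t ht
      exact ph_integrable a (hsin t ht)
    · have h2 : Integrable (fun t : ℝ => Real.exp (2 * π * a * (R * Real.sin t)) / π)
          (volume.restrict (Ioc (0:ℝ) π)) := by
        have : Continuous (fun t : ℝ => Real.exp (2 * π * a * (R * Real.sin t)) / π) := by fun_prop
        exact (this.integrableOn_Icc (a := 0) (b := π)).mono_set Ioc_subset_Icc_self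
      refine h2.congr ?_
      have hne : ∀ᵐ t : ℝ ∂(volume.restrict (Ioc (0:ℝ) π)), t ≠ π := by
        have h := (Set.countable_singleton (π : ℝ)).ae_notMem (volume.restrict (Ioc (0:ℝ) π))
        filter_upwards [h] with s hs
        simpa using hs
      filter_upwards [ae_restrict_mem measurableSet_Ioc, hne] with t ht htπ
      have hpos : 0 < R * Real.sin t :=
        mul_pos hR (Real.sin_pos_of_pos_of_lt_pi ht.1 (lt_of_le_of_ne ht.2 htπ))
      rw [← ph_integral a hpos]
      apply integral_congr_ae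
      filter_upwards with u
      rw [Real.norm_eq_abs, abs_of_nonneg (ph_nonneg hpos.le u)]
  have hC0 : 0 ≤ C := (abs_nonneg _).trans (hC 0)
  refine Integrable.mono' (h1.norm.const_mul C) ?_ ?_
  · apply Continuous.aestronglyMeasurable
    exact hcont.mul (hf.comp continuous_snd)
  · filter_upwards with q
    rw [norm_mul, mul_comm]
    apply mul_le_mul_of_nonneg_right _ (norm_nonneg _)
    rw [Real.norm_eq_abs]; exact hC _

/-- half line part -/
noncomputable def hf (a : ℝ) (f : ℝ → ℝ) (y : ℝ) : ℝ := ∫ u in Ioi (0:ℝ), ph a y u * f u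

theorem hf_integrable (a : ℝ) {R : ℝ} (hR : 0 < R) {f : ℝ → ℝ} (hcf : Continuous f) {C : ℝ}
    (hC : ∀ u, |f u| ≤ C) :
    IntervalIntegrable (fun t => hf a f (R * Real.sin t)) volume 0 π := by
  rw [intervalIntegrable_iff_integrableOn_Ioc_of_le Real.pi_pos.le]
  have h1 := prod_integrable a hR hcf hC
  have h2 : Integrable (fun q : ℝ × ℝ => ph a (R * Real.sin q.1) q.2 * f q.2)
      ((volume.restrict (Ioc (0:ℝ) π)).prod (volume.restrict (Ioi (0:ℝ)))) :=
    h1.mono_measure (Measure.prod_mono le_rfl Measure.restrict_le_self)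
  exact h2.integral_prod_left

theorem hf_sum (a : ℝ) {R : ℝ} (hR : 0 < R) {f : ℝ → ℝ} (hcf : Continuous f) {C : ℝ}
    (hC : ∀ u, |f u| ≤ C) :
    (∫ t in (0:ℝ)..π, hf a f (R * Real.sin t)) +
      (∫ t in (0:ℝ)..π, hf a (fun u => f (-u)) (R * Real.sin t)) = ∫ u, kk a R u * f u := by
  have hpi := Real.pi_pos
  have hcf' : Continuous (fun u => f (-u)) := hcf.comp continuous_neg
  have i1 := hf_integrable a hR hcf hC
  have i2 := hf_integrable a hR hcf' (fun u => hC (-u))
  rw [← intervalIntegral.integral_add i1 i2]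
  have h1 := prod_integrable a hR hcf hC
  have h2 : (∫ t in (0:ℝ)..π, (hf a f (R * Real.sin t) + hf a (fun u => f (-u)) (R * Real.sin t))) =
      ∫ t in (0:ℝ)..π, ∫ u, ph a (R * Real.sin t) u * f u := by
    apply intervalIntegral.integral_congr
    intro t ht
    rw [uIcc_of_le hpi.le] at ht
    have hy : 0 ≤ R * Real.sin t := mul_nonneg hR.le (Real.sin_nonneg_of_nonneg_of_le_pi ht.1 ht.2)
    have hI : Integrable (fun u => ph a (R * Real.sin t) u * f u) := by
      refine Integrable.mono' ((ph_integrable a hy).norm.const_mul C) ?_ ?_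
      · apply Continuous.aestronglyMeasurable
        unfold ph; fun_prop
      · filter_upwards with u
        rw [norm_mul, mul_comm]
        apply mul_le_mul_of_nonneg_right _ (norm_nonneg _)
        rw [Real.norm_eq_abs]; exact hC _
    simp only [hf]
    rw [← intervalIntegral.integral_Iic_add_Ioi hI.integrableOn hI.integrableOn (b := 0), add_comm]
    congr 1
    have h3 := integral_comp_neg_Ioi (0:ℝ) (fun u => ph a (R * Real.sin t) u * f u)
    rw [neg_zero] at h3
    rw [← h3]
    congr 1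
    funext u
    simp [ph]
  rw [h2, intervalIntegral.integral_of_le hpi.le]
  rw [integral_integral_swap (f := fun t u => ph a (R * Real.sin t) u * f u) h1]
  congr 1
  funext u
  rw [integral_mul_const, kk, intervalIntegral.integral_of_le hpi.le]
  rfl

theorem jensen_kernel {s : Finset ℝ} (w : ℝ → ℂ) {x0 : ℝ} (hx0 : x0 ∈ s) (hw : w x0 ≠ 0)
    {R M a : ℝ} (hR : 0 < R) (hM : 0 < M) :
    Real.log ‖w x0‖ + 4 * a * R - Real.log (2 * M) + 1 - M⁻¹ * ∫ u, kk a R u * ‖nu s w u‖ ≤
      ∑ p ∈ (s.erase x0).filter (fun p => |p - x0| < R), Real.log (R / |p - x0|) := by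
  classical
  have hpi := Real.pi_pos
  have hR' : |R| = R := abs_of_pos hR
  set f : ℝ → ℝ := fun u => ‖nu s w u‖ with hfdef
  have hcf : Continuous f := (nu_cont s w).norm
  have hcf' : Continuous (fun u => f (-u)) := hcf.comp continuous_neg
  have hC : ∀ u, |f u| ≤ ∑ p ∈ s, ‖w p‖ := fun u => by
    rw [hfdef]; simp only; rw [abs_of_nonneg (norm_nonneg _)]; exact nu_le s w u
  set T : ℂ → ℝ := fun z => if 0 < z.im then hf a f |z.im| else hf a (fun u => f (-u)) |z.im| with hT
  -- the part `T` on the circle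
  have hcim : ∀ θ : ℝ, (circleMap (x0 : ℂ) R θ).im = R * Real.sin θ := by
    intro θ; simp [circleMap, Complex.exp_ofReal_mul_I_im]
  have e1 : ∀ θ ∈ Ioo (0:ℝ) π, T (circleMap (x0 : ℂ) R θ) = hf a f (R * Real.sin θ) := by
    intro θ hθ
    have hpos : 0 < R * Real.sin θ := mul_pos hR (Real.sin_pos_of_pos_of_lt_pi hθ.1 hθ.2)
    simp only [hT, hcim, if_pos hpos, abs_of_pos hpos]
  have e2 : ∀ θ ∈ Ioo (π:ℝ) (2*π), T (circleMap (x0 : ℂ) R θ) =
      hf a (fun u => f (-u)) (R * Real.sin (2 * π - θ)) := by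
    intro θ hθ
    have h1 : Real.sin (2 * π - θ) = - Real.sin θ := by
      rw [Real.sin_two_pi_sub]
    have h2 : 0 < Real.sin (2 * π - θ) :=
      Real.sin_pos_of_pos_of_lt_pi (by linarith [hθ.2]) (by linarith [hθ.1])
    have h3 : R * Real.sin θ < 0 := by
      have : Real.sin θ < 0 := by linarith
      exact mul_neg_of_pos_of_neg hR this
    simp only [hT, hcim, if_neg (not_lt.2 h3.le), abs_of_neg h3]
    congr 1
    rw [h1]; ring
  have i1 := hf_integrable a hR hcf hC
  have i2 := hf_integrable a hR hcf' (fun u => hC (-u))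
  have j1 : IntervalIntegrable (fun θ => T (circleMap (x0 : ℂ) R θ)) volume 0 π := by
    refine i1.congr_ae ?_
    rw [uIoc_of_le hpi.le]
    have hne : ∀ᵐ t : ℝ ∂(volume.restrict (Ioc (0:ℝ) π)), t ≠ π := by
      have h := (Set.countable_singleton (π : ℝ)).ae_notMem (volume.restrict (Ioc (0:ℝ) π))
      filter_upwards [h] with s hs
      simpa using hs
    filter_upwards [ae_restrict_mem measurableSet_Ioc, hne] with t ht htπ
    exact (e1 t ⟨ht.1, lt_of_le_of_ne ht.2 htπ⟩).symm
  have i3 : IntervalIntegrable (fun θ => hf a (fun u => f (-u)) (R * Real.sin (2 * π - θ)))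
      volume π (2 * π) := by
    have := (i2.comp_sub_left (2 * π)).symm
    convert this using 1 <;> ring
  have j2 : IntervalIntegrable (fun θ => T (circleMap (x0 : ℂ) R θ)) volume π (2 * π) := by
    refine i3.congr_ae ?_
    rw [uIoc_of_le (by linarith)]
    have hne : ∀ᵐ t : ℝ ∂(volume.restrict (Ioc (π:ℝ) (2 * π))), t ≠ 2 * π := by
      have h := (Set.countable_singleton (2 * π : ℝ)).ae_notMem (volume.restrict (Ioc (π:ℝ) (2 * π)))
      filter_upwards [h] with s hs
      simpa using hs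
    filter_upwards [ae_restrict_mem measurableSet_Ioc, hne] with t ht htπ
    exact (e2 t ⟨ht.1, lt_of_le_of_ne ht.2 htπ⟩).symm
  have hTI : CircleIntegrable T (x0 : ℂ) R := j1.trans j2
  have hTint : ∫ θ in (0:ℝ)..(2 * π), T (circleMap (x0 : ℂ) R θ) = ∫ u, kk a R u * f u := by
    rw [← intervalIntegral.integral_add_adjacent_intervals j1 j2, ← hf_sum a hR hcf hC]
    congr 1
    · apply intervalIntegral.integral_congr_ae
      have hne : ∀ᵐ t : ℝ ∂volume, t ≠ π := by
        have h := (Set.countable_singleton (π : ℝ)).ae_notMem (volume : Measure ℝ)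
        filter_upwards [h] with s hs
        simpa using hs
      filter_upwards [hne] with t htπ ht
      rw [uIoc_of_le hpi.le] at ht
      exact e1 t ⟨ht.1, lt_of_le_of_ne ht.2 htπ⟩
    · have h1 : (∫ θ in (π:ℝ)..(2 * π), T (circleMap (x0 : ℂ) R θ)) =
          ∫ θ in (π:ℝ)..(2 * π), hf a (fun u => f (-u)) (R * Real.sin (2 * π - θ)) := by
        apply intervalIntegral.integral_congr_ae
        have hne : ∀ᵐ t : ℝ ∂volume, t ≠ 2 * π := by
          have h := (Set.countable_singleton (2 * π : ℝ)).ae_notMem (volume : Measure ℝ)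
          filter_upwards [h] with s hs
          simpa using hs
        filter_upwards [hne] with t htπ ht
        rw [uIoc_of_le (by linarith)] at ht
        exact e2 t ⟨ht.1, lt_of_le_of_ne ht.2 htπ⟩
      rw [h1, intervalIntegral.integral_comp_sub_left
        (fun t => hf a (fun u => f (-u)) (R * Real.sin t)) (2 * π)]
      congr 1 <;> ring
  have hTavg : circleAverage T (x0 : ℂ) R = (2 * π)⁻¹ * ∫ u, kk a R u * f u := by
    rw [circleAverage_def, hTint, smul_eq_mul]
  -- the majorant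
  set B : ℂ → ℝ := fun z => ((Real.log M - 1 - 2 * π * a * |z.im|) - Real.log |z.im|) +
    (M⁻¹ * (2 * π)) • T z with hB
  have b1 : CircleIntegrable (fun z : ℂ => Real.log M - 1 - 2 * π * a * |z.im|) (x0 : ℂ) R := by
    apply ContinuousOn.circleIntegrable'
    fun_prop
  have b2 := int_log_abs_im x0 hR
  have b3 : CircleIntegrable (fun z : ℂ => (M⁻¹ * (2 * π)) • T z) (x0 : ℂ) R := hTI.const_smul
  have b12 : CircleIntegrable (fun z : ℂ => (Real.log M - 1 - 2 * π * a * |z.im|) -
    Real.log |z.im|) (x0 : ℂ) R := b1.sub b2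
  have hBI : CircleIntegrable B (x0 : ℂ) R := b12.add b3
  have key := jensen_iso_le w hx0 hw hR hBI (by
    intro z _ him hN
    have hy : 0 < |z.im| := abs_pos.2 him
    have hNpos : 0 < ‖∑ p ∈ s, w p / (z - (p : ℂ))‖ := norm_pos_iff.2 hN
    set lam : ℝ := M * Real.exp (-(2 * π * a * |z.im|)) / |z.im| with hlam
    have hlpos : 0 < lam := by positivity
    have h1 : Real.log (‖∑ p ∈ s, w p / (z - (p : ℂ))‖ / lam) ≤
        ‖∑ p ∈ s, w p / (z - (p : ℂ))‖ / lam - 1 := Real.log_le_sub_one_of_pos (by positivity)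
    rw [Real.log_div hNpos.ne' hlpos.ne'] at h1
    have h2 : Real.log lam = Real.log M - 2 * π * a * |z.im| - Real.log |z.im| := by
      rw [hlam, Real.log_div (by positivity) hy.ne', Real.log_mul hM.ne' (Real.exp_pos _).ne',
        Real.log_exp]
      ring
    have h3 : ‖∑ p ∈ s, w p / (z - (p : ℂ))‖ ≤ 2 * π * (Real.exp (-(2 * π * a * |z.im|)) / |z.im| * T z) := by
      have hkey : ∀ (F : ℝ → ℝ), Real.exp (-(2 * π * a * |z.im|)) / |z.im| * hf a F |z.im| =
          ∫ u in Ioi (0:ℝ), Real.exp (-(2 * π * u * |z.im|)) * F u := by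
        intro F
        unfold hf
        rw [← integral_const_mul]
        apply setIntegral_congr_fun measurableSet_Ioi
        intro u hu
        simp only [ph]
        rw [abs_of_pos (show (0:ℝ) < u from hu)]
        have : Real.exp (-(2 * π * u * |z.im|)) = Real.exp (-(2 * π * a * |z.im|)) *
            Real.exp (-(2 * π * (u - a) * |z.im|)) := by
          rw [← Real.exp_add]; congr 1; ring
        rw [this]
        field_simp
      rcases lt_or_gt_of_ne him with h | h
      · have := cauchy_neg s w h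
        simp only [hT, if_neg (not_lt.2 h.le)]
        rw [hkey]
        exact this
      · have := cauchy_pos s w h
        simp only [hT, if_pos h]
        rw [hkey, abs_of_pos h]
        exact this
    have h4 : ‖∑ p ∈ s, w p / (z - (p : ℂ))‖ / lam ≤ M⁻¹ * (2 * π) * T z := by
      rw [div_le_iff₀ hlpos]
      refine h3.trans (le_of_eq ?_)
      rw [hlam]
      field_simp
    simp only [hB, smul_eq_mul]
    linarith)
  have hBavg : circleAverage B (x0 : ℂ) R = Real.log M - 1 - 4 * a * R - (Real.log R - Real.log 2) +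
      M⁻¹ * ∫ u, kk a R u * f u := by
    have hA : CircleIntegrable (fun z : ℂ => |z.im|) (x0 : ℂ) R := by
      apply ContinuousOn.circleIntegrable'
      fun_prop
    have h4 : circleAverage (fun z : ℂ => Real.log M - 1 - 2 * π * a * |z.im|) (x0 : ℂ) R
        = circleAverage (fun _ : ℂ => Real.log M - 1) (x0 : ℂ) R -
          circleAverage (fun z : ℂ => (2 * π * a) • |z.im|) (x0 : ℂ) R :=
      circleAverage_fun_sub (circleIntegrable_const _ _ _) (hA.const_smul)
    rw [hB, circleAverage_fun_add b12 b3, circleAverage_fun_sub b1 b2, h4, circleAverage_fun_smul,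
      circleAverage_fun_smul, avg_abs_im x0 hR, avg_log_abs_im x0 hR, circleAverage_const, hTavg]
    simp only [smul_eq_mul]
    field_simp
    ring
  rw [hBavg] at key
  have hfilter : (s.erase x0).filter (fun p => |p - x0| < R) =
      s.filter (fun p => p ≠ x0 ∧ |p - x0| < R) := by
    ext p
    simp only [Finset.mem_filter, Finset.mem_erase]
    tauto
  rw [hfilter, Real.log_mul (by norm_num) hM.ne']
  linarith

end Pool.Agent.Lib.MP_00e05b_nt.Gap.Jx

namespace Pool.Agent.Lib.MP_00e05b_nt.Gap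

theorem jensen_iso {s : Finset ℝ} {w : ℝ → ℂ} {x0 R a M : ℝ} (h0 : x0 ∈ s) (hw : w x0 ≠ 0) (hR : 0 < R) (ha : 0 ≤ a)
    (hM : 0 < M) :
    Real.log ‖w x0‖ + 4 * a * R - Real.log (2 * M) + 1 -
      M⁻¹ * ∫ u : ℝ, kk a R u * ‖∑ p ∈ s, w p * Complex.exp (-((2 * Real.pi * u * p : ℝ) : ℂ) * Complex.I)‖ ≤
    ∑ p ∈ (s.erase x0).filter (fun p => |p - x0| < R), Real.log (R / |p - x0|) :=
  Jx.jensen_kernel w h0 hw hR hM

end Pool.Agent.Lib.MP_00e05b_nt.Gap
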