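import Pool.Agent.Lib.MP_00e05b_nt.Gap.Defs
import Pool.Agent.Lib.MP_00e05b_nt.Mont.NT

/-!
# LEAF Iso (helper38, helper10): isolated simple zeros

Fejér kernel: the number of pairs within `r` mean spacings is at most `(4/3 + o(1)) (sin πr/πr)⁻² N < 1.45 N`, so at least half of the
zeros are simple and `r`-isolated; only `F` on `[-1, 1]` is used (`PS_FF`, `base_sym`, `count_tendsto`). Around each of them we put a
`t`-interval of length `r` mean spacings; these intervals are disjoint and lie in the set where some such zero has `|x_γ(t)| ≤ 1`.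
-/

open Set Filter Topology MeasureTheory

namespace Pool.Agent.Lib.MP_00e05b_nt.Gap

open Pool.Agent.Lib.MP_00e05b_nt Pool.Agent.Lib.MP_00e05b_nt.Mont

/-- The simple ordinates in `(0, T]` with no other ordinate in `(0, T]` within `r` mean spacings. -/
noncomputable def Iso (r T : ℝ) : Finset ℝ := by
  classical
  exact (ordinates T).filter fun γ => mult γ = 1 ∧
    ∀ γ' ∈ ordinates T, γ' ≠ γ → r ≤ |Real.log T * (γ - γ') / (2 * Real.pi)|

lemma mem_Iso {r T γ : ℝ} : γ ∈ Iso r T ↔ γ ∈ ordinates T ∧ mult γ = 1 ∧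
    ∀ γ' ∈ ordinates T, γ' ≠ γ → r ≤ |Real.log T * (γ - γ') / (2 * Real.pi)| := by
  classical
  unfold Iso
  rw [Finset.mem_filter]

lemma Iso_mult {T γ : ℝ} (h : γ ∈ ordinates T) : 1 ≤ mult γ := by
  have hz := (mem_ordinates.1 h).2.2
  rw [← mx_half]
  exact order_pos differentiable_xi (z₀ := 2) (xi_ne_zero (by norm_num)) ((xi_half_iff γ).2 hz)

private lemma Iso_tent_cont : Continuous fun α : ℝ => max 0 (1 - |α|) := by fun_prop

private lemma Iso_tent_supp (α : ℝ) (h : 1 ≤ |α|) : max 0 (1 - |α|) = 0 := max_eq_left (by linarith)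

private lemma Iso_tent_int (g : ℝ → ℝ) (hg : Continuous g) :
    ∫ α : ℝ, g |α| * max 0 (1 - |α|) = 2 * ∫ α in (0 : ℝ)..1, g α * (1 - α) := by
  have h := integral_comp_abs (f := fun α : ℝ => g α * max 0 (1 - α))
  have h1 : (∫ α : ℝ, g |α| * max 0 (1 - |α|)) = ∫ α : ℝ, (fun α : ℝ => g α * max 0 (1 - α)) |α| := rfl
  rw [h1, h]
  congr 1
  rw [intervalIntegral.integral_of_le (by norm_num : (0 : ℝ) ≤ 1)]
  have h2 : Ioi (0 : ℝ) = Ioc 0 1 ∪ Ioi 1 := (Ioc_union_Ioi_eq_Ioi (by norm_num)).symm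
  have h3 : ∀ x ∈ Ioi (1 : ℝ), g x * max 0 (1 - x) = 0 := by
    intro x hx
    have : (1 : ℝ) < x := hx
    rw [max_eq_left (by linarith), mul_zero]
  have h4 : IntegrableOn (fun α : ℝ => g α * max 0 (1 - α)) (Ioi 1) :=
    (integrableOn_congr_fun h3 measurableSet_Ioi).2 integrableOn_zero
  have h5 : IntegrableOn (fun α : ℝ => g α * max 0 (1 - α)) (Ioc 0 1) := by
    have : Continuous fun α : ℝ => g α * max 0 (1 - α) := by fun_prop
    exact (this.integrableOn_Icc).mono_set Ioc_subset_Icc_self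
  rw [h2, setIntegral_union (Set.disjoint_left.2 fun x hx hy => by
    exact absurd (show (1 : ℝ) < x from hy) (not_lt.2 hx.2)) measurableSet_Ioi h5 h4,
    setIntegral_eq_zero_of_forall_eq_zero h3, add_zero]
  refine setIntegral_congr_fun measurableSet_Ioc fun x hx => ?_
  show g x * max 0 (1 - x) = g x * (1 - x)
  rw [max_eq_right (by linarith [hx.2])]

private lemma Iso_tent_one : ∫ α : ℝ, max 0 (1 - |α|) = 1 := by
  have h := Iso_tent_int (fun _ => 1) continuous_const
  have e1 : ∀ α : ℝ, (1 : ℝ) * max 0 (1 - |α|) = max 0 (1 - |α|) := fun α => one_mul _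
  have e2 : ∀ α : ℝ, (1 : ℝ) * (1 - α) = 1 - α := fun α => one_mul _
  simp_rw [e1, e2] at h
  rw [h]
  have : ∫ α in (0 : ℝ)..1, (1 - α) = 1 / 2 := by
    rw [intervalIntegral.integral_sub intervalIntegrable_const intervalIntegral.intervalIntegrable_id, integral_id]
    simp
    norm_num
  rw [this]
  norm_num

private lemma Iso_tent_abs : ∫ α : ℝ, |α| * max 0 (1 - |α|) = 1 / 3 := by
  have h := Iso_tent_int (fun x => x) continuous_id
  rw [h]
  have : ∫ α in (0 : ℝ)..1, α * (1 - α) = 1 / 6 := by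
    have e : ∀ α : ℝ, α * (1 - α) = α - α ^ 2 := fun α => by ring
    simp_rw [e]
    rw [intervalIntegral.integral_sub intervalIntegral.intervalIntegrable_id (by
      exact (continuous_pow 2).intervalIntegrable _ _), integral_id, integral_pow]
    norm_num
  rw [this]
  norm_num

/-- The pairs at distance `< r` mean spacings. -/
private lemma Iso_close (hRH : RiemannHypothesis) : ∃ r : ℝ, 0 < r ∧ r ≤ 1 ∧ ∀ᶠ T : ℝ in atTop,
    (∑ γ ∈ ordinates T, ∑ γ' ∈ ordinates T,
      if |Real.log T * (γ - γ') / (2 * Real.pi)| < r then (mult γ : ℝ) * (mult γ' : ℝ) else 0) ≤ 29 / 20 * N0 T := by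
  classical
  obtain ⟨φ, hφ⟩ : ∃ φ : ℝ → ℝ, φ = fun α : ℝ => max 0 (1 - |α|) := ⟨_, rfl⟩
  have hc : Continuous φ := by rw [hφ]; exact Iso_tent_cont
  have hs : ∀ α, 1 ≤ |α| → φ α = 0 := by rw [hφ]; exact Iso_tent_supp
  have hK : Continuous (fT φ) := fT_cont hc ⟨1, hs⟩
  have hK0 : fT φ 0 = 1 := by rw [fT_zero, hφ]; exact Iso_tent_one
  have hK1 : ∀ x, 0 ≤ fT φ x := by
    intro x
    by_cases hx : x = 0
    · rw [hx, hK0]; norm_num
    · have := tent_hat x hx
      have e : fT φ x = (Real.sin (Real.pi * x) / (Real.pi * x)) ^ 2 := by rw [hφ]; exact this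
      rw [e]
      positivity
  obtain ⟨r, hr, hr2⟩ := Metric.continuous_iff.1 hK 0 (1 / 50) (by norm_num)
  have hlim := base_sym hRH hc hs
  have hl : φ 0 + ∫ x : ℝ, |x| * φ x = 4 / 3 := by
    rw [hφ]
    simp only [Iso_tent_abs]
    norm_num
  rw [hl] at hlim
  refine ⟨min r 1, by positivity, min_le_right _ _, ?_⟩
  have h1 := hlim.eventually (gt_mem_nhds (show (4 : ℝ) / 3 < 1.35 by norm_num))
  have h2 : ∀ᶠ T : ℝ in atTop, 100 ≤ Real.log T := Real.tendsto_log_atTop.eventually_ge_atTop 100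
  filter_upwards [h1, h2, eventually_gt_atTop 1] with T g1 g2 g3
  have hN := N0_pos g3
  rw [PS_FF g3 hc ⟨1, hs⟩] at g1
  unfold PS at g1
  rw [inv_mul_eq_div, div_lt_iff₀ hN] at g1
  have key : (9 / 10 + 1 / 25 : ℝ) * (∑ γ ∈ ordinates T, ∑ γ' ∈ ordinates T,
      if |Real.log T * (γ - γ') / (2 * Real.pi)| < min r 1 then (mult γ : ℝ) * (mult γ' : ℝ) else 0) ≤
      ∑ γ ∈ ordinates T, ∑ γ' ∈ ordinates T, (mult γ : ℝ) * (mult γ' : ℝ) *
        fT φ (Real.log T * (γ - γ') / (2 * Real.pi)) * weight (γ - γ') := by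
    rw [Finset.mul_sum]
    refine Finset.sum_le_sum fun γ _ => ?_
    rw [Finset.mul_sum]
    refine Finset.sum_le_sum fun γ' _ => ?_
    have hw : 0 ≤ weight (γ - γ') := by unfold weight; positivity
    split_ifs with hcl
    · have e1 : 49 / 50 ≤ fT φ (Real.log T * (γ - γ') / (2 * Real.pi)) := by
        have := hr2 (Real.log T * (γ - γ') / (2 * Real.pi)) (by
          rw [Real.dist_eq, sub_zero]
          exact lt_of_lt_of_le hcl (min_le_left _ _))
        rw [hK0, Real.dist_eq, abs_lt] at this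
        linarith [this.1]
      have e2 : 24 / 25 ≤ weight (γ - γ') := by
        have h3 : |γ - γ'| ≤ 1 / 10 := by
          have hl : |Real.log T * (γ - γ') / (2 * Real.pi)| < 1 := lt_of_lt_of_le hcl (min_le_right _ _)
          rw [abs_div, abs_mul, div_lt_one (by positivity), abs_of_pos (by linarith : 0 < Real.log T),
            abs_of_pos (by positivity : 0 < 2 * Real.pi)] at hl
          have hp := Real.pi_lt_d2
          have : 100 * |γ - γ'| ≤ Real.log T * |γ - γ'| := mul_le_mul_of_nonneg_right g2 (abs_nonneg _)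
          linarith
        unfold weight
        rw [le_div_iff₀ (by positivity)]
        have h4 : (γ - γ') ^ 2 ≤ (1 / 10) ^ 2 := by
          rw [← sq_abs]
          exact pow_le_pow_left₀ (abs_nonneg _) h3 2
        nlinarith
      have e3 : (9 / 10 + 1 / 25 : ℝ) ≤ fT φ (Real.log T * (γ - γ') / (2 * Real.pi)) * weight (γ - γ') := by
        nlinarith
      have hm : (0 : ℝ) ≤ (mult γ : ℝ) * (mult γ' : ℝ) := by positivity
      calc _ = (mult γ : ℝ) * (mult γ' : ℝ) * (9 / 10 + 1 / 25 : ℝ) := by ring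
        _ ≤ (mult γ : ℝ) * (mult γ' : ℝ) * (fT φ (Real.log T * (γ - γ') / (2 * Real.pi)) * weight (γ - γ')) :=
            mul_le_mul_of_nonneg_left e3 hm
        _ = _ := by ring
    · rw [mul_zero]
      have := hK1 (Real.log T * (γ - γ') / (2 * Real.pi))
      positivity
  linarith

theorem iso_card (hRH : RiemannHypothesis) : ∃ r : ℝ, 0 < r ∧ r ≤ 1 ∧ ∀ᶠ T : ℝ in atTop,
    1 / 2 * N0 T ≤ ((Iso r T).card : ℝ) := by
  classical
  obtain ⟨r, hr, hr1, h1⟩ := Iso_close hRH
  refine ⟨r, hr, hr1, ?_⟩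
  have h2 := (count_tendsto hRH).eventually (lt_mem_nhds (show (99 / 100 : ℝ) < 1 by norm_num))
  filter_upwards [h1, h2, eventually_gt_atTop 1] with T g1 g2 g3
  have hN := N0_pos g3
  rw [lt_div_iff₀ hN] at g2
  -- each row
  have key : ∀ γ ∈ ordinates T, 2 * (mult γ : ℝ) - (if γ ∈ Iso r T then 1 else 0) ≤
      ∑ γ' ∈ ordinates T,
        if |Real.log T * (γ - γ') / (2 * Real.pi)| < r then (mult γ : ℝ) * (mult γ' : ℝ) else 0 := by
    intro γ hγ
    have hm : (1 : ℝ) ≤ mult γ := by exact_mod_cast Iso_mult hγ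
    have hnn : ∀ γ' ∈ ordinates T, (0 : ℝ) ≤
        if |Real.log T * (γ - γ') / (2 * Real.pi)| < r then (mult γ : ℝ) * (mult γ' : ℝ) else 0 := by
      intro γ' _
      split_ifs
      · positivity
      · exact le_rfl
    have h0 : (if |Real.log T * (γ - γ) / (2 * Real.pi)| < r then (mult γ : ℝ) * (mult γ : ℝ) else 0) =
        (mult γ : ℝ) * (mult γ : ℝ) := by
      rw [if_pos]
      simpa using hr
    by_cases hI : γ ∈ Iso r T
    · rw [if_pos hI]
      have h3 := Finset.single_le_sum hnn hγ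
      rw [h0] at h3
      have h4 : mult γ = 1 := (mem_Iso.1 hI).2.1
      rw [h4] at h3 ⊢
      push_cast at h3 ⊢
      linarith
    · rw [if_neg hI, sub_zero]
      by_cases h4 : mult γ = 1
      · have h5 : ∃ γ' ∈ ordinates T, γ' ≠ γ ∧ |Real.log T * (γ - γ') / (2 * Real.pi)| < r := by
          by_contra hcon
          push Not at hcon
          exact hI (mem_Iso.2 ⟨hγ, h4, hcon⟩)
        obtain ⟨γ', hγ', hne, hlt⟩ := h5
        have hsub : ({γ, γ'} : Finset ℝ) ⊆ ordinates T := by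
          intro x hx
          rw [Finset.mem_insert, Finset.mem_singleton] at hx
          rcases hx with rfl | rfl
          · exact hγ
          · exact hγ'
        have h6 := Finset.sum_le_sum_of_subset_of_nonneg hsub fun i hi _ => hnn i hi
        rw [Finset.sum_pair (Ne.symm hne), h0, if_pos hlt] at h6
        refine le_trans ?_ h6
        have hm' : (1 : ℝ) ≤ mult γ' := by exact_mod_cast Iso_mult hγ'
        nlinarith
      · have h3 := Finset.single_le_sum hnn hγ
        rw [h0] at h3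
        refine le_trans ?_ h3
        have h5 : 2 ≤ mult γ := by
          have := Iso_mult hγ
          omega
        have h6 : (2 : ℝ) ≤ mult γ := by exact_mod_cast h5
        exact mul_le_mul_of_nonneg_right h6 (by positivity)
  have hsum := Finset.sum_le_sum key
  rw [Finset.sum_sub_distrib, ← Finset.mul_sum, Finset.sum_ite_mem, Finset.sum_const, nsmul_eq_mul, mul_one] at hsum
  have hcard : ordinates T ∩ Iso r T = Iso r T := by
    refine Finset.inter_eq_right.2 fun x hx => (mem_Iso.1 hx).1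
  rw [hcard] at hsum
  have hNN : NN T = ∑ γ ∈ ordinates T, (mult γ : ℝ) := rfl
  rw [← hNN] at hsum
  linarith

/-- The points of `[0, T]` with an isolated simple zero within one mean spacing. -/
theorem iso_window (hRH : RiemannHypothesis) : ∃ r : ℝ, 0 < r ∧ ∃ p : ℝ, 0 < p ∧ p ≤ 1 ∧ ∀ᶠ T : ℝ in atTop,
    MeasurableSet {t : ℝ | t ∈ Icc 0 T ∧ ∃ γ ∈ Iso r T, |xg T t γ| ≤ 1} ∧
    ENNReal.ofReal (p * T) ≤ volume {t : ℝ | t ∈ Icc 0 T ∧ ∃ γ ∈ Iso r T, |xg T t γ| ≤ 1} := by
  classical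
  obtain ⟨r, hr, hr1, h1⟩ := iso_card hRH
  refine ⟨r, hr, r / 4, by positivity, by linarith, ?_⟩
  have h2 : ∀ᶠ T : ℝ in atTop, 1 ≤ Real.log T := Real.tendsto_log_atTop.eventually_ge_atTop 1
  filter_upwards [h1, h2, eventually_ge_atTop 100] with T g1 g2 g3
  have hset : {t : ℝ | t ∈ Icc 0 T ∧ ∃ γ ∈ Iso r T, |xg T t γ| ≤ 1} =
      Icc 0 T ∩ ⋃ γ ∈ Iso r T, {t : ℝ | |xg T t γ| ≤ 1} := by
    ext t
    simp only [Set.mem_ofPred_eq, mem_inter_iff, mem_iUnion, exists_prop]
  have hmeas : MeasurableSet {t : ℝ | t ∈ Icc 0 T ∧ ∃ γ ∈ Iso r T, |xg T t γ| ≤ 1} := by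
    rw [hset]
    refine measurableSet_Icc.inter (Finset.measurableSet_biUnion _ fun γ _ => ?_)
    refine (isClosed_le ?_ continuous_const).measurableSet
    unfold xg
    fun_prop
  refine ⟨hmeas, ?_⟩
  have hπ := Real.pi_pos
  have hlog : 0 < Real.log T := by linarith
  obtain ⟨h, hh⟩ : ∃ h : ℝ, h = 2 * Real.pi * r / Real.log T := ⟨_, rfl⟩
  have hh0 : 0 < h := by rw [hh]; positivity
  have hsep : ∀ γ ∈ Iso r T, ∀ γ' ∈ Iso r T, γ < γ' → h ≤ γ' - γ := by
    intro γ hγ γ' hγ' hlt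
    have h3 := (mem_Iso.1 hγ').2.2 γ (mem_Iso.1 hγ).1 hlt.ne
    rw [abs_div, abs_mul, abs_of_pos hlog, abs_of_pos (by positivity : 0 < 2 * Real.pi), abs_of_pos (by linarith : 0 < γ' - γ),
      le_div_iff₀ (by positivity)] at h3
    rw [hh, div_le_iff₀ hlog]
    linarith
  obtain ⟨J, hJ⟩ : ∃ J : Finset ℝ, J = (Iso r T).filter fun γ => h ≤ γ := ⟨_, rfl⟩
  have hJc : ((Iso r T).card : ℝ) ≤ J.card + 1 := by
    have h3 : ((Iso r T).filter fun γ => ¬ h ≤ γ).card ≤ 1 := by
      rw [Finset.card_le_one]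
      intro a ha b hb
      rw [Finset.mem_filter, not_le] at ha hb
      have ha0 := ((ordinateSet_finite T).mem_toFinset.1 (mem_Iso.1 ha.1).1).1
      have hb0 := ((ordinateSet_finite T).mem_toFinset.1 (mem_Iso.1 hb.1).1).1
      rcases lt_trichotomy a b with h4 | h4 | h4
      · have := hsep a ha.1 b hb.1 h4
        linarith
      · exact h4
      · have := hsep b hb.1 a ha.1 h4
        linarith
    have h4 := Finset.card_filter_add_card_filter_not (s := Iso r T) (fun γ => h ≤ γ)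
    rw [← hJ] at h4
    have : (Iso r T).card ≤ J.card + 1 := by omega
    exact_mod_cast this
  have hsubset : (⋃ γ ∈ J, Ioo (γ - h) γ) ⊆
      {t : ℝ | t ∈ Icc 0 T ∧ ∃ γ ∈ Iso r T, |xg T t γ| ≤ 1} := by
    intro t ht
    rw [mem_iUnion₂] at ht
    obtain ⟨γ, hγ, ht⟩ := ht
    rw [hJ, Finset.mem_filter] at hγ
    have hγT := ((ordinateSet_finite T).mem_toFinset.1 (mem_Iso.1 hγ.1).1).2.1
    refine ⟨⟨by linarith [ht.1, hγ.2], by linarith [ht.2]⟩, γ, hγ.1, ?_⟩
    have h5 : 0 < γ - t := by linarith [ht.2]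
    have h6 : γ - t < h := by linarith [ht.1]
    unfold xg
    rw [abs_div, abs_mul, abs_of_pos hlog, abs_of_pos (by positivity : 0 < 2 * Real.pi), abs_of_pos h5, div_le_one (by positivity)]
    have h7 : Real.log T * (γ - t) ≤ Real.log T * h := mul_le_mul_of_nonneg_left h6.le hlog.le
    refine h7.trans ?_
    rw [hh, mul_div_cancel₀ _ hlog.ne']
    nlinarith
  have hdisj : Set.PairwiseDisjoint (↑J : Set ℝ) fun γ => Ioo (γ - h) γ := by
    intro a ha b hb hab
    rw [Finset.mem_coe, hJ, Finset.mem_filter] at ha hb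
    refine Set.disjoint_left.2 fun x hx hy => ?_
    rcases lt_or_gt_of_ne hab with h4 | h4
    · have := hsep a ha.1 b hb.1 h4
      linarith [hx.2, hy.1]
    · have := hsep b hb.1 a ha.1 h4
      linarith [hx.1, hy.2]
  have hvol : volume (⋃ γ ∈ J, Ioo (γ - h) γ) = ENNReal.ofReal (J.card * h) := by
    rw [measure_biUnion_finset hdisj fun γ _ => measurableSet_Ioo]
    simp only [Real.volume_Ioo, sub_sub_cancel]
    rw [Finset.sum_const, nsmul_eq_mul, ENNReal.ofReal_mul (by positivity), ENNReal.ofReal_natCast]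
  refine le_trans ?_ (measure_mono hsubset)
  rw [hvol]
  refine ENNReal.ofReal_le_ofReal ?_
  have h9 : (1 / 2 * N0 T - 1) * h ≤ J.card * h := mul_le_mul_of_nonneg_right (by linarith) hh0.le
  refine le_trans ?_ h9
  have h10 : N0 T * h = T * r := by
    rw [hh, N0]
    field_simp
  have h11 : h ≤ 2 * Real.pi * r := by
    rw [hh]
    exact div_le_self (by positivity) g2
  have h12 : 2 * Real.pi * r ≤ 8 * r := by nlinarith [Real.pi_le_four]
  have h13 : (100 : ℝ) * r ≤ T * r := mul_le_mul_of_nonneg_right g3 hr.le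
  nlinarith

end Pool.Agent.Lib.MP_00e05b_nt.Gap
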