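import Pool.Agent.Lib.MP_00e05b_nt.Gap.B1

/-!
# LEAF E1: the energy of the windows, with explicit constants

`energy_sup`: `B1a.energy_pt` and `PS_bound`; for `log T ≥ π` the function in `PS` is at most `(1 + x²) D/(1 + x²)² = D/(1 + x²)`.
`energy_one`: `B1.energy` with the constant `(∫ ρ²) + 1 ≤ 2e + 1 ≤ 3`, `L = 2a`.
-/

open Complex Set Filter Topology MeasureTheory

namespace Pool.Agent.Lib.MP_00e05b_nt.Gap

open Pool.Agent.Lib.MP_00e05b_nt Pool.Agent.Lib.MP_00e05b_nt.Mont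

theorem energy_sup (hRH : RiemannHypothesis) : ∃ C : ℝ, 1 ≤ C ∧ ∀ (ρ : ℝ → ℝ) (e D : ℝ), 0 < e → ES ρ e → 0 ≤ D →
    (∀ x, |fT (fun α => ρ α ^ 2) x| ≤ D / (1 + x ^ 2) ^ 2) →
    ∀ᶠ T : ℝ in atTop, ∀ β : ℝ, Integrable (fun t : ℝ => ‖WS (fT ρ) T t β‖ ^ 2) ∧
      T⁻¹ * ∫ t : ℝ, ‖WS (fT ρ) T t β‖ ^ 2 ≤ C * D := by
  obtain ⟨C, hC0, hC⟩ := PS_bound hRH
  refine ⟨C + 1, by linarith, fun ρ e D he hρ hD0 hD => ?_⟩
  filter_upwards [hC, eventually_gt_atTop 1, eventually_ge_atTop (Real.exp Real.pi)] with T hCT hT hTp β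
  have hlog : Real.pi ≤ Real.log T := (Real.le_log_iff_exp_le (by linarith)).2 hTp
  have hpi := Real.pi_pos
  obtain ⟨h1, h2⟩ := energy_pt hT hρ β
  refine ⟨h1, ?_⟩
  rw [h2]
  refine (le_abs_self _).trans ((hCT D _ fun x => ?_).trans (by nlinarith))
  have h3 : (0 : ℝ) < 1 + x ^ 2 := by positivity
  have h4 : (Real.pi / Real.log T) ^ 2 ≤ 1 := by
    refine pow_le_one₀ (div_nonneg hpi.le (by linarith)) ?_
    rw [div_le_one (by linarith)]
    exact hlog
  have h5 : |1 + (Real.pi / Real.log T) ^ 2 * x ^ 2| ≤ 1 + x ^ 2 := by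
    rw [abs_of_nonneg (by positivity)]
    nlinarith [sq_nonneg x]
  rw [abs_mul, abs_mul]
  calc |1 + (Real.pi / Real.log T) ^ 2 * x ^ 2| * (|fT (fun α => ρ α ^ 2) x| * |Real.cos (2 * Real.pi * β * x)|)
      ≤ (1 + x ^ 2) * (D / (1 + x ^ 2) ^ 2 * 1) := by
        refine mul_le_mul h5 ?_ (by positivity) h3.le
        exact mul_le_mul (hD x) (Real.abs_cos_le_one _) (abs_nonneg _) (by positivity)
    _ = D / (1 + x ^ 2) := by
        field_simp

private lemma E1_compact {φ : ℝ → ℝ} (hs : ∃ A : ℝ, ∀ α, A ≤ |α| → φ α = 0) : HasCompactSupport φ := by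
  obtain ⟨A, hA⟩ := hs
  refine HasCompactSupport.intro (K := Set.Icc (-A) A) isCompact_Icc fun x hx => ?_
  apply hA
  by_contra hcon
  exact hx (abs_le.1 (not_le.1 hcon).le)

/-- The cosine transform of a translate of an even function. -/
private lemma E1_shift {g : ℝ → ℝ} (hc : Continuous g) (he : ∀ u, g (-u) = g u)
    (hs : ∃ A : ℝ, ∀ α, A ≤ |α| → g α = 0) (β x : ℝ) :
    fT (fun α => g (α - β)) x = fT g x * Real.cos (2 * Real.pi * β * x) := by
  have hI : ∀ F : ℝ → ℝ, Continuous F → Integrable (fun u => g u * F u) := fun F hF =>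
    (hc.mul hF).integrable_of_hasCompactSupport (E1_compact hs).mul_right
  have hS : ∫ u : ℝ, g u * Real.sin (2 * Real.pi * x * u) = 0 := by
    have h1 := integral_neg_eq_self (fun u => g u * Real.sin (2 * Real.pi * x * u)) (volume : Measure ℝ)
    have h2 : ∫ u : ℝ, g (-u) * Real.sin (2 * Real.pi * x * -u) =
        -∫ u : ℝ, g u * Real.sin (2 * Real.pi * x * u) := by
      rw [← integral_neg]
      refine integral_congr_ae (Eventually.of_forall fun u => ?_)
      show g (-u) * Real.sin (2 * Real.pi * x * -u) = -(g u * Real.sin (2 * Real.pi * x * u))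
      rw [he u, show 2 * Real.pi * x * -u = -(2 * Real.pi * x * u) by ring, Real.sin_neg]
      ring
    have h3 : ∫ u : ℝ, g (-u) * Real.sin (2 * Real.pi * x * -u) = ∫ u : ℝ, g u * Real.sin (2 * Real.pi * x * u) := h1
    linarith
  unfold fT
  have h1 : ∫ α : ℝ, g (α - β) * Real.cos (2 * Real.pi * x * α) =
      ∫ u : ℝ, g u * Real.cos (2 * Real.pi * x * (u + β)) := by
    rw [← integral_sub_right_eq_self (μ := volume) (fun u => g u * Real.cos (2 * Real.pi * x * (u + β))) β]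
    refine integral_congr_ae (Eventually.of_forall fun α => ?_)
    show g (α - β) * Real.cos (2 * Real.pi * x * α) = g (α - β) * Real.cos (2 * Real.pi * x * (α - β + β))
    rw [sub_add_cancel]
  rw [h1]
  have h2 : ∀ u : ℝ, g u * Real.cos (2 * Real.pi * x * (u + β)) =
      (g u * Real.cos (2 * Real.pi * x * u)) * Real.cos (2 * Real.pi * β * x) -
        (g u * Real.sin (2 * Real.pi * x * u)) * Real.sin (2 * Real.pi * β * x) := by
    intro u
    rw [show 2 * Real.pi * x * (u + β) = 2 * Real.pi * x * u + 2 * Real.pi * β * x by ring, Real.cos_add]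
    ring
  simp_rw [h2]
  rw [integral_sub, integral_mul_const, integral_mul_const, hS, zero_mul, sub_zero]
  · exact (hI _ (by fun_prop)).mul_const _
  · exact (hI _ (by fun_prop)).mul_const _

/-- Linearity of the pair sum. -/
private lemma E1_lin (T a : ℝ) (f : ℝ → ℝ) :
    PS T (fun x => (1 + a * x ^ 2) * f x) = PS T f + a * PS T (fun x => x ^ 2 * f x) := by
  unfold PS
  simp only [Finset.mul_sum]
  rw [← Finset.sum_add_distrib]
  refine Finset.sum_congr rfl fun γ _ => ?_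
  rw [← Finset.sum_add_distrib]
  refine Finset.sum_congr rfl fun γ' _ => ?_
  ring

/-- The mass of a window. -/
private lemma E1_mass {T : ℝ} (hT : 1 < T) {g : ℝ → ℝ} {e : ℝ} (hc : Continuous g) (h0 : ∀ u, 0 ≤ g u)
    (hs : ∀ α, e ≤ |α| → g α = 0) {L : ℝ} (hL : 0 < L) (he : 0 < e) (c : ℝ) :
    ∫ ξ in Ioc (-(L / 2)) (L / 2), (∫ α, FF α T * g (α - (c + ξ))) ≤
      (∫ α, g α) * ∫ α in (c - L / 2 - e)..(c + L / 2 + e), FF α T := by
  have hF := FF_continuous (show (0 : ℝ) < T by linarith)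
  have hF0 := FF_nonneg hT
  have hgi : Integrable g := hc.integrable_of_hasCompactSupport (E1_compact ⟨e, hs⟩)
  have hle : c - L / 2 - e ≤ c + L / 2 + e := by linarith
  have h1 : ∀ ξ ∈ Ioc (-(L / 2)) (L / 2), (∫ α, FF α T * g (α - (c + ξ))) =
      ∫ α in Ioc (c - L / 2 - e) (c + L / 2 + e), FF α T * g (α - (c + ξ)) := by
    intro ξ hξ
    symm
    refine setIntegral_eq_integral_of_forall_compl_eq_zero fun α hα => ?_
    rw [hs, mul_zero]
    by_contra hcon
    rw [not_le, abs_lt] at hcon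
    exact hα ⟨by linarith [hξ.1, hcon.1], by linarith [hξ.2, hcon.2]⟩
  rw [setIntegral_congr_fun measurableSet_Ioc h1]
  have hint : Integrable (Function.uncurry fun ξ α => FF α T * g (α - (c + ξ)))
      ((volume.restrict (Ioc (-(L / 2)) (L / 2))).prod (volume.restrict (Ioc (c - L / 2 - e) (c + L / 2 + e)))) := by
    rw [Measure.prod_restrict]
    have hcont : Continuous (Function.uncurry fun ξ α => FF α T * g (α - (c + ξ))) := by
      have h2 : Continuous fun p : ℝ × ℝ => FF p.2 T := hF.comp continuous_snd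
      have h3 : Continuous fun p : ℝ × ℝ => g (p.2 - (c + p.1)) := hc.comp (by fun_prop)
      exact h2.mul h3
    have := (hcont.continuousOn (s := Icc (-(L / 2)) (L / 2) ×ˢ Icc (c - L / 2 - e) (c + L / 2 + e))).integrableOn_compact
      (μ := volume.prod volume) (isCompact_Icc.prod isCompact_Icc)
    exact this.mono_set (Set.prod_mono Ioc_subset_Icc_self Ioc_subset_Icc_self)
  rw [integral_integral_swap hint, intervalIntegral.integral_of_le hle, ← integral_const_mul]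
  have hFi : Integrable (fun α => FF α T) (volume.restrict (Ioc (c - L / 2 - e) (c + L / 2 + e))) :=
    (hF.continuousOn.integrableOn_compact isCompact_Icc).mono_set Ioc_subset_Icc_self
  refine integral_mono hint.integral_prod_right (hFi.const_mul _) fun α => ?_
  show (∫ ξ in Ioc (-(L / 2)) (L / 2), FF α T * g (α - (c + ξ))) ≤ (∫ α, g α) * FF α T
  rw [integral_const_mul, mul_comm]
  refine mul_le_mul_of_nonneg_right ?_ (hF0 α)
  have h4 : ∫ ξ, g (α - (c + ξ)) = ∫ α, g α := by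
    rw [← integral_sub_left_eq_self g volume (α - c)]
    refine integral_congr_ae (Eventually.of_forall fun ξ => ?_)
    show g (α - (c + ξ)) = g (α - c - ξ)
    congr 1
    ring
  rw [← h4]
  refine setIntegral_le_integral ?_ (Eventually.of_forall fun ξ => h0 _)
  have h5 : Integrable fun ξ => g (α - c - ξ) := hgi.comp_sub_left (α - c)
  refine h5.congr (Eventually.of_forall fun ξ => ?_)
  show g (α - c - ξ) = g (α - (c + ξ))
  congr 1
  ring

/-- The pointwise energy. -/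
private lemma E1_pt (hRH : RiemannHypothesis) {ρ : ℝ → ℝ} {e : ℝ} (hρ : ES ρ e) :
    ∃ E : ℝ, ∀ᶠ T : ℝ in atTop, 1 < T ∧ ∀ β : ℝ, T⁻¹ * ∫ t, ‖WS (fT ρ) T t β‖ ^ 2 ≤
      (∫ α, FF α T * (fun α => ρ α ^ 2) (α - β)) + (Real.pi / Real.log T) ^ 2 * E := by
  have hρc : Continuous ρ := hρ.smooth.continuous
  have hgc : Continuous fun α => ρ α ^ 2 := hρc.pow 2
  have hge : ∀ u, (fun α => ρ α ^ 2) (-u) = (fun α => ρ α ^ 2) u := by
    intro u
    show ρ (-u) ^ 2 = ρ u ^ 2
    rw [hρ.even]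
  have hgs : ∀ α, e ≤ |α| → (fun α => ρ α ^ 2) α = 0 := by
    intro α hα
    show ρ α ^ 2 = 0
    rw [hρ.supp α hα]
    norm_num
  obtain ⟨g, hg⟩ : ∃ g : ℝ → ℝ, g = fun α => ρ α ^ 2 := ⟨_, rfl⟩
  have hgsm : ContDiff ℝ (⊤ : ℕ∞) fun α => ρ α ^ 2 := hρ.smooth.pow 2
  rw [← hg] at hgc hge hgs hgsm ⊢
  obtain ⟨-, hgf, D, hD0, hD⟩ := fT_smooth hgsm hge ⟨e, hgs⟩
  obtain ⟨C, hC0, hC⟩ := PS_bound hRH
  refine ⟨C * D, ?_⟩
  filter_upwards [hC, eventually_gt_atTop 1] with T hCT hT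
  refine ⟨hT, fun β => ?_⟩
  have hpt : T⁻¹ * ∫ t, ‖WS (fT ρ) T t β‖ ^ 2 =
      PS T (fun x => (1 + (Real.pi / Real.log T) ^ 2 * x ^ 2) * (fT g x * Real.cos (2 * Real.pi * β * x))) := by
    rw [hg]
    exact (energy_pt hT hρ β).2
  rw [hpt, E1_lin]
  have h1 : PS T (fun x => fT g x * Real.cos (2 * Real.pi * β * x)) = ∫ α, FF α T * g (α - β) := by
    rw [PS_FF hT (φ := fun α => g (α - β)) (hgc.comp (by fun_prop))]
    · congr 1
      funext x
      exact (E1_shift hgc hge ⟨e, hgs⟩ β x).symm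
    · refine ⟨e + |β|, fun α hα => hgs _ ?_⟩
      have := abs_sub_abs_le_abs_sub α β
      linarith
  rw [h1]
  refine add_le_add le_rfl (mul_le_mul_of_nonneg_left ?_ (sq_nonneg _))
  refine (le_abs_self _).trans (hCT D _ fun x => ?_)
  have h2 : (0 : ℝ) < 1 + x ^ 2 := by positivity
  rw [abs_mul, abs_mul, abs_of_nonneg (sq_nonneg x)]
  calc x ^ 2 * (|fT g x| * |Real.cos (2 * Real.pi * β * x)|)
      ≤ x ^ 2 * (D / (1 + x ^ 2) ^ 2 * 1) := by
        refine mul_le_mul_of_nonneg_left ?_ (sq_nonneg x)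
        exact mul_le_mul (hD x) (Real.abs_cos_le_one _) (abs_nonneg _) (by positivity)
    _ ≤ (1 + x ^ 2) * (D / (1 + x ^ 2) ^ 2 * 1) := by
        refine mul_le_mul_of_nonneg_right (by linarith) (by positivity)
    _ = D / (1 + x ^ 2) := by
        field_simp

private lemma E1_lim (E L : ℝ) : Tendsto (fun T : ℝ => L * ((Real.pi / Real.log T) ^ 2 * E)) atTop (𝓝 0) := by
  have h1 : Tendsto (fun T : ℝ => Real.pi / Real.log T) atTop (𝓝 0) := Real.tendsto_log_atTop.const_div_atTop _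
  have h2 := ((h1.pow 2).mul_const E).const_mul L
  simpa using h2

private lemma E1_energy (hRH : RiemannHypothesis) {ρ : ℝ → ℝ} {e : ℝ} (he : 0 < e) (hρ : ES ρ e) {L : ℝ} (hL : 0 < L) :
    ∀ ε > 0, ∀ᶠ T : ℝ in atTop, ∀ c : ℝ,
      Integrable (fun t : ℝ => ∫ ξ in (-(L / 2))..(L / 2), ‖WS (fT ρ) T t (c + ξ)‖ ^ 2) ∧
      T⁻¹ * ∫ t : ℝ, (∫ ξ in (-(L / 2))..(L / 2), ‖WS (fT ρ) T t (c + ξ)‖ ^ 2) ≤
        ((∫ α, ρ α ^ 2) + 1) * (∫ α in (c - L / 2 - e)..(c + L / 2 + e), FF α T) + ε := by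
  have hρc : Continuous ρ := hρ.smooth.continuous
  have hfc : Continuous (fT ρ) := (fT_smooth hρ.smooth hρ.even ⟨e, hρ.supp⟩).2.1.continuous
  have hgc : Continuous fun α => ρ α ^ 2 := hρc.pow 2
  have hge : ∀ u, (fun α => ρ α ^ 2) (-u) = (fun α => ρ α ^ 2) u := by
    intro u
    show ρ (-u) ^ 2 = ρ u ^ 2
    rw [hρ.even]
  have hgs : ∀ α, e ≤ |α| → (fun α => ρ α ^ 2) α = 0 := by
    intro α hα
    show ρ α ^ 2 = 0
    rw [hρ.supp α hα]
    norm_num
  have hg0 : ∀ u, 0 ≤ (fun α => ρ α ^ 2) u := fun u => sq_nonneg _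
  obtain ⟨g, hg⟩ : ∃ g : ℝ → ℝ, g = fun α => ρ α ^ 2 := ⟨_, rfl⟩
  have hgsm : ContDiff ℝ (⊤ : ℕ∞) fun α => ρ α ^ 2 := hρ.smooth.pow 2
  have hgI : ∫ α, ρ α ^ 2 = ∫ α, g α := by rw [hg]
  rw [hgI]
  rw [← hg] at hgc hge hgs hg0 hgsm
  obtain ⟨-, hgf, D, hD0, hD⟩ := fT_smooth hgsm hge ⟨e, hgs⟩
  have hgfc : Continuous (fT g) := hgf.continuous
  obtain ⟨E, hE⟩ := E1_pt hRH hρ
  rw [← hg] at hE
  have hI0 : 0 ≤ ∫ α, g α := integral_nonneg hg0
  intro ε hε
  filter_upwards [hE, (E1_lim E L).eventually (gt_mem_nhds hε)] with T hET hsmall c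
  obtain ⟨hT, hval⟩ := hET
  have hT0 : 0 < T := by linarith
  have hLL : -(L / 2) ≤ L / 2 := by linarith
  -- the pointwise energy
  have hpt : ∀ β : ℝ, Integrable (fun t => ‖WS (fT ρ) T t β‖ ^ 2) ∧ T⁻¹ * ∫ t, ‖WS (fT ρ) T t β‖ ^ 2 =
      PS T (fun x => (1 + (Real.pi / Real.log T) ^ 2 * x ^ 2) * (fT g x * Real.cos (2 * Real.pi * β * x))) := by
    intro β
    rw [hg]
    exact energy_pt hT hρ β
  -- integrability on the product
  have hcont : Continuous (Function.uncurry fun t ξ => ‖WS (fT ρ) T t (c + ξ)‖ ^ 2) := by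
    have h1 : Continuous fun p : ℝ × ℝ => WS (fT ρ) T p.1 (c + p.2) := by
      unfold WS xg
      refine continuous_finsetSum _ fun γ _ => ?_
      have h2 : Continuous fun p : ℝ × ℝ => fT ρ (Real.log T * (γ - p.1) / (2 * Real.pi)) := hfc.comp (by fun_prop)
      have h3 : Continuous fun p : ℝ × ℝ => ((fT ρ (Real.log T * (γ - p.1) / (2 * Real.pi)) : ℝ) : ℂ) :=
        Complex.continuous_ofReal.comp h2
      have h4 : Continuous fun p : ℝ × ℝ =>
          cexp (-((2 * Real.pi * (c + p.2) * (Real.log T * (γ - p.1) / (2 * Real.pi)) : ℝ) : ℂ) * I) := by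
        refine Complex.continuous_exp.comp ?_
        refine Continuous.mul (Continuous.neg (Complex.continuous_ofReal.comp ?_)) continuous_const
        fun_prop
      exact continuous_const.mul (h3.mul h4)
    exact h1.norm.pow 2
  have hPSc : Continuous fun ξ : ℝ => PS T (fun x => (1 + (Real.pi / Real.log T) ^ 2 * x ^ 2) *
      (fT g x * Real.cos (2 * Real.pi * (c + ξ) * x))) := by
    unfold PS
    refine continuous_const.mul ?_
    refine continuous_finsetSum _ fun γ _ => continuous_finsetSum _ fun γ' _ => ?_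
    fun_prop
  have hinner : ∀ ξ : ℝ, ∫ t, ‖WS (fT ρ) T t (c + ξ)‖ ^ 2 =
      T * PS T (fun x => (1 + (Real.pi / Real.log T) ^ 2 * x ^ 2) *
        (fT g x * Real.cos (2 * Real.pi * (c + ξ) * x))) := by
    intro ξ
    rw [← (hpt (c + ξ)).2, ← mul_assoc, mul_inv_cancel₀ hT0.ne', one_mul]
  have hint : Integrable (Function.uncurry fun t ξ => ‖WS (fT ρ) T t (c + ξ)‖ ^ 2)
      (volume.prod (volume.restrict (Ioc (-(L / 2)) (L / 2)))) := by
    rw [integrable_prod_iff' hcont.aestronglyMeasurable]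
    refine ⟨Eventually.of_forall fun ξ => (hpt (c + ξ)).1, ?_⟩
    have h1 : (fun ξ : ℝ => ∫ t, ‖Function.uncurry (fun t ξ => ‖WS (fT ρ) T t (c + ξ)‖ ^ 2) (t, ξ)‖) =
        fun ξ => T * PS T (fun x => (1 + (Real.pi / Real.log T) ^ 2 * x ^ 2) *
          (fT g x * Real.cos (2 * Real.pi * (c + ξ) * x))) := by
      funext ξ
      rw [← hinner ξ]
      refine integral_congr_ae (Eventually.of_forall fun t => ?_)
      show ‖‖WS (fT ρ) T t (c + ξ)‖ ^ 2‖ = ‖WS (fT ρ) T t (c + ξ)‖ ^ 2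
      rw [Real.norm_eq_abs, abs_of_nonneg (sq_nonneg _)]
    rw [h1]
    exact ((continuous_const.mul hPSc).continuousOn.integrableOn_compact isCompact_Icc).mono_set Ioc_subset_Icc_self
  have hil : ∀ t : ℝ, ∫ ξ in (-(L / 2))..(L / 2), ‖WS (fT ρ) T t (c + ξ)‖ ^ 2 =
      ∫ ξ in Ioc (-(L / 2)) (L / 2), ‖WS (fT ρ) T t (c + ξ)‖ ^ 2 := fun t => intervalIntegral.integral_of_le hLL
  simp_rw [hil]
  refine ⟨hint.integral_prod_left, ?_⟩
  rw [integral_integral_swap hint, ← integral_const_mul]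
  have hmass := E1_mass hT hgc hg0 hgs hL he c
  have hgi : Integrable g := hgc.integrable_of_hasCompactSupport (E1_compact ⟨e, hgs⟩)
  have hcmass : Continuous fun ξ : ℝ => ∫ α, FF α T * g (α - (c + ξ)) := by
    have h1 : (fun ξ : ℝ => ∫ α, FF α T * g (α - (c + ξ))) =
        fun ξ => PS T (fun x => fT g x * Real.cos (2 * Real.pi * (c + ξ) * x)) := by
      funext ξ
      rw [PS_FF hT (φ := fun α => g (α - (c + ξ))) (hgc.comp (by fun_prop))]
      · congr 1
        funext x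
        exact E1_shift hgc hge ⟨e, hgs⟩ (c + ξ) x
      · refine ⟨e + |c + ξ|, fun α hα => hgs _ ?_⟩
        have := abs_sub_abs_le_abs_sub α (c + ξ)
        linarith
    rw [h1]
    unfold PS
    refine continuous_const.mul ?_
    refine continuous_finsetSum _ fun γ _ => continuous_finsetSum _ fun γ' _ => ?_
    fun_prop
  have hFint : 0 ≤ ∫ α in (c - L / 2 - e)..(c + L / 2 + e), FF α T :=
    intervalIntegral.integral_nonneg (by linarith) fun α _ => FF_nonneg hT α
  calc ∫ ξ in Ioc (-(L / 2)) (L / 2), T⁻¹ * ∫ t, ‖WS (fT ρ) T t (c + ξ)‖ ^ 2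
      ≤ ∫ ξ in Ioc (-(L / 2)) (L / 2), ((∫ α, FF α T * g (α - (c + ξ))) + (Real.pi / Real.log T) ^ 2 * E) := by
        refine integral_mono ?_ ?_ fun ξ => hval (c + ξ)
        · have h1 : (fun ξ : ℝ => T⁻¹ * ∫ t, ‖WS (fT ρ) T t (c + ξ)‖ ^ 2) =
              fun ξ => PS T (fun x => (1 + (Real.pi / Real.log T) ^ 2 * x ^ 2) *
                (fT g x * Real.cos (2 * Real.pi * (c + ξ) * x))) := by
            funext ξ
            exact (hpt (c + ξ)).2
          rw [h1]
          exact (hPSc.continuousOn.integrableOn_compact isCompact_Icc).mono_set Ioc_subset_Icc_self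
        · exact ((hcmass.add continuous_const).continuousOn.integrableOn_compact isCompact_Icc).mono_set
            Ioc_subset_Icc_self
    _ = (∫ ξ in Ioc (-(L / 2)) (L / 2), ∫ α, FF α T * g (α - (c + ξ))) +
          L * ((Real.pi / Real.log T) ^ 2 * E) := by
        rw [integral_add]
        · congr 1
          rw [setIntegral_const, Measure.real, Real.volume_Ioc, ENNReal.toReal_ofReal (by linarith), smul_eq_mul]
          congr 1
          ring
        · exact (hcmass.continuousOn.integrableOn_compact isCompact_Icc).mono_set Ioc_subset_Icc_self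
        · exact (continuous_const.continuousOn.integrableOn_compact isCompact_Icc).mono_set Ioc_subset_Icc_self
    _ ≤ ((∫ α, g α) + 1) * (∫ α in (c - L / 2 - e)..(c + L / 2 + e), FF α T) + ε := by
        have h1 : ((∫ α, g α) + 1) * (∫ α in (c - L / 2 - e)..(c + L / 2 + e), FF α T) =
          (∫ α, g α) * (∫ α in (c - L / 2 - e)..(c + L / 2 + e), FF α T) +
            ∫ α in (c - L / 2 - e)..(c + L / 2 + e), FF α T := by ring
        rw [h1]
        linarith

theorem energy_one (hRH : RiemannHypothesis) {ρ : ℝ → ℝ} {e : ℝ} (he : 0 < e) (he1 : e ≤ 1) (hρ : ES ρ e)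
    (h1 : ∀ α, |ρ α| ≤ 1) {a : ℝ} (ha : 0 < a) :
    ∀ ε > 0, ∀ᶠ T : ℝ in atTop, ∀ c : ℝ,
      Integrable (fun t : ℝ => ∫ ξ in (-a)..a, ‖WS (fT ρ) T t (c + ξ)‖ ^ 2) ∧
      T⁻¹ * ∫ t : ℝ, (∫ ξ in (-a)..a, ‖WS (fT ρ) T t (c + ξ)‖ ^ 2) ≤
        3 * (∫ α in (c - a - e)..(c + a + e), FF α T) + ε := by
  intro ε hε
  have h2 := E1_energy hRH he hρ (L := 2 * a) (by linarith) ε hε
  have hI : ∫ α, ρ α ^ 2 ≤ 2 := by
    have hs : ∫ α, ρ α ^ 2 = ∫ α in Ioc (-e) e, ρ α ^ 2 := by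
      symm
      refine setIntegral_eq_integral_of_forall_compl_eq_zero fun α hα => ?_
      rw [hρ.supp α]
      · norm_num
      · by_contra hcon
        rw [not_le, abs_lt] at hcon
        exact hα ⟨hcon.1, hcon.2.le⟩
    rw [hs, ← intervalIntegral.integral_of_le (by linarith)]
    have h3 : ‖∫ α in (-e)..e, ρ α ^ 2‖ ≤ 1 * |e - -e| := by
      refine intervalIntegral.norm_integral_le_of_norm_le_const fun x _ => ?_
      rw [Real.norm_eq_abs, abs_pow]
      exact pow_le_one₀ (abs_nonneg _) (h1 x)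
    rw [one_mul, abs_of_nonneg (by linarith)] at h3
    exact (Real.le_norm_self _).trans (h3.trans (by linarith))
  filter_upwards [h2, eventually_gt_atTop 1] with T hT hT1 c
  have h4 := hT c
  rw [show 2 * a / 2 = a by ring] at h4
  refine ⟨h4.1, h4.2.trans ?_⟩
  have hF : 0 ≤ ∫ α in (c - a - e)..(c + a + e), FF α T :=
    intervalIntegral.integral_nonneg (by linarith) fun α _ => FF_nonneg hT1 α
  nlinarith

end Pool.Agent.Lib.MP_00e05b_nt.Gap
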