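import Pool.Agent.Lib.MP_00e05b_nt.Gap.Defs
import Pool.Agent.Lib.MP_00e05b_nt.Mont.NT

/-!
# First moments
-/

open Complex Set Filter Topology MeasureTheory

namespace Pool.Agent.Lib.MP_00e05b_nt.Gap

open Pool.Agent.Lib.MP_00e05b_nt Pool.Agent.Lib.MP_00e05b_nt.Mont

lemma FM_int {T : ℝ} (hT : 1 < T) {g : ℝ → ℝ} (hg : Integrable g) (γ : ℝ) :
    Integrable (fun t => g (xg T t γ)) ∧ ∫ t, g (xg T t γ) = 2 * Real.pi / Real.log T * ∫ x, g x := by
  have hL : 0 < Real.log T := Real.log_pos hT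
  have ha : Real.log T / (2 * Real.pi) ≠ 0 := by positivity
  have h1 : ∀ t, g (xg T t γ) = (fun u => g (Real.log T / (2 * Real.pi) * u)) (γ - t) := by
    intro t; simp only [xg]; congr 1; ring
  have h2 : Integrable (fun u => g (Real.log T / (2 * Real.pi) * u)) := hg.comp_mul_left' ha
  constructor
  · simp_rw [h1]
    exact h2.comp_sub_left γ
  · simp_rw [h1]
    rw [integral_sub_left_eq_self (fun u => g (Real.log T / (2 * Real.pi) * u)) volume γ, Measure.integral_comp_mul_left,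
      smul_eq_mul, abs_of_pos (by positivity), inv_div]

theorem first_moment {T : ℝ} (hT : 1 < T) {g : ℝ → ℝ} (hg : Integrable g) :
    Integrable (fun t => WR g T t) ∧ T⁻¹ * ∫ t, WR g T t = NN T / N0 T * ∫ x, g x := by
  have hL : 0 < Real.log T := Real.log_pos hT
  have hT0 : 0 < T := by linarith
  have hi : ∀ γ ∈ ordinates T, Integrable (fun t => (mult γ : ℝ) * g (xg T t γ)) := fun γ _ =>
    (FM_int hT hg γ).1.const_mul _
  constructor
  · unfold WR
    exact integrable_finsetSum _ hi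
  · unfold WR
    rw [integral_finsetSum _ hi]
    have h1 : ∀ γ ∈ ordinates T, ∫ t, (mult γ : ℝ) * g (xg T t γ) = (mult γ : ℝ) * (2 * Real.pi / Real.log T * ∫ x, g x) := by
      intro γ _
      rw [integral_const_mul, (FM_int hT hg γ).2]
    rw [Finset.sum_congr rfl h1, ← Finset.sum_mul]
    unfold NN N0
    field_simp

lemma FM_NN {S T : ℝ} (h : S ≤ T) : NN S = ∑ γ ∈ (ordinates T).filter (fun γ => γ ≤ S), (mult γ : ℝ) := by
  unfold NN
  congr 1
  ext γ
  rw [Finset.mem_filter, mem_ordinates, mem_ordinates]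
  constructor
  · rintro ⟨h1, h2, h3⟩; exact ⟨⟨h1, h2.trans h, h3⟩, h2⟩
  · rintro ⟨⟨h1, h2, h3⟩, h4⟩; exact ⟨h1, h4, h3⟩

/-- The number of zeros with `S₁ < γ ≤ S₂`. -/
lemma FM_NN_sub {S₁ S₂ T : ℝ} (h12 : S₁ ≤ S₂) (h : S₂ ≤ T) :
    NN S₂ - NN S₁ = ∑ γ ∈ (ordinates T).filter (fun γ => S₁ < γ ∧ γ ≤ S₂), (mult γ : ℝ) := by
  rw [FM_NN h, FM_NN (h12.trans h)]
  rw [Finset.sum_filter, Finset.sum_filter, Finset.sum_filter, ← Finset.sum_sub_distrib]
  refine Finset.sum_congr rfl fun γ _ => ?_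
  by_cases h1 : γ ≤ S₁
  · have h2 : γ ≤ S₂ := h1.trans h12
    have h3 : ¬ (S₁ < γ ∧ γ ≤ S₂) := fun h => absurd h.1 (not_lt.mpr h1)
    rw [if_pos h2, if_pos h1, if_neg h3, sub_self]
  · by_cases h2 : γ ≤ S₂
    · rw [if_pos h2, if_neg h1, if_pos ⟨not_le.mp h1, h2⟩, sub_zero]
    · rw [if_neg h2, if_neg h1, if_neg (fun h => h2 h.2), sub_self]

lemma FM_ratio (hRH : RiemannHypothesis) {c : ℝ} (hc : 0 < c) :
    Tendsto (fun T => NN (c * T) / N0 T) atTop (𝓝 c) := by
  have h1 : Tendsto (fun T => NN (c * T) / N0 (c * T)) atTop (𝓝 1) :=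
    (count_tendsto hRH).comp (tendsto_id.const_mul_atTop hc)
  have h2 : Tendsto (fun T => N0 (c * T) / N0 T) atTop (𝓝 c) := by
    have h3 : Tendsto (fun T => c * (Real.log c / Real.log T + 1)) atTop (𝓝 (c * (0 + 1))) :=
      (((tendsto_const_nhds.div_atTop Real.tendsto_log_atTop)).add_const 1).const_mul c
    rw [zero_add, mul_one] at h3
    refine h3.congr' ?_
    filter_upwards [eventually_gt_atTop 1] with T hT
    have hT0 : (0 : ℝ) < T := by linarith
    have hL : 0 < Real.log T := Real.log_pos hT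
    unfold N0
    rw [Real.log_mul hc.ne' hT0.ne']
    field_simp
  have h3 := h1.mul h2
  rw [one_mul] at h3
  refine h3.congr' ?_
  filter_upwards [eventually_gt_atTop 1, (tendsto_id.const_mul_atTop hc).eventually (eventually_gt_atTop 1)] with T hT hcT
  have h4 : 0 < N0 (c * T) := N0_pos hcT
  field_simp

theorem first_lower (hRH : RiemannHypothesis) {g : ℝ → ℝ} (hg : Integrable g) (h0 : ∀ x, 0 ≤ g x) {ε : ℝ} (hε : 0 < ε) :
    ∀ᶠ T : ℝ in atTop, (∫ x, g x) - ε ≤ T⁻¹ * ∫ t in (0 : ℝ)..T, WR g T t := by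
  -- truncation
  obtain ⟨Ig, hIg⟩ : ∃ Ig : ℝ, Ig = ∫ x, g x := ⟨_, rfl⟩
  have hIg0 : 0 ≤ Ig := by rw [hIg]; exact integral_nonneg h0
  have hB : ∃ B : ℝ, 0 < B ∧ Ig - ε / 2 ≤ ∫ x in (-B)..B, g x := by
    have h1 : Tendsto (fun B : ℝ => ∫ x in (-B)..B, g x) atTop (𝓝 (∫ x, g x)) :=
      intervalIntegral_tendsto_integral hg tendsto_neg_atTop_atBot tendsto_id
    rw [← hIg] at h1
    obtain ⟨B, hB1, hB2⟩ := ((h1.eventually (eventually_ge_nhds (show Ig - ε / 2 < Ig by linarith))).and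
      (eventually_gt_atTop (0 : ℝ))).exists
    exact ⟨B, hB2, hB1⟩
  obtain ⟨B, hB0, hB⟩ := hB
  obtain ⟨IB, hIB⟩ : ∃ IB : ℝ, IB = ∫ x in (-B)..B, g x := ⟨_, rfl⟩
  rw [← hIB] at hB
  have hIBle : IB ≤ Ig := by
    rw [hIB, hIg, intervalIntegral.integral_of_le (by linarith)]
    exact setIntegral_le_integral hg (Eventually.of_forall h0)
  have hIB0 : 0 ≤ IB := by
    rw [hIB]; exact intervalIntegral.integral_nonneg (by linarith) fun x _ => h0 x
  -- margin
  obtain ⟨η, hη0, hη1, hη⟩ : ∃ η : ℝ, 0 < η ∧ η < 1 / 2 ∧ 3 * η * IB ≤ ε / 2 := by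
    refine ⟨min (1 / 4) (ε / (6 * (IB + 1))), lt_min (by norm_num) (by positivity),
      lt_of_le_of_lt (min_le_left _ _) (by norm_num), ?_⟩
    have h1 := min_le_right (1 / 4 : ℝ) (ε / (6 * (IB + 1)))
    calc 3 * min (1 / 4) (ε / (6 * (IB + 1))) * IB ≤ 3 * (ε / (6 * (IB + 1))) * (IB + 1) := by
          gcongr; linarith
      _ = ε / 2 := by field_simp; ring
  have hr := (FM_ratio hRH (c := 1 - η) (by linarith)).sub (FM_ratio hRH hη0)
  have hr' := hr.eventually (eventually_ge_nhds (show 1 - 3 * η < 1 - η - η by linarith))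
  have hTB : ∀ᶠ T : ℝ in atTop, B ≤ Real.log T / (2 * Real.pi) * (η * T) := by
    have h1 : Tendsto (fun T : ℝ => Real.log T / (2 * Real.pi) * (η * T)) atTop atTop :=
      (Real.tendsto_log_atTop.atTop_div_const (by positivity)).atTop_mul_atTop₀ (tendsto_id.const_mul_atTop hη0)
    exact h1.eventually (eventually_ge_atTop B)
  filter_upwards [hr', hTB, eventually_gt_atTop 1] with T h1 h2 hT
  have hT0 : (0 : ℝ) < T := by linarith
  have hL : 0 < Real.log T := Real.log_pos hT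
  have hN0 : 0 < N0 T := N0_pos hT
  -- the inner integral
  have hterm : ∀ γ : ℝ, η * T < γ → γ ≤ (1 - η) * T →
      2 * Real.pi / Real.log T * IB ≤ ∫ t in (0 : ℝ)..T, g (xg T t γ) := by
    intro γ hγ1 hγ2
    have e1 : ∀ t : ℝ, g (xg T t γ) = g (Real.log T / (2 * Real.pi) * γ - Real.log T / (2 * Real.pi) * t) := by
      intro t; simp only [xg]; congr 1; ring
    simp_rw [e1]
    rw [intervalIntegral.integral_comp_sub_mul (fun u => g u) (by positivity), smul_eq_mul, inv_div]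
    apply mul_le_mul_of_nonneg_left _ (by positivity)
    rw [hIB]
    have h3 : Real.log T / (2 * Real.pi) * γ - Real.log T / (2 * Real.pi) * T ≤ -B := by
      have : Real.log T / (2 * Real.pi) * (η * T) ≤ Real.log T / (2 * Real.pi) * (T - γ) := by
        gcongr; linarith
      linarith
    have h4 : B ≤ Real.log T / (2 * Real.pi) * γ - Real.log T / (2 * Real.pi) * 0 := by
      have : Real.log T / (2 * Real.pi) * (η * T) ≤ Real.log T / (2 * Real.pi) * γ := by gcongr
      linarith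
    exact intervalIntegral.integral_mono_interval h3 (by linarith) h4 (Eventually.of_forall h0) hg.intervalIntegrable
  have hii : ∀ γ ∈ ordinates T, IntervalIntegrable (fun t => (mult γ : ℝ) * g (xg T t γ)) volume 0 T := fun γ _ =>
    ((FM_int hT hg γ).1.const_mul _).intervalIntegrable
  have hsum : (NN ((1 - η) * T) - NN (η * T)) * (2 * Real.pi / Real.log T * IB) ≤ ∫ t in (0 : ℝ)..T, WR g T t := by
    unfold WR
    rw [intervalIntegral.integral_finsetSum hii, FM_NN_sub (T := T) (by nlinarith) (by nlinarith), Finset.sum_mul]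
    refine (Finset.sum_le_sum (g := fun γ => ∫ t in (0 : ℝ)..T, (mult γ : ℝ) * g (xg T t γ)) fun γ hγ => ?_).trans
      (Finset.sum_le_sum_of_subset_of_nonneg (Finset.filter_subset _ _) fun γ _ _ => ?_)
    · rw [Finset.mem_filter] at hγ
      rw [intervalIntegral.integral_const_mul]
      exact mul_le_mul_of_nonneg_left (hterm γ hγ.2.1 hγ.2.2) (Nat.cast_nonneg _)
    · exact intervalIntegral.integral_nonneg hT0.le fun t _ => mul_nonneg (Nat.cast_nonneg _) (h0 _)
  have hfin : (1 - 3 * η) * IB ≤ T⁻¹ * ∫ t in (0 : ℝ)..T, WR g T t := by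
    calc (1 - 3 * η) * IB ≤ (NN ((1 - η) * T) / N0 T - NN (η * T) / N0 T) * IB := by gcongr
      _ = T⁻¹ * ((NN ((1 - η) * T) - NN (η * T)) * (2 * Real.pi / Real.log T * IB)) := by
          unfold N0; field_simp
      _ ≤ _ := by gcongr
  rw [← hIg]
  nlinarith

end Pool.Agent.Lib.MP_00e05b_nt.Gap
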