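import Pool.Agent.Lib.MP_00e05b_nt.Gap.B1a
import Pool.Agent.Lib.MP_00e05b_nt.Gap.FM

/-!
# LEAF B2: smooth linear statistics have bounded variance

`∫_0^T (WR - ρ 0)² ≤ ∫_ℝ WR² - 2 ρ(0) ∫_0^T WR + ρ(0)² T`. The first term is `B1a.energy_pt` at `β = 0`
(`WS ψ T t 0 = WR ψ T t`), `PS T (fT (ρ²)) = ∫ FF ρ² → ρ(0)² + ∫ |α| ρ²` (`PS_FF`, `base_sym`), the error by `PS_bound`; the second by
`B3.first_lower` and `∫ fT ρ = ρ 0` (`fT_int`, `fT_smooth`).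
-/

open Complex Set Filter Topology MeasureTheory

namespace Pool.Agent.Lib.MP_00e05b_nt.Gap

open Pool.Agent.Lib.MP_00e05b_nt Pool.Agent.Lib.MP_00e05b_nt.Mont

private lemma B2_WS_zero (ψ : ℝ → ℝ) (T t : ℝ) : WS ψ T t 0 = (WR ψ T t : ℂ) := by
  unfold WS WR
  push_cast
  refine Finset.sum_congr rfl fun γ _ => ?_
  simp

private lemma B2_PS_add (T : ℝ) (f g : ℝ → ℝ) : PS T (fun x => f x + g x) = PS T f + PS T g := by
  unfold PS
  rw [← mul_add, ← Finset.sum_add_distrib]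
  congr 1
  refine Finset.sum_congr rfl fun γ _ => ?_
  rw [← Finset.sum_add_distrib]
  refine Finset.sum_congr rfl fun γ' _ => ?_
  ring

private lemma B2_frac {C x : ℝ} (hC : 0 ≤ C) : x ^ 2 * (C / (1 + x ^ 2) ^ 2) ≤ C / (1 + x ^ 2) := by
  have h1 : (0 : ℝ) < 1 + x ^ 2 := by positivity
  rw [mul_div_assoc', div_le_div_iff₀ (by positivity) h1]
  nlinarith [mul_nonneg hC h1.le, mul_nonneg hC (sq_nonneg x), sq_nonneg x, mul_nonneg (mul_nonneg hC h1.le) h1.le]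

/-- The mean square over the whole line is asymptotically at most `ρ(0)² + ∫ |α| ρ²`. -/
private lemma B2_second (hRH : RiemannHypothesis) {ρ : ℝ → ℝ} (hρ : ES ρ 1) {ε : ℝ} (hε : 0 < ε) :
    ∀ᶠ T : ℝ in atTop, Integrable (fun t => WR (fT ρ) T t ^ 2) ∧
      T⁻¹ * ∫ t, WR (fT ρ) T t ^ 2 ≤ ρ 0 ^ 2 + (∫ α, |α| * ρ α ^ 2) + ε := by
  have hq : ContDiff ℝ (⊤ : ℕ∞) (fun α => ρ α ^ 2) := hρ.smooth.pow 2
  have hq0 : ∀ x : ℝ, 1 ≤ |x| → ρ x ^ 2 = 0 := fun x hx => by rw [hρ.supp x hx]; norm_num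
  obtain ⟨-, -, C, hC, hCq⟩ := fT_smooth (φ := fun α => ρ α ^ 2) hq (fun α => by rw [hρ.even]) ⟨1, hq0⟩
  have hlim := base_sym hRH (r := fun α => ρ α ^ 2) hq.continuous hq0
  obtain ⟨D, hD, hPS⟩ := PS_bound hRH
  have hlog : Tendsto (fun T : ℝ => D * ((Real.pi / Real.log T) ^ 2 * C)) atTop (𝓝 0) := by
    have h1 : Tendsto (fun T : ℝ => Real.pi / Real.log T) atTop (𝓝 0) :=
      Real.tendsto_log_atTop.const_div_atTop Real.pi
    have h2 := ((h1.pow 2).mul_const C).const_mul D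
    simpa using h2
  have e1 := hlim.eventually (gt_mem_nhds (show (fun α => ρ α ^ 2) 0 + ∫ x : ℝ, |x| * (fun α => ρ α ^ 2) x <
    ρ 0 ^ 2 + (∫ α, |α| * ρ α ^ 2) + ε / 2 by simp only; linarith))
  have e2 := hlog.eventually (gt_mem_nhds (half_pos hε))
  filter_upwards [e1, e2, hPS, eventually_gt_atTop 1] with T h1 h2 h3 hT
  obtain ⟨hi, he⟩ := energy_pt hT hρ 0
  have hsq : ∀ t, ‖WS (fT ρ) T t 0‖ ^ 2 = WR (fT ρ) T t ^ 2 := by
    intro t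
    rw [B2_WS_zero, Complex.norm_real, Real.norm_eq_abs, sq_abs]
  simp_rw [hsq] at hi he
  refine ⟨hi, ?_⟩
  rw [he]
  have h4 : (fun x => (1 + (Real.pi / Real.log T) ^ 2 * x ^ 2) * (fT (fun α => ρ α ^ 2) x * Real.cos (2 * Real.pi * 0 * x))) =
      fun x => fT (fun α => ρ α ^ 2) x + (Real.pi / Real.log T) ^ 2 * (x ^ 2 * fT (fun α => ρ α ^ 2) x) := by
    funext x
    rw [mul_zero, zero_mul, Real.cos_zero]
    ring
  rw [h4, B2_PS_add, ← PS_FF hT hq.continuous ⟨1, hq0⟩]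
  have h5 := h3 ((Real.pi / Real.log T) ^ 2 * C) (fun x => (Real.pi / Real.log T) ^ 2 * (x ^ 2 * fT (fun α => ρ α ^ 2) x)) (by
    intro x
    rw [abs_mul, abs_of_nonneg (sq_nonneg (Real.pi / Real.log T)), mul_div_assoc]
    refine mul_le_mul_of_nonneg_left ?_ (sq_nonneg _)
    rw [abs_mul, abs_of_nonneg (sq_nonneg x)]
    exact (mul_le_mul_of_nonneg_left (hCq x) (sq_nonneg x)).trans (B2_frac hC))
  have h6 := le_abs_self (PS T (fun x => (Real.pi / Real.log T) ^ 2 * (x ^ 2 * fT (fun α => ρ α ^ 2) x)))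
  linarith

theorem variance (hRH : RiemannHypothesis) {ρ : ℝ → ℝ} (hρ : ES ρ 1) (hpos : ∀ x, 0 ≤ fT ρ x) {ε : ℝ} (hε : 0 < ε) :
    ∀ᶠ T : ℝ in atTop, T⁻¹ * ∫ t in (0 : ℝ)..T, (WR (fT ρ) T t - ρ 0) ^ 2 ≤ (∫ α, |α| * ρ α ^ 2) + ε := by
  obtain ⟨hCE, -, -⟩ := fT_smooth hρ.smooth hρ.even ⟨1, hρ.supp⟩
  have hint : ∫ x, fT ρ x = ρ 0 := fT_int hCE
  have h0 : 0 ≤ ρ 0 := by
    rw [← hint]
    exact integral_nonneg hpos
  have hδ : 0 < ε / (4 * (ρ 0 + 1)) := by positivity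
  have hδ2 : 2 * ρ 0 * (ε / (4 * (ρ 0 + 1))) ≤ ε / 2 := by
    rw [mul_div_assoc', div_le_div_iff₀ (by positivity) (by norm_num)]
    nlinarith
  filter_upwards [B2_second hRH hρ (half_pos hε), first_lower hRH hCE.int hpos hδ, eventually_gt_atTop 1] with T h1 h2 hT
  obtain ⟨hi2, h1⟩ := h1
  rw [hint] at h2
  have hT0 : 0 < T := lt_trans one_pos hT
  obtain ⟨hi1, -⟩ := first_moment hT hCE.int
  have k1 : IntervalIntegrable (fun t => WR (fT ρ) T t ^ 2) volume 0 T := hi2.intervalIntegrable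
  have k2 : IntervalIntegrable (fun t => 2 * ρ 0 * WR (fT ρ) T t) volume 0 T := (hi1.intervalIntegrable).const_mul _
  have k3 : IntervalIntegrable (fun _ : ℝ => ρ 0 ^ 2) volume 0 T := intervalIntegrable_const
  have h3 : ∫ t in (0 : ℝ)..T, (WR (fT ρ) T t - ρ 0) ^ 2 =
      (∫ t in (0 : ℝ)..T, WR (fT ρ) T t ^ 2) - 2 * ρ 0 * (∫ t in (0 : ℝ)..T, WR (fT ρ) T t) + T * ρ 0 ^ 2 := by
    have h4 : ∫ t in (0 : ℝ)..T, (WR (fT ρ) T t - ρ 0) ^ 2 =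
        ∫ t in (0 : ℝ)..T, (WR (fT ρ) T t ^ 2 - 2 * ρ 0 * WR (fT ρ) T t + ρ 0 ^ 2) := by
      refine intervalIntegral.integral_congr fun t _ => ?_
      show (WR (fT ρ) T t - ρ 0) ^ 2 = WR (fT ρ) T t ^ 2 - 2 * ρ 0 * WR (fT ρ) T t + ρ 0 ^ 2
      ring
    rw [h4, intervalIntegral.integral_add (k1.sub k2) k3, intervalIntegral.integral_sub k1 k2,
      intervalIntegral.integral_const_mul, intervalIntegral.integral_const, sub_zero, smul_eq_mul]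
  have h5 : ∫ t in (0 : ℝ)..T, WR (fT ρ) T t ^ 2 ≤ ∫ t, WR (fT ρ) T t ^ 2 := by
    rw [intervalIntegral.integral_of_le hT0.le]
    exact setIntegral_le_integral hi2 (Filter.Eventually.of_forall fun t => sq_nonneg _)
  have hTi : 0 < T⁻¹ := inv_pos.2 hT0
  have h6 := (mul_le_mul_of_nonneg_left h5 hTi.le).trans h1
  have h7 : T⁻¹ * (T * ρ 0 ^ 2) = ρ 0 ^ 2 := by
    rw [← mul_assoc, inv_mul_cancel₀ hT0.ne', one_mul]
  have h8 : 2 * ρ 0 * (ρ 0 - ε / (4 * (ρ 0 + 1))) ≤ 2 * ρ 0 * (T⁻¹ * ∫ t in (0 : ℝ)..T, WR (fT ρ) T t) :=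
    mul_le_mul_of_nonneg_left h2 (by positivity)
  rw [h3]
  have h9 : T⁻¹ * ((∫ t in (0 : ℝ)..T, WR (fT ρ) T t ^ 2) - 2 * ρ 0 * (∫ t in (0 : ℝ)..T, WR (fT ρ) T t) + T * ρ 0 ^ 2) =
      T⁻¹ * (∫ t in (0 : ℝ)..T, WR (fT ρ) T t ^ 2) - 2 * ρ 0 * (T⁻¹ * ∫ t in (0 : ℝ)..T, WR (fT ρ) T t) +
        T⁻¹ * (T * ρ 0 ^ 2) := by ring
  rw [h9, h7]
  have h10 : 2 * ρ 0 * (ρ 0 - ε / (4 * (ρ 0 + 1))) = 2 * ρ 0 ^ 2 - 2 * ρ 0 * (ε / (4 * (ρ 0 + 1))) := by ring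
  rw [h10] at h8
  linarith

/-- Dilates: `K (x/R)` has variance at most `∫ |α| κ(α)² + ε`. Proof: `variance` for `κ_R β = R κ(R β)`. -/
theorem variance_dil (hRH : RiemannHypothesis) {κ : ℝ → ℝ} {Λ : ℝ} (hκ : ES κ Λ) (hpos : ∀ x, 0 ≤ fT κ x) {R : ℝ}
    (hR0 : 0 < R) (hR : Λ ≤ R) {ε : ℝ} (hε : 0 < ε) :
    ∀ᶠ T : ℝ in atTop, T⁻¹ * ∫ t in (0 : ℝ)..T, (WR (fun y => fT κ (y / R)) T t - R * κ 0) ^ 2 ≤
      (∫ α, |α| * κ α ^ 2) + ε := by
  have hES : ES (fun β => R * κ (R * β)) 1 := by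
    refine ⟨?_, ?_, ?_⟩
    · exact contDiff_const.mul (hκ.smooth.comp (contDiff_const.mul contDiff_id))
    · intro u
      show R * κ (R * -u) = R * κ (R * u)
      rw [mul_neg, hκ.even]
    · intro u hu
      show R * κ (R * u) = 0
      rw [hκ.supp (R * u), mul_zero]
      rw [abs_mul, abs_of_pos hR0]
      nlinarith
  have hfT : fT (fun β => R * κ (R * β)) = fun y => fT κ (y / R) := by
    funext y
    unfold fT
    have h1 := Measure.integral_comp_mul_left (fun α : ℝ => κ α * Real.cos (2 * Real.pi * (y / R) * α)) R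
    rw [abs_of_pos (inv_pos.2 hR0), smul_eq_mul] at h1
    have h2 : ∫ α : ℝ, κ α * Real.cos (2 * Real.pi * (y / R) * α) =
        R * ∫ x : ℝ, κ (R * x) * Real.cos (2 * Real.pi * (y / R) * (R * x)) := by
      rw [h1, ← mul_assoc, mul_inv_cancel₀ hR0.ne', one_mul]
    rw [h2, ← integral_const_mul]
    refine integral_congr_ae (Filter.Eventually.of_forall fun x => ?_)
    show R * κ (R * x) * Real.cos (2 * Real.pi * y * x) = R * (κ (R * x) * Real.cos (2 * Real.pi * (y / R) * (R * x)))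
    have h3 : 2 * Real.pi * (y / R) * (R * x) = 2 * Real.pi * y * x := by
      have := hR0.ne'
      field_simp
    rw [h3]
    ring
  have hI : ∫ α : ℝ, |α| * (R * κ (R * α)) ^ 2 = ∫ α : ℝ, |α| * κ α ^ 2 := by
    have h1 := Measure.integral_comp_mul_left (fun α : ℝ => |α| * κ α ^ 2) R
    rw [abs_of_pos (inv_pos.2 hR0), smul_eq_mul] at h1
    have h2 : ∫ α : ℝ, |α| * κ α ^ 2 = R * ∫ x : ℝ, |R * x| * κ (R * x) ^ 2 := by
      rw [h1, ← mul_assoc, mul_inv_cancel₀ hR0.ne', one_mul]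
    rw [h2, ← integral_const_mul]
    refine integral_congr_ae (Filter.Eventually.of_forall fun x => ?_)
    show |x| * (R * κ (R * x)) ^ 2 = R * (|R * x| * κ (R * x) ^ 2)
    rw [abs_mul, abs_of_pos hR0]
    ring
  have h := variance hRH hES (fun x => by rw [hfT]; exact hpos _) hε
  rw [hfT, hI] at h
  filter_upwards [h] with T hT
  have h0 : R * κ (R * 0) = R * κ 0 := by rw [mul_zero]
  simp only [h0] at hT
  exact hT

end Pool.Agent.Lib.MP_00e05b_nt.Gap
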