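import Pool.Agent.Lib.MP_00e05b_nt.Gap.KR
import Pool.Agent.Lib.MP_00e05b_nt.Gap.E1

/-!
# LEAF AV: the average of the Cauchy term, with explicit constants

`∫_G ∫ kk(u) ‖WS(c + u)‖ du dt = ∫ kk(u) ∫_G ‖WS(c + u)‖ dt du` (Tonelli; everything is continuous and nonnegative, `kk` integrable, `WS`
bounded). `∫_G ‖WS(β)‖ ≤ √T √(∫_ℝ ‖WS(β)‖²) ≤ T √(C₀ D)` (`energy_sup`) gives `T √(C₀ D)` for the part `|u| > a` (`kk_int`). For `|u| ≤ a`:
`kk ≤ K := π R e^{2πaR}` and `∫_{-a}^a ∫_G ‖WS‖ ≤ √(2aT) √(∫_ℝ ∫_{-a}^a ‖WS‖²) ≤ T √2 √(3 η + ε')` (`energy_one`), `η = exp (-C R)`: choose `C` absolute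
and `ε' > 0` (depending on `R`) with `K √2 √(3 η + ε') ≤ 1 ≤ √(C₀ D)` for all `R ≥ 1`, `a ≤ 1`. Total `2 √(C₀ D) T ≤ C √D T`.
-/

open Complex Set Filter Topology MeasureTheory

namespace Pool.Agent.Lib.MP_00e05b_nt.Gap

open Pool.Agent.Lib.MP_00e05b_nt Pool.Agent.Lib.MP_00e05b_nt.Mont

private theorem AV_int {k : ℝ → ℝ} {W : ℝ → ℝ → ℝ} (hki : Integrable k)
    (hW : Continuous (fun p : ℝ × ℝ => W p.1 p.2)) {M : ℝ} (hM : ∀ t u, |W t u| ≤ M) (t : ℝ) :
    Integrable (fun u => k u * W t u) := by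
  refine hki.mul_bdd (c := M) ?_ (Eventually.of_forall fun u => ?_)
  · exact (hW.comp (by fun_prop : Continuous fun u : ℝ => (t, u))).aestronglyMeasurable
  · rw [Real.norm_eq_abs]
    exact hM t u

private theorem AV_cont {k : ℝ → ℝ} {W : ℝ → ℝ → ℝ} (hki : Integrable k)
    (hW : Continuous (fun p : ℝ × ℝ => W p.1 p.2)) {M : ℝ} (hM : ∀ t u, |W t u| ≤ M) (B : Set ℝ) :
    Continuous (fun t => ∫ u in B, k u * W t u) := by
  refine continuous_of_dominated (bound := fun u => |k u| * M) ?_ ?_ (hki.abs.mul_const M).restrict ?_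
  · intro t
    exact (AV_int hki hW hM t).aestronglyMeasurable.restrict
  · intro t
    refine Eventually.of_forall fun u => ?_
    rw [Real.norm_eq_abs, abs_mul]
    exact mul_le_mul_of_nonneg_left (hM t u) (abs_nonneg _)
  · refine Eventually.of_forall fun u => ?_
    exact continuous_const.mul (hW.comp (by fun_prop : Continuous fun t : ℝ => (t, u)))

/-- `W ≤ P/2 + W²/(2P)`. -/
private theorem AV_amgm {P w : ℝ} (hP : 0 < P) : w ≤ P / 2 + w ^ 2 / (2 * P) := by
  have h : 0 ≤ (w - P) ^ 2 / (2 * P) := by positivity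
  have h2 : (w - P) ^ 2 / (2 * P) = P / 2 + w ^ 2 / (2 * P) - w := by
    field_simp
    ring
  linarith

/-- The abstract estimate. -/
private theorem AV_abs {k : ℝ → ℝ} {W : ℝ → ℝ → ℝ} {a T K P Q : ℝ} {G : Set ℝ} (hk : Continuous k)
    (hk0 : ∀ u, 0 ≤ k u) (hkK : ∀ u, k u ≤ K) (hki : Integrable k) (hk1 : ∫ u in {u : ℝ | a < |u|}, k u ≤ 1)
    (hW : Continuous (fun p : ℝ × ℝ => W p.1 p.2)) (hW0 : ∀ t u, 0 ≤ W t u) {M : ℝ} (hM : ∀ t u, |W t u| ≤ M)
    (hT : 0 < T) (hGT : G ⊆ Icc 0 T) (ha : 0 < a) (hP : 0 < P) (hQ : 0 < Q)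
    (hE2 : ∀ u, Integrable (fun t => W t u ^ 2) ∧ ∫ t, W t u ^ 2 ≤ T * P ^ 2)
    (hE1 : Integrable (fun t => ∫ ξ in (-a)..a, W t ξ ^ 2) ∧ ∫ t, (∫ ξ in (-a)..a, W t ξ ^ 2) ≤ T * Q ^ 2) :
    IntegrableOn (fun t => ∫ u : ℝ, k u * W t u) G ∧
      ∫ t in G, (∫ u : ℝ, k u * W t u) ≤ T * P + K * (T * Q * (a + 1 / 2)) := by
  have hK : 0 ≤ K := (hk0 0).trans (hkK 0)
  have hGv : (volume G).toReal ≤ T := by
    have h1 : volume G ≤ ENNReal.ofReal T := by
      calc volume G ≤ volume (Icc 0 T) := measure_mono hGT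
        _ = ENNReal.ofReal T := by rw [Real.volume_Icc, sub_zero]
    calc (volume G).toReal ≤ (ENNReal.ofReal T).toReal := ENNReal.toReal_mono ENNReal.ofReal_ne_top h1
      _ = T := ENNReal.toReal_ofReal hT.le
  have hGf : volume G < ⊤ := lt_of_le_of_lt (measure_mono hGT) (by rw [Real.volume_Icc]; exact ENNReal.ofReal_lt_top)
  have : IsFiniteMeasure (volume.restrict G) := ⟨by rw [Measure.restrict_apply_univ]; exact hGf⟩
  have hOn : ∀ {f : ℝ → ℝ}, Continuous f → IntegrableOn f G := fun hf =>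
    (hf.integrableOn_Icc (a := 0) (b := T)).mono_set hGT
  have hconst : ∀ c : ℝ, ∫ _t in G, c = (volume G).toReal * c := by
    intro c
    rw [setIntegral_const, smul_eq_mul]
    rfl
  set A : Set ℝ := {u : ℝ | a < |u|} with hA
  have hAm : MeasurableSet A := measurableSet_lt measurable_const continuous_abs.measurable
  have hAc : Aᶜ = Icc (-a) a := by
    ext u
    rw [mem_compl_iff, hA, Set.mem_ofPred_eq, not_lt, mem_Icc, abs_le]
  have hsplit : ∀ t, ∫ u : ℝ, k u * W t u = (∫ u in A, k u * W t u) + ∫ u in Aᶜ, k u * W t u := fun t =>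
    (integral_add_compl hAm (AV_int hki hW hM t)).symm
  have hc1 := AV_cont hki hW hM A
  have hc2 := AV_cont hki hW hM Aᶜ
  simp_rw [hsplit]
  refine ⟨hOn (hc1.add hc2), ?_⟩
  rw [integral_add (hOn hc1) (hOn hc2)]
  refine add_le_add ?_ ?_
  · -- the part |u| > a
    have hswap : ∫ t in G, (∫ u in A, k u * W t u) = ∫ u in A, (∫ t in G, k u * W t u) := by
      refine integral_integral_swap ?_
      have h1 : Integrable (fun p : ℝ × ℝ => M * |k p.2|) ((volume.restrict G).prod (volume.restrict A)) := by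
        have := (integrable_const (μ := volume.restrict G) M).mul_prod (hki.abs.restrict (s := A))
        exact this
      refine h1.mono' ?_ (Eventually.of_forall fun p => ?_)
      · exact ((hk.comp continuous_snd).mul hW).aestronglyMeasurable
      · simp only [Function.uncurry]
        rw [Real.norm_eq_abs, abs_mul, mul_comm]
        exact mul_le_mul_of_nonneg_right (hM _ _) (abs_nonneg _)
    rw [hswap]
    have hpt : ∀ u, ∫ t in G, k u * W t u ≤ k u * (T * P) := by
      intro u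
      rw [integral_const_mul]
      refine mul_le_mul_of_nonneg_left ?_ (hk0 u)
      have hcu : Continuous (fun t => W t u) := hW.comp (by fun_prop : Continuous fun t : ℝ => (t, u))
      have h1 : ∫ t in G, W t u ≤ ∫ t in G, (P / 2 + W t u ^ 2 / (2 * P)) :=
        setIntegral_mono (hOn hcu) (hOn (continuous_const.add ((hcu.pow 2).div_const _))) fun t => AV_amgm hP
      have hcd : Continuous (fun t => W t u ^ 2 / (2 * P)) := (hcu.pow 2).div_const _
      have h2 : ∫ t in G, (P / 2 + W t u ^ 2 / (2 * P)) = (volume G).toReal * (P / 2) + (∫ t in G, W t u ^ 2) / (2 * P) := by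
        rw [integral_add (f := fun _ : ℝ => P / 2) (hOn continuous_const) (hOn hcd), hconst, integral_div]
      have h3 : ∫ t in G, W t u ^ 2 ≤ T * P ^ 2 :=
        (setIntegral_le_integral (hE2 u).1 (Eventually.of_forall fun t => sq_nonneg _)).trans (hE2 u).2
      have h4 : (∫ t in G, W t u ^ 2) / (2 * P) ≤ T * P / 2 := by
        rw [div_le_iff₀ (by positivity)]
        calc _ ≤ T * P ^ 2 := h3
          _ = T * P / 2 * (2 * P) := by ring
      have h5 : (volume G).toReal * (P / 2) ≤ T * (P / 2) := mul_le_mul_of_nonneg_right hGv (by positivity)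
      linarith
    have hint2 : Integrable (fun u => k u * (T * P)) := hki.mul_const _
    have hswapint : IntegrableOn (fun u => ∫ t in G, k u * W t u) A := by
      have hc : Continuous (fun u => ∫ t in G, k u * W t u) := by
        refine continuous_of_dominated (bound := fun t => K * M) ?_ ?_ (integrable_const _) ?_
        · intro u
          exact (continuous_const.mul (hW.comp (by fun_prop : Continuous fun t : ℝ => (t, u)))).aestronglyMeasurable
        · intro u
          refine Eventually.of_forall fun t => ?_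
          rw [Real.norm_eq_abs, abs_mul, abs_of_nonneg (hk0 u)]
          exact mul_le_mul (hkK u) (hM t u) (abs_nonneg _) hK
        · refine Eventually.of_forall fun t => ?_
          exact hk.mul (hW.comp (by fun_prop : Continuous fun u : ℝ => (t, u)))
      refine hint2.integrableOn.mono' hc.aestronglyMeasurable (Eventually.of_forall fun u => ?_)
      rw [Real.norm_eq_abs, abs_of_nonneg (integral_nonneg fun t => mul_nonneg (hk0 u) (hW0 t u))]
      exact hpt u
    calc ∫ u in A, (∫ t in G, k u * W t u) ≤ ∫ u in A, k u * (T * P) :=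
          setIntegral_mono hswapint hint2.integrableOn hpt
      _ = (∫ u in A, k u) * (T * P) := integral_mul_const _ _
      _ ≤ 1 * (T * P) := mul_le_mul_of_nonneg_right hk1 (by positivity)
      _ = T * P := one_mul _
  · -- the part |u| ≤ a
    have hpt : ∀ t, ∫ u in Aᶜ, k u * W t u ≤ K * (a * Q + (∫ ξ in (-a)..a, W t ξ ^ 2) / (2 * Q)) := by
      intro t
      have hct : Continuous (fun u => W t u) := hW.comp (by fun_prop : Continuous fun u : ℝ => (t, u))
      rw [hAc, integral_Icc_eq_integral_Ioc, ← intervalIntegral.integral_of_le (by linarith)]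
      have h1 : ∫ u in (-a)..a, k u * W t u ≤ ∫ u in (-a)..a, K * (Q / 2 + W t u ^ 2 / (2 * Q)) := by
        refine intervalIntegral.integral_mono_on (by linarith) ((hk.mul hct).intervalIntegrable _ _)
          ((continuous_const.mul (continuous_const.add ((hct.pow 2).div_const _))).intervalIntegrable _ _) fun u _ => ?_
        exact mul_le_mul (hkK u) (AV_amgm hQ) (hW0 t u) hK
      refine h1.trans (le_of_eq ?_)
      have hcd : Continuous (fun u => W t u ^ 2 / (2 * Q)) := (hct.pow 2).div_const _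
      have hcc : Continuous (fun _ : ℝ => Q / 2) := continuous_const
      rw [intervalIntegral.integral_const_mul, intervalIntegral.integral_add (hcc.intervalIntegrable _ _)
        (hcd.intervalIntegrable _ _), intervalIntegral.integral_const, intervalIntegral.integral_div,
        smul_eq_mul]
      ring
    have hE1c : IntegrableOn (fun t => K * (a * Q + (∫ ξ in (-a)..a, W t ξ ^ 2) / (2 * Q))) G :=
      ((integrable_const (a * Q)).add (hE1.1.div_const (2 * Q)).restrict).const_mul K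
    have h1 : ∫ t in G, (∫ u in Aᶜ, k u * W t u) ≤ ∫ t in G, K * (a * Q + (∫ ξ in (-a)..a, W t ξ ^ 2) / (2 * Q)) :=
      setIntegral_mono (hOn hc2) hE1c hpt
    refine h1.trans ?_
    rw [integral_const_mul]
    refine mul_le_mul_of_nonneg_left ?_ hK
    rw [integral_add (integrable_const (a * Q)) (hE1.1.div_const (2 * Q)).restrict, hconst, integral_div]
    have h3 : ∫ t in G, (∫ ξ in (-a)..a, W t ξ ^ 2) ≤ T * Q ^ 2 :=
      (setIntegral_le_integral hE1.1 (Eventually.of_forall fun t =>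
        intervalIntegral.integral_nonneg (by linarith) fun u _ => sq_nonneg _)).trans hE1.2
    have h4 : (∫ t in G, (∫ ξ in (-a)..a, W t ξ ^ 2)) / (2 * Q) ≤ T * Q / 2 := by
      rw [div_le_iff₀ (by positivity)]
      calc _ ≤ T * Q ^ 2 := h3
        _ = T * Q / 2 * (2 * Q) := by ring
    have h5 : (volume G).toReal * (a * Q) ≤ T * (a * Q) := mul_le_mul_of_nonneg_right hGv (by positivity)
    linarith

private theorem AV_fTcont {ρ : ℝ → ℝ} {e : ℝ} (hρ : ES ρ e) : Continuous (fT ρ) :=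
  fT_cont hρ.smooth.continuous ⟨e, hρ.supp⟩

private theorem AV_fTbdd {ρ : ℝ → ℝ} {e : ℝ} (hρ : ES ρ e) (x : ℝ) : |fT ρ x| ≤ ∫ α, |ρ α| := by
  have hi : Integrable ρ := by
    refine hρ.smooth.continuous.integrable_of_hasCompactSupport ?_
    refine HasCompactSupport.intro (isCompact_Icc (a := (-e : ℝ)) (b := e)) fun x hx => hρ.supp x ?_
    by_contra h
    rw [not_le, abs_lt] at h
    exact hx ⟨h.1.le, h.2.le⟩
  unfold fT
  rw [← Real.norm_eq_abs]
  refine norm_integral_le_of_norm_le hi.abs (Filter.Eventually.of_forall fun α => ?_)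
  rw [Real.norm_eq_abs, abs_mul]
  exact mul_le_of_le_one_right (abs_nonneg _) (Real.abs_cos_le_one _)

private theorem AV_WScont {ψ : ℝ → ℝ} (hψ : Continuous ψ) (T c : ℝ) :
    Continuous (fun p : ℝ × ℝ => ‖WS ψ T p.1 (c + p.2)‖) := by
  unfold WS
  refine Continuous.norm (continuous_finsetSum _ fun γ _ => ?_)
  have h1 : Continuous (fun p : ℝ × ℝ => xg T p.1 γ) := by
    unfold xg
    fun_prop
  have h2 : Continuous (fun p : ℝ × ℝ => 2 * Real.pi * (c + p.2) * xg T p.1 γ) :=
    (by fun_prop : Continuous fun p : ℝ × ℝ => 2 * Real.pi * (c + p.2)).mul h1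
  exact continuous_const.mul ((continuous_ofReal.comp (hψ.comp h1)).mul
    (Complex.continuous_exp.comp ((continuous_ofReal.comp h2).neg.mul continuous_const)))

private theorem AV_WSbdd {ψ : ℝ → ℝ} {B : ℝ} (hB : ∀ x, |ψ x| ≤ B) (T t β : ℝ) :
    ‖WS ψ T t β‖ ≤ ∑ γ ∈ ordinates T, (mult γ : ℝ) * B := by
  unfold WS
  refine (norm_sum_le _ _).trans (Finset.sum_le_sum fun γ _ => ?_)
  rw [norm_mul, norm_mul, Complex.norm_natCast, Complex.norm_real, Real.norm_eq_abs]
  refine mul_le_mul_of_nonneg_left ?_ (Nat.cast_nonneg _)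
  have h : ‖cexp (-((2 * Real.pi * β * xg T t γ : ℝ) : ℂ) * I)‖ = 1 := by
    rw [← ofReal_neg, Complex.norm_exp_ofReal_mul_I]
  rw [h, mul_one]
  exact hB _

/-- The choice of the constants. -/
private theorem AV_const {a R C : ℝ} (ha : 0 < a) (ha1 : a ≤ 1) (hR : 1 ≤ R) (hC : 4 * Real.pi + 20 ≤ C) :
    Real.pi * R * Real.exp (2 * Real.pi * a * R) *
      (Real.sqrt (3 * Real.exp (-(C * R)) + 2 / (9 * Real.pi ^ 2 * R ^ 2) * Real.exp (-(4 * Real.pi * R))) * (a + 1 / 2)) ≤ 1 := by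
  have hpi := Real.pi_pos
  have hR0 : 0 < R := by linarith
  set Q := Real.sqrt (3 * Real.exp (-(C * R)) + 2 / (9 * Real.pi ^ 2 * R ^ 2) * Real.exp (-(4 * Real.pi * R))) with hQ
  have hQ0 : 0 ≤ Q := Real.sqrt_nonneg _
  have hQ2 : Q ^ 2 = 3 * Real.exp (-(C * R)) + 2 / (9 * Real.pi ^ 2 * R ^ 2) * Real.exp (-(4 * Real.pi * R)) :=
    Real.sq_sqrt (by positivity)
  have h1 : Real.exp (2 * Real.pi * a * R) ≤ Real.exp (2 * Real.pi * R) := by
    refine Real.exp_le_exp.2 ?_
    have : a * (2 * Real.pi * R) ≤ 1 * (2 * Real.pi * R) := mul_le_mul_of_nonneg_right ha1 (by positivity)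
    linarith
  have hη : 3 * Real.exp (-(C * R)) ≤ 2 / (9 * Real.pi ^ 2 * R ^ 2) * Real.exp (-(4 * Real.pi * R)) := by
    have h2 : Real.exp (-(C * R)) ≤ Real.exp (-(4 * Real.pi * R)) * Real.exp (-(20 * R)) := by
      rw [← Real.exp_add]
      refine Real.exp_le_exp.2 ?_
      have : (4 * Real.pi + 20) * R ≤ C * R := mul_le_mul_of_nonneg_right hC hR0.le
      linarith
    have h3 : 200 * R ^ 2 ≤ Real.exp (20 * R) := by
      have := Real.quadratic_le_exp_of_nonneg (x := 20 * R) (by positivity)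
      nlinarith
    have h4 : Real.exp (-(20 * R)) ≤ 1 / (200 * R ^ 2) := by
      rw [Real.exp_neg, one_div]
      exact inv_anti₀ (by positivity) h3
    have h5 : Real.pi ^ 2 ≤ 12 := by
      have := Real.pi_lt_d2
      nlinarith
    have h6 : 3 * (1 / (200 * R ^ 2)) ≤ 2 / (9 * Real.pi ^ 2 * R ^ 2) := by
      rw [mul_one_div, div_le_div_iff₀ (by positivity) (by positivity)]
      nlinarith [sq_nonneg R, mul_le_mul_of_nonneg_right h5 (sq_nonneg R)]
    calc 3 * Real.exp (-(C * R)) ≤ 3 * (Real.exp (-(4 * Real.pi * R)) * (1 / (200 * R ^ 2))) := by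
          refine mul_le_mul_of_nonneg_left (h2.trans ?_) (by norm_num)
          exact mul_le_mul_of_nonneg_left h4 (Real.exp_pos _).le
      _ = 3 * (1 / (200 * R ^ 2)) * Real.exp (-(4 * Real.pi * R)) := by ring
      _ ≤ _ := mul_le_mul_of_nonneg_right h6 (Real.exp_pos _).le
  have hQle : Q ^ 2 ≤ 4 / (9 * Real.pi ^ 2 * R ^ 2) * Real.exp (-(4 * Real.pi * R)) := by
    rw [hQ2]
    have : 4 / (9 * Real.pi ^ 2 * R ^ 2) * Real.exp (-(4 * Real.pi * R)) =
      2 / (9 * Real.pi ^ 2 * R ^ 2) * Real.exp (-(4 * Real.pi * R)) + 2 / (9 * Real.pi ^ 2 * R ^ 2) * Real.exp (-(4 * Real.pi * R)) := by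
      ring
    rw [this]
    linarith
  have hQle2 : Q ≤ 2 / (3 * Real.pi * R) * Real.exp (-(2 * Real.pi * R)) := by
    refine abs_le_of_sq_le_sq' ?_ (by positivity) |>.2
    refine hQle.trans (le_of_eq ?_)
    rw [mul_pow, ← Real.exp_nat_mul, show ((2 : ℕ) : ℝ) * -(2 * Real.pi * R) = -(4 * Real.pi * R) by push_cast; ring]
    congr 1
    field_simp
    norm_num
  calc Real.pi * R * Real.exp (2 * Real.pi * a * R) * (Q * (a + 1 / 2))
      ≤ Real.pi * R * Real.exp (2 * Real.pi * R) * ((2 / (3 * Real.pi * R) * Real.exp (-(2 * Real.pi * R))) * (3 / 2)) := by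
        refine mul_le_mul (mul_le_mul_of_nonneg_left h1 (by positivity)) ?_ (by positivity) (by positivity)
        exact mul_le_mul hQle2 (by linarith) (by positivity) (by positivity)
    _ = Real.exp (2 * Real.pi * R) * Real.exp (-(2 * Real.pi * R)) := by
        field_simp
    _ = 1 := by rw [← Real.exp_add, add_neg_cancel, Real.exp_zero]

theorem cauchy_avg (hRH : RiemannHypothesis) : ∃ C : ℝ, 1 ≤ C ∧ ∀ (ρ : ℝ → ℝ) (e D a R : ℝ), 0 < e → e ≤ 1 → ES ρ e →
    (∀ α, |ρ α| ≤ 1) → 1 ≤ D → (∀ x, |fT (fun α => ρ α ^ 2) x| ≤ D / (1 + x ^ 2) ^ 2) → 0 < a → a ≤ 1 → 1 ≤ R →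
    ∀ᶠ T : ℝ in atTop, ∀ c : ℝ, (∫ α in (c - a - e)..(c + a + e), FF α T) ≤ Real.exp (-(C * R)) →
      ∀ G : Set ℝ, MeasurableSet G → G ⊆ Icc 0 T →
        IntegrableOn (fun t => ∫ u : ℝ, kk a R u * ‖WS (fT ρ) T t (c + u)‖) G ∧
        ∫ t in G, (∫ u : ℝ, kk a R u * ‖WS (fT ρ) T t (c + u)‖) ≤ C * Real.sqrt D * T := by
  obtain ⟨C₀, hC₀, hsup⟩ := energy_sup hRH
  have hpi := Real.pi_pos
  refine ⟨2 * C₀ + 4 * Real.pi + 20, by linarith, ?_⟩
  intro ρ e D a R he he1 hρ h1 hD hdec ha ha1 hR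
  have hR0 : 0 < R := by linarith
  have hε : 0 < 2 / (9 * Real.pi ^ 2 * R ^ 2) * Real.exp (-(4 * Real.pi * R)) := by positivity
  filter_upwards [hsup ρ e D he hρ (by linarith) hdec, energy_one hRH he he1 hρ h1 ha _ hε, eventually_gt_atTop 0]
    with T hTs hTo hT0 c hc G hG hGT
  set C := 2 * C₀ + 4 * Real.pi + 20 with hC
  set ε := 2 / (9 * Real.pi ^ 2 * R ^ 2) * Real.exp (-(4 * Real.pi * R)) with hεd
  set Q := Real.sqrt (3 * Real.exp (-(C * R)) + ε) with hQ
  set P := Real.sqrt (C₀ * D) with hP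
  have hCD : 0 < C₀ * D := by positivity
  have hP0 : 0 < P := Real.sqrt_pos.2 hCD
  have hP2 : P ^ 2 = C₀ * D := Real.sq_sqrt hCD.le
  have hQ0 : 0 < Q := Real.sqrt_pos.2 (by positivity)
  have hQ2 : Q ^ 2 = 3 * Real.exp (-(C * R)) + ε := Real.sq_sqrt (by positivity)
  have hmain := AV_abs (k := kk a R) (W := fun t u => ‖WS (fT ρ) T t (c + u)‖) (a := a) (T := T)
    (K := Real.pi * R * Real.exp (2 * Real.pi * a * R)) (P := P) (Q := Q) (G := G) (kk_cont a R)
    (kk_nonneg a hR0) (kk_le ha.le hR0) (kk_int ha.le hR0).1 (kk_int ha.le hR0).2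
    (AV_WScont (AV_fTcont hρ) T c) (fun t u => norm_nonneg _)
    (M := ∑ γ ∈ ordinates T, (mult γ : ℝ) * ∫ α, |ρ α|)
    (fun t u => by
      rw [abs_of_nonneg (norm_nonneg _)]
      exact AV_WSbdd (AV_fTbdd hρ) T t (c + u))
    hT0 hGT ha hP0 hQ0
    (fun u => ⟨(hTs (c + u)).1, by
      have := (hTs (c + u)).2
      rw [inv_mul_le_iff₀ hT0] at this
      rw [hP2]
      exact this⟩)
    ⟨(hTo c).1, by
      have := (hTo c).2
      rw [inv_mul_le_iff₀ hT0] at this
      rw [hQ2]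
      refine this.trans (mul_le_mul_of_nonneg_left ?_ hT0.le)
      linarith⟩
  refine ⟨hmain.1, hmain.2.trans ?_⟩
  have hK := AV_const (C := C) ha ha1 hR (by linarith)
  rw [← hεd, ← hQ] at hK
  have hsD : 1 ≤ Real.sqrt D := Real.one_le_sqrt.2 hD
  have hPle : P ≤ C₀ * Real.sqrt D := by
    rw [hP, Real.sqrt_mul (by linarith)]
    refine mul_le_mul_of_nonneg_right ?_ (Real.sqrt_nonneg _)
    exact Real.sqrt_le_iff.2 ⟨by linarith, by nlinarith⟩
  have h2 : Real.pi * R * Real.exp (2 * Real.pi * a * R) * (T * Q * (a + 1 / 2)) ≤ T * 1 := by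
    calc Real.pi * R * Real.exp (2 * Real.pi * a * R) * (T * Q * (a + 1 / 2))
        = T * (Real.pi * R * Real.exp (2 * Real.pi * a * R) * (Q * (a + 1 / 2))) := by ring
      _ ≤ T * 1 := mul_le_mul_of_nonneg_left hK hT0.le
  calc T * P + Real.pi * R * Real.exp (2 * Real.pi * a * R) * (T * Q * (a + 1 / 2))
      ≤ T * (C₀ * Real.sqrt D) + T * Real.sqrt D := by
        refine add_le_add (mul_le_mul_of_nonneg_left hPle hT0.le) (h2.trans ?_)
        exact mul_le_mul_of_nonneg_left hsD hT0.le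
    _ = (C₀ + 1) * Real.sqrt D * T := by ring
    _ ≤ C * Real.sqrt D * T := by
        refine mul_le_mul_of_nonneg_right (mul_le_mul_of_nonneg_right ?_ (Real.sqrt_nonneg _)) hT0.le
        linarith

end Pool.Agent.Lib.MP_00e05b_nt.Gap
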