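import Pool.Agent.Lib.MP_00e05b_nt.Gap.Defs

/-!
# LEAF B0K: band-limited majorant of `[-1, 1]` with integral at most `2 + δ`

`Φ = fT ρ ^ 2 ≥ 0` with `ρ` an even bump; `fT ρ ^ 2 = fT (ρ * ρ)` (see `Mont.ConvH` for `ck`), normalised to `∫ Φ = 1`. For `d > 0` small
and `Λ` large put `K x = (1 + d)² ∫_{-1-d}^{1+d} Λ Φ(Λ (x - y)) dy`: `K ≥ 0`, `K x ≥ (1 + d)² ∫_{|u| ≤ Λ d} Φ ≥ 1` for `|x| ≤ 1` and `Λ` large,
`∫ K = 2 (1 + d)³ ≤ 2 + δ`. `K = fT κ` with `κ α = (1 + d)² (Φhat (α/Λ)) sin(2π(1+d)α)/(πα)` (smooth: the second factor is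
`∫_{-1-d}^{1+d} cos (2π y α) dy`), supported in `[-cΛ, cΛ]`. Alternatively define `κ` first by
`κ α = (1+d)² φ(α/Λ) ∫_{-1-d}^{1+d} cos (2π y α) dy` with `φ = ` normalised autocorrelation of `ρ` and compute `fT κ` by Fubini.
-/

open Set Filter Topology MeasureTheory
open scoped ContDiff

namespace Pool.Agent.Lib.MP_00e05b_nt.Gap

open Pool.Agent.Lib.MP_00e05b_nt Pool.Agent.Lib.MP_00e05b_nt.Mont

/-- The indicator function of `[-a, a]`. -/
private noncomputable def B0K_chi (a : ℝ) : ℝ → ℝ := indicator (Icc (-a) a) fun _ => 1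

private lemma B0K_chi_nonneg (a y : ℝ) : 0 ≤ B0K_chi a y :=
  indicator_nonneg (fun _ _ => zero_le_one) y

private lemma B0K_chi_le (a y : ℝ) : B0K_chi a y ≤ 1 :=
  indicator_le_self' (fun _ _ => zero_le_one) y

private lemma B0K_chi_one {a y : ℝ} (h : |y| ≤ a) : B0K_chi a y = 1 := by
  rw [abs_le] at h
  exact indicator_of_mem (mem_Icc.2 h) _

private lemma B0K_chi_meas (a : ℝ) : Measurable (B0K_chi a) :=
  measurable_const.indicator measurableSet_Icc

private lemma B0K_chi_int (a : ℝ) : Integrable (B0K_chi a) := by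
  unfold B0K_chi
  rw [integrable_indicator_iff measurableSet_Icc]
  exact integrableOn_const (by simp)

private lemma B0K_chi_zero {a : ℝ} (ha : 0 ≤ a) : fT (B0K_chi a) 0 = 2 * a := by
  rw [fT_zero]
  unfold B0K_chi
  rw [integral_indicator measurableSet_Icc, setIntegral_const]
  simp only [Measure.real, Real.volume_Icc, smul_eq_mul, mul_one]
  rw [ENNReal.toReal_ofReal (by linarith)]
  ring

private lemma B0K_chi_smooth (a : ℝ) : ContDiff ℝ ∞ (fT (B0K_chi a)) := by
  have hI : Integrable (fun y : ℝ => (B0K_chi a y : ℂ)) := (B0K_chi_int a).ofReal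
  have h1 : ContDiff ℝ ∞ (FourierTransform.fourier (fun y : ℝ => (B0K_chi a y : ℂ))) := by
    refine Real.contDiff_fourier (N := ⊤) fun n _ => ?_
    have h2 : Integrable (fun v : ℝ => |a| ^ n * B0K_chi a v) := (B0K_chi_int a).const_mul _
    refine h2.mono ?_ (Eventually.of_forall fun v => ?_)
    · have h3 := (B0K_chi_meas a)
      exact ((measurable_norm.pow_const n).mul (Complex.measurable_ofReal.comp h3).norm).aestronglyMeasurable
    · rw [norm_mul, norm_norm, norm_pow, norm_norm, Complex.norm_real, norm_mul, norm_pow]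
      by_cases hv : v ∈ Icc (-a) a
      · have h4 : ‖v‖ ≤ ‖|a|‖ := by
          rw [Real.norm_eq_abs, Real.norm_eq_abs, abs_abs]
          exact (abs_le.2 hv).trans (le_abs_self a)
        exact mul_le_mul_of_nonneg_right (pow_le_pow_left₀ (norm_nonneg _) h4 n) (norm_nonneg _)
      · have h5 : B0K_chi a v = 0 := indicator_of_notMem hv _
        rw [h5, norm_zero, mul_zero, mul_zero]
  have h6 : fT (B0K_chi a) = fun x => (FourierTransform.fourier (fun y : ℝ => (B0K_chi a y : ℂ)) x).re := by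
    funext x
    have h7 : Integrable (fun v : ℝ => Complex.exp (((-2 * Real.pi * v * x : ℝ) : ℂ) * Complex.I) • (B0K_chi a v : ℂ)) := by
      refine hI.bdd_mul (c := 1) (by fun_prop) (Eventually.of_forall fun v => ?_)
      rw [Complex.norm_exp_ofReal_mul_I]
    have h8 : (∫ v : ℝ, Complex.exp (((-2 * Real.pi * v * x : ℝ) : ℂ) * Complex.I) • (B0K_chi a v : ℂ)).re =
        ∫ v : ℝ, (Complex.exp (((-2 * Real.pi * v * x : ℝ) : ℂ) * Complex.I) • (B0K_chi a v : ℂ)).re :=
      (integral_re h7).symm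
    rw [Real.fourier_real_eq_integral_exp_smul, h8]
    refine integral_congr_ae (Eventually.of_forall fun v => ?_)
    simp only [smul_eq_mul]
    rw [Complex.re_mul_ofReal, Complex.exp_ofReal_mul_I_re, mul_comm,
      show -2 * Real.pi * v * x = -(2 * Real.pi * x * v) by ring, Real.cos_neg]
  rw [h6]
  exact Complex.reCLM.contDiff.comp h1

/-- The transform of a dilate. -/
private lemma B0K_dil {Λ : ℝ} (hΛ : 0 < Λ) (h : ℝ → ℝ) (z : ℝ) :
    ∫ α, h (α / Λ) * Real.cos (2 * Real.pi * z * α) = Λ * fT h (Λ * z) := by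
  have h1 := Measure.integral_comp_div (fun β => h β * Real.cos (2 * Real.pi * (Λ * z) * β)) Λ
  rw [abs_of_pos hΛ, smul_eq_mul] at h1
  rw [fT, ← h1]
  refine integral_congr_ae (Eventually.of_forall fun α => ?_)
  simp only
  congr 2
  field_simp

private lemma B0K_h_int {h : ℝ → ℝ} {s Λ : ℝ} (hE : ES h s) (hΛ : 0 < Λ) : Integrable fun α => h (α / Λ) :=
  (hE.integrable).comp_div hΛ.ne'

private lemma B0K_formula {h : ℝ → ℝ} {s : ℝ} (hE : ES h s) {Λ : ℝ} (hΛ : 0 < Λ) (a x : ℝ) :
    ∫ α, h (α / Λ) * fT (B0K_chi a) α * Real.cos (2 * Real.pi * x * α) =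
      ∫ y, B0K_chi a y * ((Λ * fT h (Λ * (x - y)) + Λ * fT h (Λ * (x + y))) / 2) := by
  have hI := B0K_h_int hE hΛ
  have hc := B0K_chi_int a
  have h1 : ∀ α, h (α / Λ) * fT (B0K_chi a) α * Real.cos (2 * Real.pi * x * α) =
      ∫ y, h (α / Λ) * B0K_chi a y * (Real.cos (2 * Real.pi * α * y) * Real.cos (2 * Real.pi * x * α)) := by
    intro α
    rw [fT, ← integral_const_mul, ← integral_mul_const]
    refine integral_congr_ae (Eventually.of_forall fun y => ?_)
    simp only
    ring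
  have h2 : Integrable (Function.uncurry fun α y : ℝ => h (α / Λ) * B0K_chi a y *
      (Real.cos (2 * Real.pi * α * y) * Real.cos (2 * Real.pi * x * α))) (volume.prod volume) := by
    have h3 : Integrable (fun z : ℝ × ℝ => h (z.1 / Λ) * B0K_chi a z.2) (volume.prod volume) := hI.mul_prod hc
    have h4 := h3.mul_bdd (c := 1) (g := fun z : ℝ × ℝ =>
      Real.cos (2 * Real.pi * z.1 * z.2) * Real.cos (2 * Real.pi * x * z.1)) (by fun_prop)
      (Eventually.of_forall fun z => by
        rw [norm_mul, Real.norm_eq_abs, Real.norm_eq_abs]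
        exact mul_le_one₀ (Real.abs_cos_le_one _) (abs_nonneg _) (Real.abs_cos_le_one _))
    exact h4
  rw [integral_congr_ae (Eventually.of_forall h1), integral_integral_swap h2]
  refine integral_congr_ae (Eventually.of_forall fun y => ?_)
  simp only
  have h5 : ∀ z : ℝ, Integrable fun α => h (α / Λ) * Real.cos (2 * Real.pi * z * α) := by
    intro z
    refine hI.mul_bdd (c := 1) (by fun_prop) (Eventually.of_forall fun v => ?_)
    rw [Real.norm_eq_abs]
    exact Real.abs_cos_le_one _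
  have h6 : ∀ α, h (α / Λ) * B0K_chi a y * (Real.cos (2 * Real.pi * α * y) * Real.cos (2 * Real.pi * x * α)) =
      B0K_chi a y / 2 * (h (α / Λ) * Real.cos (2 * Real.pi * (x - y) * α) +
        h (α / Λ) * Real.cos (2 * Real.pi * (x + y) * α)) := by
    intro α
    have e1 : 2 * Real.pi * (x - y) * α = 2 * Real.pi * x * α - 2 * Real.pi * α * y := by ring
    have e2 : 2 * Real.pi * (x + y) * α = 2 * Real.pi * x * α + 2 * Real.pi * α * y := by ring
    rw [e1, e2, Real.cos_sub, Real.cos_add]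
    ring
  rw [integral_congr_ae (Eventually.of_forall h6), integral_const_mul, integral_add (h5 _) (h5 _),
    B0K_dil hΛ, B0K_dil hΛ]
  ring

/-- The lower bound of the convolution. -/
private lemma B0K_low {Φ : ℝ → ℝ} (hΦ : Integrable Φ) (h0 : ∀ v, 0 ≤ Φ v) {d Λ : ℝ} (hd : 0 ≤ d)
    (hΛ : 0 < Λ) {x : ℝ} (hx : |x| ≤ 1) :
    ∫ v in (-(Λ * d))..(Λ * d), Φ v ≤ ∫ y, B0K_chi (1 + d) y * (Λ * Φ (Λ * (x - y))) := by
  have h1 : ∫ y, B0K_chi (1 + d) y * (Λ * Φ (Λ * (x - y))) = ∫ v, B0K_chi (1 + d) (x - v / Λ) * Φ v := by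
    rw [← integral_sub_left_eq_self (fun y => B0K_chi (1 + d) y * (Λ * Φ (Λ * (x - y)))) volume x]
    have h2 := Measure.integral_comp_mul_left (fun v => B0K_chi (1 + d) (x - v / Λ) * Φ v) Λ
    rw [abs_of_pos (inv_pos.2 hΛ), smul_eq_mul] at h2
    have h3 : ∫ v, B0K_chi (1 + d) (x - v / Λ) * Φ v =
        Λ * ∫ y, B0K_chi (1 + d) (x - Λ * y / Λ) * Φ (Λ * y) := by
      rw [h2, ← mul_assoc, mul_inv_cancel₀ hΛ.ne', one_mul]
    rw [h3, ← integral_const_mul]
    refine integral_congr_ae (Eventually.of_forall fun y => ?_)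
    simp only
    rw [sub_sub_cancel, mul_div_cancel_left₀ _ hΛ.ne']
    ring
  rw [h1, intervalIntegral.integral_of_le (by nlinarith : -(Λ * d) ≤ Λ * d),
    ← integral_indicator measurableSet_Ioc]
  have hm : Measurable fun v => B0K_chi (1 + d) (x - v / Λ) :=
    (B0K_chi_meas _).comp (by fun_prop)
  have hI : Integrable fun v => B0K_chi (1 + d) (x - v / Λ) * Φ v := by
    refine hΦ.bdd_mul (c := 1) hm.aestronglyMeasurable (Eventually.of_forall fun v => ?_)
    rw [Real.norm_eq_abs, abs_of_nonneg (B0K_chi_nonneg _ _)]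
    exact B0K_chi_le _ _
  refine integral_mono (hΦ.indicator measurableSet_Ioc) hI fun v => ?_
  by_cases hv : v ∈ Ioc (-(Λ * d)) (Λ * d)
  · rw [indicator_of_mem hv]
    have h4 : |x - v / Λ| ≤ 1 + d := by
      have h5 : |v / Λ| ≤ d := by
        rw [abs_div, abs_of_pos hΛ, div_le_iff₀ hΛ, mul_comm]
        exact abs_le.2 ⟨hv.1.le, hv.2⟩
      calc |x - v / Λ| ≤ |x| + |v / Λ| := abs_sub _ _
        _ ≤ 1 + d := add_le_add hx h5
    simp only
    rw [B0K_chi_one h4, one_mul]
  · rw [indicator_of_notMem hv]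
    exact mul_nonneg (B0K_chi_nonneg _ _) (h0 v)

theorem exists_major {δ : ℝ} (hδ : 0 < δ) :
    ∃ (κ : ℝ → ℝ) (Λ : ℝ), 0 < Λ ∧ ES κ Λ ∧ (∀ x, 0 ≤ fT κ x) ∧ (∀ x, |x| ≤ 1 → 1 ≤ fT κ x) ∧ κ 0 ≤ 2 + δ := by
  obtain ⟨h, c0, hE, hc0, hnn, hlow⟩ := exists_posdef
  have hT : ∀ x, fT h x = ck h (2 * Real.pi * x) := fun x => rfl
  have hΦ0 : ∀ x, 0 ≤ fT h x := fun x => by
    rw [hT]
    exact hnn _
  have hCE : CE h := (fT_smooth hE.smooth hE.even ⟨1 / 2, hE.supp⟩).1
  have hcont : Continuous (fT h) := fT_cont hCE.cont hCE.supp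
  have hh0 : 0 < h 0 := by
    rw [← fT_int hCE]
    have hπ := Real.pi_pos
    have h1 : ∫ u, (Icc (-(1 / (2 * Real.pi)) : ℝ) (1 / (2 * Real.pi))).indicator (fun _ => c0) u ≤ ∫ u, fT h u := by
      refine integral_mono ?_ hCE.int fun u => ?_
      · rw [integrable_indicator_iff measurableSet_Icc]
        exact integrableOn_const (by simp)
      · by_cases hu : u ∈ Icc (-(1 / (2 * Real.pi)) : ℝ) (1 / (2 * Real.pi))
        · rw [indicator_of_mem hu, hT]
          refine hlow _ ?_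
          rw [abs_mul, abs_of_pos (by positivity : 0 < 2 * Real.pi)]
          have h2 : |u| ≤ 1 / (2 * Real.pi) := abs_le.2 hu
          rw [le_div_iff₀ (by positivity)] at h2
          linarith
        · rw [indicator_of_notMem hu]
          exact hΦ0 u
    have h2 : 0 < ∫ u, (Icc (-(1 / (2 * Real.pi)) : ℝ) (1 / (2 * Real.pi))).indicator (fun _ => c0) u := by
      rw [integral_indicator measurableSet_Icc, setIntegral_const]
      simp only [Measure.real, Real.volume_Icc, smul_eq_mul]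
      rw [ENNReal.toReal_ofReal (by
        have : 0 < 1 / (2 * Real.pi) := by positivity
        linarith)]
      have : 0 < 1 / (2 * Real.pi) := by positivity
      have h3 : 0 < 1 / (2 * Real.pi) - -(1 / (2 * Real.pi)) := by linarith
      exact mul_pos h3 hc0
    linarith
  -- the parameters
  obtain ⟨d, hd0, hd1, hd2⟩ : ∃ d : ℝ, 0 < d ∧ d ≤ 1 ∧ 6 * d ≤ δ :=
    ⟨min 1 (δ / 6), by positivity, min_le_left _ _, by
      have := min_le_right 1 (δ / 6)
      linarith⟩
  have hlim : Tendsto (fun R : ℝ => ∫ x in (-R)..R, fT h x) atTop (𝓝 (h 0)) := by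
    have h1 := intervalIntegral_tendsto_integral hCE.int tendsto_neg_atTop_atBot
      (tendsto_id (α := ℝ) (x := atTop))
    rw [fT_int hCE] at h1
    exact h1
  have hlt : h 0 / (1 + d) < h 0 := by
    rw [div_lt_iff₀ (by linarith)]
    nlinarith
  obtain ⟨R, hR1, hR2⟩ := ((hlim.eventually (lt_mem_nhds hlt)).and (eventually_gt_atTop 0)).exists
  set Λ : ℝ := R / d with hΛdef
  have hΛ : 0 < Λ := by positivity
  have hΛd : Λ * d = R := by
    rw [hΛdef]
    field_simp
  refine ⟨fun α => (1 + d) / h 0 * (h (α / Λ) * fT (B0K_chi (1 + d)) α), Λ, hΛ, ⟨?_, ?_, ?_⟩, ?_⟩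
  · have h1 : ContDiff ℝ ∞ fun α => h (α / Λ) := hE.smooth.comp (contDiff_id.div_const Λ)
    exact contDiff_const.mul (h1.mul (B0K_chi_smooth _))
  · intro u
    rw [neg_div, hE.even, fT_even]
  · intro u hu
    have h1 : h (u / Λ) = 0 := by
      refine hE.supp _ ?_
      rw [abs_div, abs_of_pos hΛ, le_div_iff₀ hΛ]
      linarith
    rw [h1, zero_mul, mul_zero]
  · have hform : ∀ x, fT (fun α => (1 + d) / h 0 * (h (α / Λ) * fT (B0K_chi (1 + d)) α)) x =
        (1 + d) / h 0 * ∫ y, B0K_chi (1 + d) y * ((Λ * fT h (Λ * (x - y)) + Λ * fT h (Λ * (x + y))) / 2) := by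
      intro x
      rw [fT, ← B0K_formula hE hΛ, ← integral_const_mul]
      refine integral_congr_ae (Eventually.of_forall fun α => ?_)
      simp only
      ring
    have hpos : 0 < (1 + d) / h 0 := by positivity
    refine ⟨fun x => ?_, fun x hx => ?_, ?_⟩
    · rw [hform]
      refine mul_nonneg hpos.le (integral_nonneg fun y => mul_nonneg (B0K_chi_nonneg _ _) ?_)
      have h1 := hΦ0 (Λ * (x - y))
      have h2 := hΦ0 (Λ * (x + y))
      positivity
    · rw [hform]
      have hIa : ∀ g : ℝ → ℝ, Continuous g → Integrable fun y => B0K_chi (1 + d) y * g y := by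
        intro g hg
        have h1 : IntegrableOn g (Icc (-(1 + d)) (1 + d)) := hg.continuousOn.integrableOn_Icc
        rw [← integrable_indicator_iff measurableSet_Icc] at h1
        refine h1.congr (Eventually.of_forall fun y => ?_)
        simp only [B0K_chi]
        by_cases hy : y ∈ Icc (-(1 + d)) (1 + d)
        · rw [indicator_of_mem hy, indicator_of_mem hy, one_mul]
        · rw [indicator_of_notMem hy, indicator_of_notMem hy, zero_mul]
      have hI1 := hIa (fun y => Λ * fT h (Λ * (x - y))) (by fun_prop)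
      have hI2 := hIa (fun y => Λ * fT h (Λ * (x + y))) (by fun_prop)
      have h1 := B0K_low hCE.int hΦ0 hd0.le hΛ hx
      have h2 := B0K_low hCE.int hΦ0 hd0.le hΛ (x := -x) (by rwa [abs_neg])
      have h3 : ∫ y, B0K_chi (1 + d) y * (Λ * fT h (Λ * (-x - y))) =
          ∫ y, B0K_chi (1 + d) y * (Λ * fT h (Λ * (x + y))) := by
        refine integral_congr_ae (Eventually.of_forall fun y => ?_)
        simp only
        rw [show Λ * (-x - y) = -(Λ * (x + y)) by ring, fT_even]
      rw [h3] at h2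
      have h4 : ∫ y, B0K_chi (1 + d) y * ((Λ * fT h (Λ * (x - y)) + Λ * fT h (Λ * (x + y))) / 2) =
          ((∫ y, B0K_chi (1 + d) y * (Λ * fT h (Λ * (x - y)))) +
            ∫ y, B0K_chi (1 + d) y * (Λ * fT h (Λ * (x + y)))) / 2 := by
        rw [← integral_add hI1 hI2, ← integral_div]
        refine integral_congr_ae (Eventually.of_forall fun y => ?_)
        simp only
        ring
      rw [h4]
      rw [hΛd] at h1 h2
      have h5 : h 0 / (1 + d) ≤ ((∫ y, B0K_chi (1 + d) y * (Λ * fT h (Λ * (x - y)))) +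
            ∫ y, B0K_chi (1 + d) y * (Λ * fT h (Λ * (x + y)))) / 2 := by linarith
      calc (1 : ℝ) = (1 + d) / h 0 * (h 0 / (1 + d)) := by
            field_simp
        _ ≤ _ := mul_le_mul_of_nonneg_left h5 hpos.le
    · change (1 + d) / h 0 * (h (0 / Λ) * fT (B0K_chi (1 + d)) 0) ≤ 2 + δ
      rw [zero_div, B0K_chi_zero (by linarith)]
      have h1 : (1 + d) / h 0 * (h 0 * (2 * (1 + d))) = 2 * (1 + d) ^ 2 := by
        field_simp
      rw [h1]
      nlinarith

end Pool.Agent.Lib.MP_00e05b_nt.Gap
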