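import Pool.Agent.Lib.MP_00e05b_nt.Gap.Defs

/-!
# LEAF B1a: the mean square of a window sum over all `t ∈ ℝ`

Expand the square; `∫ ψ(x_γ(t)) ψ(x_γ'(t)) dt = (2π / log T) ∫ ψ(x) ψ(x + d) dx`, `d = log T (γ' - γ)/2π`, `ψ = fT ρ`, and
`∫ fT ρ (x) fT ρ (x + d) dx = fT (ρ²) (d)` (Plancherel / `fT_inv`). The imaginary parts cancel by symmetry, the sum of
`m m' g(log T (γ - γ')/2π)` without weight is `N0 * PS T ((1 + (π/log T)² x²) g)`, because `1 = w(v) (1 + v²/4)`, `v = 2πx/log T`;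
`N0 T = T log T / 2π`.
-/

open Complex Set Filter Topology MeasureTheory

namespace Pool.Agent.Lib.MP_00e05b_nt.Gap

open Pool.Agent.Lib.MP_00e05b_nt Pool.Agent.Lib.MP_00e05b_nt.Mont

private lemma B1a_ce {ρ : ℝ → ℝ} {e : ℝ} (hρ : ES ρ e) : CE ρ :=
  (fT_smooth hρ.smooth hρ.even ⟨e, hρ.supp⟩).1

private lemma B1a_int {ρ : ℝ → ℝ} {e : ℝ} (hρ : ES ρ e) : Integrable ρ := by
  refine hρ.smooth.continuous.integrable_of_hasCompactSupport ?_
  refine HasCompactSupport.intro (isCompact_Icc (a := (-e : ℝ)) (b := e)) fun x hx => hρ.supp x ?_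
  by_contra h
  rw [not_le, abs_lt] at h
  exact hx ⟨h.1.le, h.2.le⟩

private lemma B1a_cont {ρ : ℝ → ℝ} {e : ℝ} (hρ : ES ρ e) : Continuous (fT ρ) :=
  fT_cont hρ.smooth.continuous ⟨e, hρ.supp⟩

private lemma B1a_bdd {ρ : ℝ → ℝ} {e : ℝ} (hρ : ES ρ e) (x : ℝ) : |fT ρ x| ≤ ∫ α, |ρ α| := by
  unfold fT
  rw [← Real.norm_eq_abs]
  refine norm_integral_le_of_norm_le (B1a_int hρ).abs (Filter.Eventually.of_forall fun α => ?_)
  rw [Real.norm_eq_abs, abs_mul]
  exact mul_le_of_le_one_right (abs_nonneg _) (Real.abs_cos_le_one _)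

/-- The odd part vanishes. -/
private lemma B1a_odd {ρ : ℝ → ℝ} (α : ℝ) : ∫ x, fT ρ x * Real.sin (2 * Real.pi * x * α) = 0 := by
  have h := integral_neg_eq_self (fun x : ℝ => fT ρ x * Real.sin (2 * Real.pi * x * α)) volume
  have h' : (fun x : ℝ => fT ρ (-x) * Real.sin (2 * Real.pi * -x * α)) =
      fun x : ℝ => -(fT ρ x * Real.sin (2 * Real.pi * x * α)) := by
    funext x
    rw [fT_even, show 2 * Real.pi * -x * α = -(2 * Real.pi * x * α) by ring, Real.sin_neg, mul_neg]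
  rw [h', integral_neg] at h
  linarith

private lemma B1a_inner {ρ : ℝ → ℝ} {e : ℝ} (hρ : ES ρ e) (d α : ℝ) :
    ∫ x, fT ρ x * Real.cos (2 * Real.pi * (x + d) * α) = ρ α * Real.cos (2 * Real.pi * d * α) := by
  have hI := (B1a_ce hρ).int
  have h1 : Integrable (fun x : ℝ => fT ρ x * Real.cos (2 * Real.pi * x * α)) := by
    refine hI.mul_bdd (c := 1) (by fun_prop) (Filter.Eventually.of_forall fun v => ?_)
    rw [Real.norm_eq_abs]
    exact Real.abs_cos_le_one _
  have h2 : Integrable (fun x : ℝ => fT ρ x * Real.sin (2 * Real.pi * x * α)) := by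
    refine hI.mul_bdd (c := 1) (by fun_prop) (Filter.Eventually.of_forall fun v => ?_)
    rw [Real.norm_eq_abs]
    exact Real.abs_sin_le_one _
  have h3 : (fun x : ℝ => fT ρ x * Real.cos (2 * Real.pi * (x + d) * α)) = fun x : ℝ =>
      (fT ρ x * Real.cos (2 * Real.pi * x * α)) * Real.cos (2 * Real.pi * d * α) -
        (fT ρ x * Real.sin (2 * Real.pi * x * α)) * Real.sin (2 * Real.pi * d * α) := by
    funext x
    rw [show 2 * Real.pi * (x + d) * α = 2 * Real.pi * x * α + 2 * Real.pi * d * α by ring, Real.cos_add]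
    ring
  rw [h3, integral_sub (h1.mul_const _) (h2.mul_const _), integral_mul_const, integral_mul_const,
    B1a_odd, fT_inv (B1a_ce hρ)]
  ring

/-- The autocorrelation of `fT ρ`. -/
theorem autocorr {ρ : ℝ → ℝ} {e : ℝ} (hρ : ES ρ e) (d : ℝ) :
    ∫ x, fT ρ x * fT ρ (x + d) = fT (fun α => ρ α ^ 2) d := by
  have h1 : ∫ x, fT ρ x * fT ρ (x + d) =
      ∫ x, ∫ α, fT ρ x * ρ α * Real.cos (2 * Real.pi * (x + d) * α) := by
    refine integral_congr_ae (Filter.Eventually.of_forall fun x => ?_)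
    show fT ρ x * fT ρ (x + d) = ∫ α, fT ρ x * ρ α * Real.cos (2 * Real.pi * (x + d) * α)
    conv_lhs => rw [show fT ρ (x + d) = ∫ α : ℝ, ρ α * Real.cos (2 * Real.pi * (x + d) * α) from rfl]
    rw [← integral_const_mul]
    refine integral_congr_ae (Filter.Eventually.of_forall fun α => ?_)
    simp only
    ring
  rw [h1, integral_integral_swap]
  · unfold fT
    refine integral_congr_ae (Filter.Eventually.of_forall fun α => ?_)
    have h2 : ∫ x, fT ρ x * ρ α * Real.cos (2 * Real.pi * (x + d) * α) =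
        ρ α * ∫ x, fT ρ x * Real.cos (2 * Real.pi * (x + d) * α) := by
      rw [← integral_const_mul]
      refine integral_congr_ae (Filter.Eventually.of_forall fun x => ?_)
      simp only
      ring
    have h3 : ∫ x, fT ρ x * ρ α * Real.cos (2 * Real.pi * (x + d) * α) =
        ρ α ^ 2 * Real.cos (2 * Real.pi * d * α) := by
      rw [h2, B1a_inner hρ]
      ring
    exact h3
  · have h := (B1a_ce hρ).int.mul_prod (B1a_int hρ)
    refine h.mul_bdd (c := 1) (by fun_prop) (Filter.Eventually.of_forall fun v => ?_)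
    rw [Real.norm_eq_abs]
    exact Real.abs_cos_le_one _

private lemma B1a_sub {T : ℝ} (t γ γ' : ℝ) :
    xg T t γ = xg T t γ' + Real.log T * (γ - γ') / (2 * Real.pi) := by
  unfold xg
  ring

/-- The integrand for one pair. -/
private lemma B1a_pair_int {T : ℝ} (hT : 1 < T) {ρ : ℝ → ℝ} {e : ℝ} (hρ : ES ρ e) (γ γ' : ℝ) :
    Integrable (fun t => fT ρ (xg T t γ') * fT ρ (xg T t γ)) := by
  have hL : 0 < Real.log T := Real.log_pos hT
  have hc := B1a_cont hρ
  have h1 : Integrable (fun x => fT ρ x) := (B1a_ce hρ).int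
  have hk : (-(Real.log T / (2 * Real.pi))) ≠ 0 := by
    have : 0 < Real.log T / (2 * Real.pi) := by positivity
    exact neg_ne_zero.mpr this.ne'
  have h2 : Integrable (fun t => fT ρ (xg T t γ')) := by
    have h3 := (h1.comp_add_right (Real.log T * γ' / (2 * Real.pi))).comp_mul_left' hk
    have h4 : (fun t => fT ρ (xg T t γ')) = fun t => fT ρ (-(Real.log T / (2 * Real.pi)) * t +
        Real.log T * γ' / (2 * Real.pi)) := by
      funext t
      congr 1
      unfold xg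
      ring
    rw [h4]
    exact h3
  refine h2.mul_bdd (c := ∫ α, |ρ α|) ?_ (Filter.Eventually.of_forall fun t => ?_)
  · have : Continuous fun t => xg T t γ := by unfold xg; fun_prop
    exact (hc.comp this).aestronglyMeasurable
  · rw [Real.norm_eq_abs]
    exact B1a_bdd hρ _

private lemma B1a_pair {T : ℝ} (hT : 1 < T) {ρ : ℝ → ℝ} {e : ℝ} (hρ : ES ρ e) (γ γ' : ℝ) :
    ∫ t, fT ρ (xg T t γ') * fT ρ (xg T t γ) =
      (2 * Real.pi / Real.log T) * fT (fun α => ρ α ^ 2) (Real.log T * (γ - γ') / (2 * Real.pi)) := by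
  have hL : 0 < Real.log T := Real.log_pos hT
  have h1 : (fun t => fT ρ (xg T t γ') * fT ρ (xg T t γ)) = fun t =>
      (fun x => fT ρ x * fT ρ (x + Real.log T * (γ - γ') / (2 * Real.pi)))
        (-(Real.log T / (2 * Real.pi)) * t + Real.log T * γ' / (2 * Real.pi)) := by
    funext t
    simp only
    rw [B1a_sub t γ γ']
    have : xg T t γ' = -(Real.log T / (2 * Real.pi)) * t + Real.log T * γ' / (2 * Real.pi) := by
      unfold xg
      ring
    rw [this]
  rw [h1]
  have h2 := MeasureTheory.Measure.integral_comp_mul_left (fun y =>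
    (fun x => fT ρ x * fT ρ (x + Real.log T * (γ - γ') / (2 * Real.pi)))
        (y + Real.log T * γ' / (2 * Real.pi))) (-(Real.log T / (2 * Real.pi)))
  rw [h2, integral_add_right_eq_self (fun x => fT ρ x * fT ρ (x + Real.log T * (γ - γ') / (2 * Real.pi))),
    autocorr hρ, smul_eq_mul]
  congr 1
  rw [inv_neg, abs_neg, abs_of_pos (by positivity), inv_div]

private lemma B1a_sq {T : ℝ} {ρ : ℝ → ℝ} (β t : ℝ) :
    ‖WS (fT ρ) T t β‖ ^ 2 = ∑ γ ∈ ordinates T, ∑ γ' ∈ ordinates T,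
      (mult γ : ℝ) * (mult γ' : ℝ) * Real.cos (2 * Real.pi * β * (Real.log T * (γ - γ') / (2 * Real.pi))) *
        (fT ρ (xg T t γ') * fT ρ (xg T t γ)) := by
  have h0 : WS (fT ρ) T t β = ((∑ γ ∈ ordinates T, (mult γ : ℝ) * (fT ρ (xg T t γ) * Real.cos (2 * Real.pi * β * xg T t γ)) : ℝ) : ℂ)
      - ((∑ γ ∈ ordinates T, (mult γ : ℝ) * (fT ρ (xg T t γ) * Real.sin (2 * Real.pi * β * xg T t γ)) : ℝ) : ℂ) * I := by
    unfold WS
    rw [Complex.ofReal_sum, Complex.ofReal_sum, Finset.sum_mul, ← Finset.sum_sub_distrib]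
    refine Finset.sum_congr rfl fun γ _ => ?_
    rw [neg_mul, ← neg_mul, ← Complex.ofReal_neg, Complex.exp_mul_I, ← Complex.ofReal_cos, ← Complex.ofReal_sin, Real.cos_neg,
      Real.sin_neg]
    push_cast
    ring
  have h1 : ∀ a b : ℝ, ‖((a : ℂ) - (b : ℂ) * I)‖ ^ 2 = a * a + b * b := by
    intro a b
    rw [← Complex.normSq_eq_norm_sq, Complex.normSq_apply]
    simp
  rw [h0, h1, Finset.sum_mul_sum, Finset.sum_mul_sum, ← Finset.sum_add_distrib]
  refine Finset.sum_congr rfl fun γ _ => ?_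
  rw [← Finset.sum_add_distrib]
  refine Finset.sum_congr rfl fun γ' _ => ?_
  have h2 : 2 * Real.pi * β * (Real.log T * (γ - γ') / (2 * Real.pi)) =
      2 * Real.pi * β * xg T t γ - 2 * Real.pi * β * xg T t γ' := by
    unfold xg
    ring
  rw [h2, Real.cos_sub]
  ring

theorem energy_pt {T : ℝ} (hT : 1 < T) {ρ : ℝ → ℝ} {e : ℝ} (hρ : ES ρ e) (β : ℝ) :
    Integrable (fun t => ‖WS (fT ρ) T t β‖ ^ 2) ∧
    T⁻¹ * ∫ t, ‖WS (fT ρ) T t β‖ ^ 2 =
      PS T (fun x => (1 + (Real.pi / Real.log T) ^ 2 * x ^ 2) * (fT (fun α => ρ α ^ 2) x * Real.cos (2 * Real.pi * β * x))) := by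
  have hL : 0 < Real.log T := Real.log_pos hT
  have hfun : (fun t => ‖WS (fT ρ) T t β‖ ^ 2) = fun t => ∑ γ ∈ ordinates T, ∑ γ' ∈ ordinates T,
      (mult γ : ℝ) * (mult γ' : ℝ) * Real.cos (2 * Real.pi * β * (Real.log T * (γ - γ') / (2 * Real.pi))) *
        (fT ρ (xg T t γ') * fT ρ (xg T t γ)) := by
    funext t
    exact B1a_sq β t
  have hI : ∀ γ ∈ ordinates T, ∀ γ' ∈ ordinates T, Integrable (fun t =>
      (mult γ : ℝ) * (mult γ' : ℝ) * Real.cos (2 * Real.pi * β * (Real.log T * (γ - γ') / (2 * Real.pi))) *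
        (fT ρ (xg T t γ') * fT ρ (xg T t γ))) :=
    fun γ _ γ' _ => (B1a_pair_int hT hρ γ γ').const_mul _
  constructor
  · rw [hfun]
    exact integrable_finsetSum _ fun γ hγ => integrable_finsetSum _ fun γ' hγ' => hI γ hγ γ' hγ'
  · rw [hfun, integral_finsetSum _ fun γ hγ => integrable_finsetSum _ fun γ' hγ' => hI γ hγ γ' hγ']
    unfold PS
    rw [Finset.mul_sum, Finset.mul_sum]
    refine Finset.sum_congr rfl fun γ hγ => ?_
    rw [integral_finsetSum _ fun γ' hγ' => hI γ hγ γ' hγ', Finset.mul_sum, Finset.mul_sum]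
    refine Finset.sum_congr rfl fun γ' hγ' => ?_
    rw [integral_const_mul, B1a_pair hT hρ]
    unfold weight N0
    have h4 : (4 + (γ - γ') ^ 2) ≠ 0 := by positivity
    have h5 : Real.log T ≠ 0 := hL.ne'
    have h6 : T ≠ 0 := by linarith
    have h7 : Real.pi ≠ 0 := Real.pi_ne_zero
    field_simp
    ring

end Pool.Agent.Lib.MP_00e05b_nt.Gap
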