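import Pool.Agent.Lib.MP_00e05b_nt.Gap.MJ
import Pool.Agent.Lib.MP_00e05b_nt.Gap.B2

/-!
# LEAF CA: the number of zeros in a window, averaged over any set of positive proportion

`κ` from `exists_major_j j`: the indicator of `[-j, j]` is at most `fT κ`, so `nw j T t ≤ WR (fT κ) T t`, and by `B2.variance` (`ε = 1`) and
`x ≤ (x²/√j + √j)/2` on `G`: `∫_G nw ≤ |G| κ 0 + (C j + 1) T/(2 √j) + √j |G|/2`, and `T ≤ |G|/p`.
-/

open Complex Set Filter Topology MeasureTheory

namespace Pool.Agent.Lib.MP_00e05b_nt.Gap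

open Pool.Agent.Lib.MP_00e05b_nt Pool.Agent.Lib.MP_00e05b_nt.Mont

/-- The number of zeros in the window `[-j, j]`. -/
noncomputable def nw (j : ℕ) (T t : ℝ) : ℝ := WR (fun y => if |y| ≤ (j : ℝ) then 1 else 0) T t

private lemma CA_xg (T γ : ℝ) : Continuous (fun t => xg T t γ) := by
  unfold xg
  fun_prop

private lemma CA_cont {ψ : ℝ → ℝ} (hψ : Continuous ψ) (T : ℝ) : Continuous (fun t => WR ψ T t) := by
  unfold WR
  refine continuous_finsetSum _ fun γ _ => ?_
  exact continuous_const.mul (hψ.comp (CA_xg T γ))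

private lemma CA_int (j : ℕ) (T : ℝ) (μ : Measure ℝ) [IsFiniteMeasure μ] : Integrable (nw j T) μ := by
  unfold nw WR
  refine integrable_finsetSum _ fun γ _ => Integrable.const_mul ?_ _
  have h : (fun t => if |xg T t γ| ≤ (j : ℝ) then (1 : ℝ) else 0) =
      {t | |xg T t γ| ≤ (j : ℝ)}.indicator (fun _ => (1 : ℝ)) := by
    funext t
    by_cases ht : |xg T t γ| ≤ (j : ℝ)
    · have ht' : t ∈ {t | |xg T t γ| ≤ (j : ℝ)} := ht
      rw [if_pos ht, indicator_of_mem ht']
    · have ht' : t ∉ {t | |xg T t γ| ≤ (j : ℝ)} := ht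
      rw [if_neg ht, indicator_of_notMem ht']
  rw [h]
  exact (integrable_const (1 : ℝ)).indicator
    (isClosed_le (CA_xg T γ).abs continuous_const).measurableSet

theorem count_avg (hRH : RiemannHypothesis) {p : ℝ} (hp : 0 < p) :
    ∃ C : ℝ, 1 ≤ C ∧ ∀ j : ℕ, 1 ≤ j → ∀ᶠ T : ℝ in atTop, ∀ G : Set ℝ, MeasurableSet G → G ⊆ Icc 0 T →
      p * T ≤ (volume G).toReal → IntegrableOn (nw j T) G ∧
      ∫ t in G, nw j T t ≤ (2 * j + C * Real.sqrt j) * (volume G).toReal := by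
  obtain ⟨C, hC, hmaj⟩ := exists_major_j
  refine ⟨C + (C + 1) / (2 * p) + 1 / 2, ?_, fun j hj => ?_⟩
  · have : 0 ≤ (C + 1) / (2 * p) := by positivity
    linarith
  obtain ⟨κ, hκ, hpos, hone, hκ0, hvar⟩ := hmaj j hj
  have hcont : Continuous (fT κ) := (fT_smooth hκ.smooth hκ.even ⟨1, hκ.supp⟩).2.1.continuous
  have hj1 : (1 : ℝ) ≤ (j : ℝ) := by exact_mod_cast hj
  obtain ⟨s, hs⟩ : ∃ s : ℝ, s = Real.sqrt j := ⟨_, rfl⟩
  have hs1 : 1 ≤ s := by
    rw [hs]
    exact Real.one_le_sqrt.2 hj1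
  have hss : s * s = (j : ℝ) := by
    rw [hs]
    exact Real.mul_self_sqrt (by linarith)
  filter_upwards [variance hRH hκ hpos one_pos, eventually_gt_atTop 1] with T hT hT1 G hG hGT hpG
  have hT0 : 0 < T := by linarith
  have hfin : volume G < ⊤ := lt_of_le_of_lt (measure_mono hGT) (by simp)
  have hfinm : IsFiniteMeasure (volume.restrict G) := ⟨by simpa using hfin⟩
  have hint : IntegrableOn (nw j T) G := CA_int j T _
  refine ⟨hint, ?_⟩
  rw [← hs] at hκ0 ⊢
  -- the smooth count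
  obtain ⟨f, hf⟩ : ∃ f : ℝ → ℝ, f = fun t => WR (fT κ) T t := ⟨_, rfl⟩
  have hfc : Continuous f := by
    rw [hf]
    exact CA_cont hcont T
  have hI : ∀ g : ℝ → ℝ, Continuous g → IntegrableOn g G := fun g hg =>
    (hg.integrableOn_Icc (a := 0) (b := T)).mono_set hGT
  have h1 : ∀ t, nw j T t ≤ f t := by
    intro t
    rw [hf]
    unfold nw WR
    refine Finset.sum_le_sum fun γ _ => mul_le_mul_of_nonneg_left ?_ (Nat.cast_nonneg _)
    show (if |xg T t γ| ≤ (j : ℝ) then (1 : ℝ) else 0) ≤ fT κ (xg T t γ)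
    split_ifs with hy
    · exact hone _ hy
    · exact hpos _
  have h2 : ∀ t, f t ≤ κ 0 + (1 / (2 * s) * (f t - κ 0) ^ 2 + s / 2) := by
    intro t
    have h3 : 0 ≤ 1 / (2 * s) * ((f t - κ 0) - s) ^ 2 := by positivity
    have h4 : 1 / (2 * s) * ((f t - κ 0) - s) ^ 2 =
        1 / (2 * s) * (f t - κ 0) ^ 2 + s / 2 - (f t - κ 0) := by
      field_simp
      ring
    linarith
  have hgc : Continuous (fun t => (f t - κ 0) ^ 2) := (hfc.sub continuous_const).pow 2
  have hA : Continuous (fun t => 1 / (2 * s) * (f t - κ 0) ^ 2) := continuous_const.mul hgc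
  have hB : Continuous (fun t => 1 / (2 * s) * (f t - κ 0) ^ 2 + s / 2) := hA.add continuous_const
  have h3 : ∫ t in G, nw j T t ≤ ∫ t in G, (κ 0 + (1 / (2 * s) * (f t - κ 0) ^ 2 + s / 2)) :=
    integral_mono hint (hI _ (continuous_const.add hB)) fun t => (h1 t).trans (h2 t)
  have h4 : ∫ t in G, (κ 0 + (1 / (2 * s) * (f t - κ 0) ^ 2 + s / 2)) =
      κ 0 * (volume G).toReal + (1 / (2 * s) * (∫ t in G, (f t - κ 0) ^ 2) +
        s / 2 * (volume G).toReal) := by
    rw [integral_add (hI (fun _ => κ 0) continuous_const) (hI _ hB),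
      integral_add (hI _ hA) (hI (fun _ => s / 2) continuous_const), integral_const_mul,
      setIntegral_const, setIntegral_const]
    simp only [smul_eq_mul, Measure.real]
    ring
  have h5 : ∫ t in G, (f t - κ 0) ^ 2 ≤ T * (C * j + 1) := by
    have h6 : ∫ t in G, (f t - κ 0) ^ 2 ≤ ∫ t in Icc 0 T, (f t - κ 0) ^ 2 :=
      setIntegral_mono_set hgc.integrableOn_Icc (Filter.Eventually.of_forall fun t => sq_nonneg _)
        hGT.eventuallyLE
    have h7 : T⁻¹ * ∫ t in (0 : ℝ)..T, (f t - κ 0) ^ 2 ≤ (∫ α, |α| * κ α ^ 2) + 1 := by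
      rw [hf]
      exact hT
    rw [intervalIntegral.integral_of_le hT0.le, ← integral_Icc_eq_integral_Ioc,
      inv_mul_le_iff₀ hT0] at h7
    have h8 : T * ((∫ α, |α| * κ α ^ 2) + 1) ≤ T * (C * j + 1) :=
      mul_le_mul_of_nonneg_left (by linarith) hT0.le
    linarith
  obtain ⟨m, hm⟩ : ∃ m : ℝ, m = (volume G).toReal := ⟨_, rfl⟩
  have hm0 : 0 ≤ m := by
    rw [hm]
    exact ENNReal.toReal_nonneg
  rw [← hm] at hpG h4 ⊢
  have h6 : 1 / (2 * s) * (∫ t in G, (f t - κ 0) ^ 2) ≤ (C + 1) / (2 * p) * s * m := by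
    have h7 : 1 / (2 * s) * (∫ t in G, (f t - κ 0) ^ 2) ≤ 1 / (2 * s) * (T * (C * j + 1)) :=
      mul_le_mul_of_nonneg_left h5 (by positivity)
    have h8 : T * (C * j + 1) ≤ m / p * ((C + 1) * (s * s)) := by
      have h9 : T ≤ m / p := by
        rw [le_div_iff₀ hp]
        linarith
      have h10 : C * j + 1 ≤ (C + 1) * (s * s) := by
        rw [hss]
        linarith
      exact mul_le_mul h9 h10 (by positivity) (by positivity)
    have h9 : 1 / (2 * s) * (m / p * ((C + 1) * (s * s))) = (C + 1) / (2 * p) * s * m := by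
      field_simp
    rw [← h9]
    exact h7.trans (mul_le_mul_of_nonneg_left h8 (by positivity))
  have h7 : κ 0 * m ≤ (2 * j + C * s) * m := mul_le_mul_of_nonneg_right hκ0 hm0
  have h8 : (2 * (j : ℝ) + (C + (C + 1) / (2 * p) + 1 / 2) * s) * m =
      (2 * j + C * s) * m + ((C + 1) / (2 * p) * s * m + s / 2 * m) := by ring
  rw [h8]
  linarith

end Pool.Agent.Lib.MP_00e05b_nt.Gap
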