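import Pool.Agent.Lib.MP_00e05b_nt.Gap.J
import Pool.Agent.Lib.MP_00e05b_nt.Gap.CA
import Pool.Agent.Lib.MP_00e05b_nt.Gap.Iso

/-!
# LEAF DET: the inequality at one height

`g0` = the isolated simple ordinate. `J.jensen_iso` for `s = (ordinates T).image (xg T t)` (`xg T t` is injective for `T > 1`),
`w (xg T t γ) = mult γ ψ(x) e(-c x)` (`∑_p w p e(-u p) = WS ψ T t (c + u)`), `x0 = xg T t g0`, `‖w x0‖ = ψ x0 ≥ w0`. The other points satisfy
`|p - x0| ≥ r` and `|p| ≤ |p - x0| + 1`. Layer cake: `log (R/|p - x0|) = ∫_{|p-x0|}^R du/u ≤ log (1/r) [|p| ≤ 2] + ∑_{j=1}^{R-1} [|p| ≤ j + 2]/j`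
(split at `1, 2, ..`: for `u ∈ [j, j+1]`, `|p - x0| ≤ u` implies `|p| ≤ j + 2`; `∫_j^{j+1} du/u ≤ 1/j`). Every ordinate has `mult γ ≥ 1`.
-/

open Complex Set Filter Topology MeasureTheory

namespace Pool.Agent.Lib.MP_00e05b_nt.Gap

open Pool.Agent.Lib.MP_00e05b_nt Pool.Agent.Lib.MP_00e05b_nt.Mont

private lemma DET_tele {m R : ℕ} (hm : 1 ≤ m) (hR : m ≤ R) :
    Real.log R - Real.log m ≤ ∑ j ∈ Finset.Ico m R, 1 / (j : ℝ) := by
  induction R, hR using Nat.le_induction with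
  | base => simp
  | succ n hn ih =>
    rw [Finset.sum_Ico_succ_top hn]
    have hn0 : (0 : ℝ) < n := by
      have : 0 < n := by omega
      exact_mod_cast this
    have h1 : Real.log ((n + 1 : ℕ) : ℝ) - Real.log n ≤ 1 / n := by
      rw [← Real.log_div (by positivity) hn0.ne']
      have h2 := Real.log_le_sub_one_of_pos (show (0 : ℝ) < ((n + 1 : ℕ) : ℝ) / n by positivity)
      refine h2.trans (le_of_eq ?_)
      push_cast
      field_simp
      ring
    linarith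

/-- The layer cake. -/
private lemma DET_layer {v r q : ℝ} {R : ℕ} (hr : 0 < r) (hr1 : r ≤ 1) (hv : r ≤ v) (hvR : v < R) (hq : q ≤ v + 1) :
    Real.log (R / v) ≤ Real.log (1 / r) * (if q ≤ ((2 : ℕ) : ℝ) then 1 else 0) +
      ∑ j ∈ Finset.Ico 1 R, (if q ≤ ((j + 2 : ℕ) : ℝ) then (1 : ℝ) else 0) / j := by
  have hv0 : 0 < v := by linarith
  have hR0 : (0 : ℝ) < R := by linarith
  have hR1 : 1 ≤ R := by
    have : 0 < R := by exact_mod_cast hR0
    omega
  have hlr : 0 ≤ Real.log (1 / r) := Real.log_nonneg ((one_le_div hr).2 hr1)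
  have hnn : ∀ j : ℕ, (0 : ℝ) ≤ (if q ≤ ((j + 2 : ℕ) : ℝ) then (1 : ℝ) else 0) / j := by
    intro j
    split_ifs <;> positivity
  rw [Real.log_div hR0.ne' hv0.ne']
  rcases lt_or_ge v 1 with h1 | h1
  · have h2 : q ≤ ((2 : ℕ) : ℝ) := by push_cast; linarith
    rw [if_pos h2, mul_one]
    have h3 := DET_tele (le_refl 1) hR1
    rw [Nat.cast_one, Real.log_one, sub_zero] at h3
    have h4 : ∑ j ∈ Finset.Ico 1 R, (if q ≤ ((j + 2 : ℕ) : ℝ) then (1 : ℝ) else 0) / j =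
        ∑ j ∈ Finset.Ico 1 R, 1 / (j : ℝ) := by
      refine Finset.sum_congr rfl fun j _ => ?_
      rw [if_pos]
      push_cast
      push_cast at h2
      have : (0 : ℝ) ≤ j := by positivity
      linarith
    rw [h4]
    have h5 : -Real.log v ≤ Real.log (1 / r) := by
      rw [one_div, Real.log_inv]
      exact neg_le_neg (Real.log_le_log hr hv)
    linarith
  · obtain ⟨m, hm⟩ : ∃ m : ℕ, m = ⌊v⌋₊ := ⟨_, rfl⟩
    have hm1 : 1 ≤ m := by
      rw [hm]
      exact (Nat.le_floor_iff hv0.le).2 (by exact_mod_cast h1)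
    have hmv : (m : ℝ) ≤ v := by
      rw [hm]
      exact Nat.floor_le hv0.le
    have hvm : v < m + 1 := by
      rw [hm]
      exact Nat.lt_floor_add_one v
    have hmR : m ≤ R := by
      have : (m : ℝ) < R := lt_of_le_of_lt hmv hvR
      exact_mod_cast this.le
    have h3 := DET_tele hm1 hmR
    have h4 : Real.log m ≤ Real.log v := Real.log_le_log (by exact_mod_cast hm1) hmv
    have h5 : ∑ j ∈ Finset.Ico m R, 1 / (j : ℝ) ≤
        ∑ j ∈ Finset.Ico 1 R, (if q ≤ ((j + 2 : ℕ) : ℝ) then (1 : ℝ) else 0) / j := by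
      have h6 : ∑ j ∈ Finset.Ico m R, 1 / (j : ℝ) =
          ∑ j ∈ Finset.Ico m R, (if q ≤ ((j + 2 : ℕ) : ℝ) then (1 : ℝ) else 0) / j := by
        refine Finset.sum_congr rfl fun j hj => ?_
        rw [if_pos]
        have : (m : ℝ) ≤ j := by exact_mod_cast (Finset.mem_Ico.1 hj).1
        push_cast
        linarith
      rw [h6]
      refine Finset.sum_le_sum_of_subset_of_nonneg (Finset.Ico_subset_Ico hm1 le_rfl) fun j _ _ => hnn j
    have h7 : 0 ≤ Real.log (1 / r) * (if q ≤ ((2 : ℕ) : ℝ) then 1 else 0) := by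
      refine mul_nonneg hlr ?_
      split_ifs <;> norm_num
    linarith

theorem one_height {ψ : ℝ → ℝ} {w0 r c a M T t : ℝ} {R : ℕ} (hT : 1 < T) (hw0 : 0 < w0) (hψ : ∀ x, |x| ≤ 1 → w0 ≤ ψ x)
    (hr : 0 < r) (hr1 : r ≤ 1) (hR : 1 ≤ R) (ha : 0 ≤ a) (hM : 0 < M)
    (ht : ∃ γ ∈ ordinates T, mult γ = 1 ∧ |xg T t γ| ≤ 1 ∧
      ∀ γ' ∈ ordinates T, γ' ≠ γ → r ≤ |Real.log T * (γ - γ') / (2 * Real.pi)|) :
    Real.log w0 + 4 * a * R - Real.log (2 * M) + 1 - M⁻¹ * ∫ u : ℝ, kk a R u * ‖WS ψ T t (c + u)‖ ≤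
      Real.log (1 / r) * nw 2 T t + ∑ j ∈ Finset.Ico 1 R, nw (j + 2) T t / j := by
  classical
  obtain ⟨g0, hg0, hm0, hx0, hiso⟩ := ht
  have hπ := Real.pi_pos
  have hlog : 0 < Real.log T := Real.log_pos hT
  -- the inverse of `xg T t`
  obtain ⟨inv, hinv⟩ : ∃ inv : ℝ → ℝ, inv = fun p => t + 2 * Real.pi * p / Real.log T := ⟨_, rfl⟩
  have hxi : ∀ γ, inv (xg T t γ) = γ := by
    intro γ
    rw [hinv]
    simp only [xg]
    field_simp
    ring
  have hinj : Function.Injective (xg T t) := fun x y hxy => by rw [← hxi x, ← hxi y, hxy]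
  obtain ⟨w, hw⟩ : ∃ w : ℝ → ℂ, w = fun p => (mult (inv p) : ℂ) *
      ((ψ p : ℂ) * cexp (-((2 * Real.pi * c * p : ℝ) : ℂ) * I)) := ⟨_, rfl⟩
  have hwg : ∀ γ, w (xg T t γ) = (mult γ : ℂ) *
      ((ψ (xg T t γ) : ℂ) * cexp (-((2 * Real.pi * c * xg T t γ : ℝ) : ℂ) * I)) := by
    intro γ
    rw [hw]
    simp only [hxi]
  have hnorm : ‖w (xg T t g0)‖ = |ψ (xg T t g0)| := by
    rw [hwg, hm0, Nat.cast_one, one_mul, norm_mul, Complex.norm_real, Real.norm_eq_abs, Complex.norm_exp]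
    simp
  have hψ0 := hψ _ hx0
  have hwpos : w0 ≤ ‖w (xg T t g0)‖ := by
    rw [hnorm]
    exact hψ0.trans (le_abs_self _)
  have hw00 : w (xg T t g0) ≠ 0 := by
    rw [← norm_pos_iff]
    linarith
  obtain ⟨s, hs⟩ : ∃ s : Finset ℝ, s = (ordinates T).image (xg T t) := ⟨_, rfl⟩
  have h0 : xg T t g0 ∈ s := by
    rw [hs]
    exact Finset.mem_image_of_mem _ hg0
  have hR' : (0 : ℝ) < R := by exact_mod_cast hR
  have hJ := jensen_iso (s := s) (w := w) (x0 := xg T t g0) (R := (R : ℝ)) (a := a) (M := M) h0 hw00 hR' ha hM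
  have hWS : ∀ u : ℝ, ∑ p ∈ s, w p * cexp (-((2 * Real.pi * u * p : ℝ) : ℂ) * I) = WS ψ T t (c + u) := by
    intro u
    rw [hs, Finset.sum_image fun x _ y _ hxy => hinj hxy]
    unfold WS
    refine Finset.sum_congr rfl fun γ _ => ?_
    rw [hwg, mul_assoc, mul_assoc, ← Complex.exp_add]
    congr 3
    push_cast
    ring
  simp only [hWS] at hJ
  have hlw : Real.log w0 ≤ Real.log ‖w (xg T t g0)‖ := Real.log_le_log hw0 hwpos
  -- the right-hand side
  obtain ⟨b, hb⟩ : ∃ b : ℝ → ℝ, b = fun p => Real.log (1 / r) * (if |p| ≤ ((2 : ℕ) : ℝ) then 1 else 0) +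
      ∑ j ∈ Finset.Ico 1 R, (if |p| ≤ ((j + 2 : ℕ) : ℝ) then (1 : ℝ) else 0) / j := ⟨_, rfl⟩
  have hlr : 0 ≤ Real.log (1 / r) := Real.log_nonneg ((one_le_div hr).2 hr1)
  have hb0 : ∀ p, 0 ≤ b p := by
    intro p
    rw [hb]
    refine add_nonneg (mul_nonneg hlr ?_) (Finset.sum_nonneg fun j _ => ?_)
    · split_ifs <;> norm_num
    · split_ifs <;> positivity
  have hS : ∑ p ∈ (s.erase (xg T t g0)).filter (fun p => |p - xg T t g0| < R), Real.log (R / |p - xg T t g0|) ≤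
      ∑ p ∈ s, b p := by
    refine (Finset.sum_le_sum (g := b) fun p hp => ?_).trans
      (Finset.sum_le_sum_of_subset_of_nonneg (fun p hp => ?_) fun p _ _ => hb0 p)
    · rw [Finset.mem_filter, Finset.mem_erase] at hp
      obtain ⟨⟨hpne, hps⟩, hlt⟩ := hp
      rw [hs, Finset.mem_image] at hps
      obtain ⟨γ', hγ', rfl⟩ := hps
      have hne : γ' ≠ g0 := fun h => hpne (by rw [h])
      have h1 : r ≤ |xg T t γ' - xg T t g0| := by
        have h2 := hiso γ' hγ' hne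
        rw [abs_sub_comm]
        refine h2.trans (le_of_eq ?_)
        congr 1
        unfold xg
        ring
      rw [hb]
      refine DET_layer hr hr1 h1 hlt ?_
      have h3 := abs_add_le (xg T t γ' - xg T t g0) (xg T t g0)
      rw [sub_add_cancel] at h3
      linarith
    · rw [Finset.mem_filter, Finset.mem_erase] at hp
      exact hp.1.2
  have hS2 : ∑ p ∈ s, b p ≤ Real.log (1 / r) * nw 2 T t + ∑ j ∈ Finset.Ico 1 R, nw (j + 2) T t / j := by
    rw [hs, Finset.sum_image fun x _ y _ hxy => hinj hxy]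
    have h1 : ∀ γ ∈ ordinates T, b (xg T t γ) ≤ (mult γ : ℝ) * b (xg T t γ) := by
      intro γ hγ
      have : (1 : ℝ) ≤ mult γ := by exact_mod_cast Iso_mult hγ
      nlinarith [hb0 (xg T t γ)]
    refine (Finset.sum_le_sum h1).trans (le_of_eq ?_)
    unfold nw WR
    rw [hb]
    simp only [mul_add, Finset.sum_add_distrib]
    congr 1
    · rw [Finset.mul_sum]
      refine Finset.sum_congr rfl fun γ _ => ?_
      ring
    · simp only [Finset.mul_sum]
      rw [Finset.sum_comm]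
      refine Finset.sum_congr rfl fun j _ => ?_
      rw [Finset.sum_div]
      refine Finset.sum_congr rfl fun γ _ => ?_
      ring
  linarith

end Pool.Agent.Lib.MP_00e05b_nt.Gap
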