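import Pool.Agent.Lib.MP_00e05b_nt.Mont.G2

/-!
# No spectral gap longer than one: windows

`xg T t γ = (γ - t) log T / 2π` is the normalised position of the ordinate `γ` seen from `t`. `WS ψ T t β` is the window sum
`∑_γ m_γ ψ(x_γ) e(-β x_γ)`, `WR ψ T t` is `∑_γ m_γ ψ(x_γ)`.
-/

open Complex Set Filter Topology MeasureTheory

namespace Pool.Agent.Lib.MP_00e05b_nt.Gap

open Pool.Agent.Lib.MP_00e05b_nt Pool.Agent.Lib.MP_00e05b_nt.Mont

/-- The normalised position of the ordinate `γ` seen from `t`. -/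
noncomputable def xg (T t γ : ℝ) : ℝ := Real.log T * (γ - t) / (2 * Real.pi)

/-- The window sum `∑_γ m_γ ψ(x_γ) e(-β x_γ)`. -/
noncomputable def WS (ψ : ℝ → ℝ) (T t β : ℝ) : ℂ :=
  ∑ γ ∈ ordinates T, (mult γ : ℂ) * ((ψ (xg T t γ) : ℂ) * cexp (-((2 * Real.pi * β * xg T t γ : ℝ) : ℂ) * I))

/-- The window sum `∑_γ m_γ ψ(x_γ)`. -/
noncomputable def WR (ψ : ℝ → ℝ) (T t : ℝ) : ℝ := ∑ γ ∈ ordinates T, (mult γ : ℝ) * ψ (xg T t γ)

end Pool.Agent.Lib.MP_00e05b_nt.Gap
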