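import Pool.Agent.Lib.MP_00e05b_nt.Gap.W0
import Pool.Agent.Lib.MP_00e05b_nt.Gap.DET
import Pool.Agent.Lib.MP_00e05b_nt.Gap.AV
import Pool.Agent.Lib.MP_00e05b_nt.Gap.Iso

/-!
# LEAF FIN: no spectral gap longer than one, uniformly in the position, with an explicit constant

`r0, p` from `iso_window`, `r = min r0 1`; `e = ε/8`, `a = 1/2 + ε/4`, `ρ` from `exists_window_e`, `w0 = e/C₀`, `D = C₀/e³`, `C₁` from `cauchy_avg`,
`M = C₁ √D/p`, `C₂` from `count_avg p`. If `∫_{c-a-e}^{c+a+e} FF ≤ exp (-C₁ R)` for one large `T` and one `c`: integrate `one_height` over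
`G = {t | ..} ` (`iso_window`), divide by `|G| ≥ pT`:
`log w0 + (2 + ε) R - log (2M) ≤ log (1/r) (4 + C₂ √2) + ∑_{1 ≤ j < R} (2(j+2) + C₂ √(j+2))/j ≤ 2R + C' √R + C'`, and
`-log w0 + log (2M) ≤ C' + 20/ε`: false for `R = ⌈K/ε²⌉`, `K` absolute. Hence `∫ > exp (-C₁ R) ≥ exp (-C/ε²)`, and for
`c = b + (1+ε)/2` the interval is contained in `[b, b + 1 + ε]` (`FF ≥ 0`).
-/

open Complex Set Filter Topology MeasureTheory

namespace Pool.Agent.Lib.MP_00e05b_nt.Gap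

open Pool.Agent.Lib.MP_00e05b_nt Pool.Agent.Lib.MP_00e05b_nt.Mont

private lemma FIN_inv (R : ℕ) (hR : 1 ≤ R) : ∑ j ∈ Finset.Ico 1 R, 1 / Real.sqrt j ≤ 3 * Real.sqrt R := by
  induction R, hR using Nat.le_induction with
  | base => simp
  | succ n hn ih =>
    rw [Finset.sum_Ico_succ_top hn]
    have hn1 : (1 : ℝ) ≤ n := by exact_mod_cast hn
    have hs : 0 < Real.sqrt n := Real.sqrt_pos.2 (by linarith)
    have hs1 : Real.sqrt ((n + 1 : ℕ) : ℝ) ≤ 2 * Real.sqrt n := by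
      rw [Real.sqrt_le_left (by positivity), mul_pow, Real.sq_sqrt (by linarith)]
      push_cast
      linarith
    have h1 : Real.sqrt ((n + 1 : ℕ) : ℝ) ^ 2 = n + 1 := by
      rw [Real.sq_sqrt (by positivity)]
      push_cast
      ring
    have h2 : Real.sqrt n ^ 2 = n := Real.sq_sqrt (by linarith)
    have h3 : 1 / Real.sqrt n ≤ 3 * (Real.sqrt ((n + 1 : ℕ) : ℝ) - Real.sqrt n) := by
      rw [div_le_iff₀ hs]
      have hs2 : 0 ≤ Real.sqrt ((n + 1 : ℕ) : ℝ) := Real.sqrt_nonneg _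
      have h4 : (Real.sqrt ((n + 1 : ℕ) : ℝ) - Real.sqrt n) * (Real.sqrt ((n + 1 : ℕ) : ℝ) + Real.sqrt n) = 1 := by
        nlinarith
      have h5 : 0 ≤ Real.sqrt ((n + 1 : ℕ) : ℝ) - Real.sqrt n := by
        by_contra hcon
        have : (Real.sqrt ((n + 1 : ℕ) : ℝ) - Real.sqrt n) * (Real.sqrt ((n + 1 : ℕ) : ℝ) + Real.sqrt n) ≤ 0 :=
          mul_nonpos_of_nonpos_of_nonneg (not_le.1 hcon).le (by positivity)
        linarith
      nlinarith [mul_nonneg h5 (show 0 ≤ 2 * Real.sqrt n - Real.sqrt ((n + 1 : ℕ) : ℝ) by linarith)]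
    linarith

private lemma FIN_sum {B : ℝ} (hB : 0 ≤ B) (R : ℕ) (hR : 1 ≤ R) :
    ∑ j ∈ Finset.Ico 1 R, (2 * ((j + 2 : ℕ) : ℝ) + B * Real.sqrt ((j + 2 : ℕ) : ℝ)) / j ≤
      2 * R + (12 + 6 * B) * Real.sqrt R := by
  have h1 : ∀ j ∈ Finset.Ico 1 R, (2 * ((j + 2 : ℕ) : ℝ) + B * Real.sqrt ((j + 2 : ℕ) : ℝ)) / j ≤
      2 + (4 + 2 * B) * (1 / Real.sqrt j) := by
    intro j hj
    rw [Finset.mem_Ico] at hj
    have hj1 : (1 : ℝ) ≤ j := by exact_mod_cast hj.1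
    have hs : 0 < Real.sqrt j := Real.sqrt_pos.2 (by linarith)
    have hsq : Real.sqrt j ^ 2 = j := Real.sq_sqrt (by linarith)
    have hs1 : Real.sqrt ((j + 2 : ℕ) : ℝ) ≤ 2 * Real.sqrt j := by
      rw [Real.sqrt_le_left (by positivity), mul_pow, hsq]
      push_cast
      linarith
    have hs2 : 1 ≤ Real.sqrt j := Real.one_le_sqrt.2 hj1
    have hs3 : Real.sqrt j ≤ j := by nlinarith
    rw [div_le_iff₀ (by linarith)]
    have e0 : 1 / Real.sqrt j * j = Real.sqrt j := by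
      rw [one_div, inv_mul_eq_div, div_eq_iff hs.ne', ← sq, hsq]
    have e1 : (2 + (4 + 2 * B) * (1 / Real.sqrt j)) * j = 2 * j + (4 + 2 * B) * Real.sqrt j := by
      rw [add_mul, mul_assoc, e0]
    rw [e1]
    push_cast at hs1 ⊢
    nlinarith [mul_le_mul_of_nonneg_left hs1 hB]
  have h2 := Finset.sum_le_sum h1
  rw [Finset.sum_add_distrib, ← Finset.mul_sum, Finset.sum_const, Nat.card_Ico, nsmul_eq_mul] at h2
  have h3 := mul_le_mul_of_nonneg_left (FIN_inv R hR) (show (0 : ℝ) ≤ 4 + 2 * B by linarith)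
  have h4 : ((R - 1 : ℕ) : ℝ) ≤ R := by exact_mod_cast Nat.sub_le R 1
  linarith

private lemma FIN_num {A B : ℝ} (hA : 0 ≤ A) (_hB : 0 ≤ B) : ∃ K : ℝ, 1 ≤ K ∧ ∀ ε : ℝ, 0 < ε → ε ≤ 1 → ∀ R : ℝ,
    K / ε ^ 2 ≤ R → A + 20 / ε + B * Real.sqrt R < ε * R := by
  refine ⟨(2 * B) ^ 2 + 2 * (A + 20) + 1, by positivity |> fun (h : (0 : ℝ) ≤ (2 * B) ^ 2 + 2 * (A + 20)) => by linarith,
    fun ε hε hε1 R hR => ?_⟩
  have hR0 : 0 < R := lt_of_lt_of_le (by positivity) hR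
  have hK : (2 * B) ^ 2 + 2 * (A + 20) + 1 ≤ R * ε ^ 2 := (div_le_iff₀ (by positivity)).1 hR
  have h1 : 2 * B ≤ Real.sqrt R * ε := by
    have h2 : (2 * B) ^ 2 ≤ (Real.sqrt R * ε) ^ 2 := by
      rw [mul_pow (Real.sqrt R), Real.sq_sqrt hR0.le]
      linarith
    exact abs_le_of_sq_le_sq' h2 (by positivity) |>.2
  have h3 : B * Real.sqrt R ≤ ε * R / 2 := by
    have h4 := mul_le_mul_of_nonneg_right h1 (Real.sqrt_nonneg R)
    have h5 : Real.sqrt R * Real.sqrt R = R := Real.mul_self_sqrt hR0.le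
    have h6 : Real.sqrt R * ε * Real.sqrt R = ε * R := by
      rw [mul_right_comm, h5, mul_comm]
    linarith
  have h7 : A + 20 / ε < ε * R / 2 := by
    have h8 : A + 20 / ε ≤ (A + 20) / ε := by
      rw [add_div]
      have : A ≤ A / ε := by
        rw [le_div_iff₀ hε]
        nlinarith
      linarith
    have h9 : (A + 20) / ε < ε * R / 2 := by
      rw [div_lt_iff₀ hε]
      nlinarith [sq_nonneg (2 * B)]
    linarith
  linarith

theorem no_gap_explicit (hRH : RiemannHypothesis) : ∃ C : ℝ, 0 < C ∧ ∀ ε : ℝ, 0 < ε → ε ≤ 1 → ∃ T0 : ℝ, ∀ T ≥ T0, ∀ b : ℝ,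
    Real.exp (-(C / ε ^ 2)) ≤ ∫ α in b..(b + 1 + ε), FF α T := by
  obtain ⟨r0, hr0, p, hp, hp1, hiso⟩ := iso_window hRH
  obtain ⟨C0, hC0, hwin⟩ := exists_window_e
  obtain ⟨C1, hC1, hca⟩ := cauchy_avg hRH
  obtain ⟨C2, hC2, hcount⟩ := count_avg hRH hp
  obtain ⟨r, hrdef⟩ : ∃ r : ℝ, r = min r0 1 := ⟨_, rfl⟩
  have hr : 0 < r := by rw [hrdef]; exact lt_min hr0 one_pos
  have hr1 : r ≤ 1 := by rw [hrdef]; exact min_le_right _ _
  have hrr : r ≤ r0 := by rw [hrdef]; exact min_le_left _ _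
  have hlr : 0 ≤ Real.log (1 / r) := Real.log_nonneg ((one_le_div hr).2 hr1)
  have hlp : Real.log p ≤ 0 := Real.log_nonpos hp.le hp1
  have hl1 : 0 ≤ Real.log C1 := Real.log_nonneg hC1
  have hl0 : 0 ≤ Real.log C0 := Real.log_nonneg hC0
  have hl2 : 0 ≤ Real.log 2 := Real.log_nonneg (by norm_num)
  obtain ⟨L2, hL2⟩ : ∃ L2 : ℝ, L2 = Real.log (1 / r) * (2 * ((2 : ℕ) : ℝ) + C2 * Real.sqrt ((2 : ℕ) : ℝ)) := ⟨_, rfl⟩
  have hL20 : 0 ≤ L2 := by rw [hL2]; positivity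
  have hA : 0 ≤ Real.log 2 + Real.log C1 + 3 / 2 * Real.log C0 - Real.log p + L2 := by linarith
  obtain ⟨K, hK, hnum⟩ := FIN_num hA (show (0 : ℝ) ≤ 12 + 6 * C2 by linarith)
  refine ⟨C1 * (K + 1), by positivity, fun ε hε hε1 => ?_⟩
  obtain ⟨e, he⟩ : ∃ e : ℝ, e = ε / 8 := ⟨_, rfl⟩
  have he0 : 0 < e := by rw [he]; positivity
  have he1 : e ≤ 1 := by rw [he]; linarith
  obtain ⟨a, ha⟩ : ∃ a : ℝ, a = 1 / 2 + ε / 4 := ⟨_, rfl⟩
  have ha0 : 0 < a := by rw [ha]; positivity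
  have ha1 : a ≤ 1 := by rw [ha]; linarith
  obtain ⟨ρ, hρ, hρ1, hlow, hdec⟩ := hwin e he0 he1
  obtain ⟨R, hRdef⟩ : ∃ R : ℕ, R = ⌈K / ε ^ 2⌉₊ := ⟨_, rfl⟩
  have hKe : 1 ≤ K / ε ^ 2 := by
    rw [le_div_iff₀ (by positivity)]
    nlinarith
  have hRK : K / ε ^ 2 ≤ R := by rw [hRdef]; exact Nat.le_ceil _
  have hRK2 : (R : ℝ) ≤ K / ε ^ 2 + 1 := by rw [hRdef]; exact (Nat.ceil_lt_add_one (by positivity)).le
  have hR1' : (1 : ℝ) ≤ R := hKe.trans hRK
  have hR1 : 1 ≤ R := by exact_mod_cast hR1'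
  have hD : 1 ≤ C0 / e ^ 3 := by
    rw [le_div_iff₀ (by positivity), one_mul]
    exact (pow_le_one₀ he0.le he1).trans hC0
  obtain ⟨M, hM⟩ : ∃ M : ℝ, M = C1 * Real.sqrt (C0 / e ^ 3) / p := ⟨_, rfl⟩
  have hM0 : 0 < M := by rw [hM]; positivity
  have hcount' : ∀ᶠ T : ℝ in atTop, ∀ j ∈ Finset.range (R + 3), 1 ≤ j → ∀ G : Set ℝ, MeasurableSet G → G ⊆ Icc 0 T →
      p * T ≤ (volume G).toReal → IntegrableOn (nw j T) G ∧
      ∫ t in G, nw j T t ≤ (2 * j + C2 * Real.sqrt j) * (volume G).toReal := by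
    rw [eventually_all_finset]
    intro j _
    by_cases hj : 1 ≤ j
    · filter_upwards [hcount j hj] with T hT _
      exact hT
    · exact Eventually.of_forall fun T h => absurd h hj
  have hev := ((hiso.and (hca ρ e (C0 / e ^ 3) a R he0 he1 hρ hρ1 hD hdec ha0 ha1 hR1')).and hcount').and
    (eventually_gt_atTop (1 : ℝ))
  obtain ⟨T0, hT0⟩ := eventually_atTop.1 hev
  refine ⟨T0, fun T hT b => ?_⟩
  obtain ⟨⟨⟨⟨hGm, hGv⟩, hX⟩, hN⟩, hT1⟩ := hT0 T hT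
  have hTpos : 0 < T := by linarith
  by_contra hcon
  rw [not_le] at hcon
  obtain ⟨c, hc⟩ : ∃ c : ℝ, c = b + (1 + ε) / 2 := ⟨_, rfl⟩
  -- the integral is small
  have hFc := FF_continuous hTpos
  have hsmall : (∫ α in (c - a - e)..(c + a + e), FF α T) ≤ Real.exp (-(C1 * R)) := by
    have h1 : (∫ α in (c - a - e)..(c + a + e), FF α T) ≤ ∫ α in b..(b + 1 + ε), FF α T := by
      refine intervalIntegral.integral_mono_interval ?_ ?_ ?_ ?_ (hFc.intervalIntegrable _ _)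
      · rw [hc, ha, he]; linarith
      · linarith
      · rw [hc, ha, he]; linarith
      · exact Filter.Eventually.of_forall fun α => FF_nonneg hT1 α
    refine h1.trans (hcon.le.trans (Real.exp_le_exp.2 ?_))
    have h2 : C1 * R ≤ C1 * (K + 1) / ε ^ 2 := by
      rw [mul_div_assoc]
      refine mul_le_mul_of_nonneg_left (hRK2.trans ?_) (by linarith)
      rw [add_div]
      have h3 : (1 : ℝ) ≤ 1 / ε ^ 2 := by
        rw [le_div_iff₀ (by positivity)]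
        nlinarith
      linarith
    linarith
  obtain ⟨G, hG⟩ : ∃ G : Set ℝ, G = {t : ℝ | t ∈ Icc 0 T ∧ ∃ γ ∈ Iso r0 T, |xg T t γ| ≤ 1} := ⟨_, rfl⟩
  rw [← hG] at hGm hGv
  have hGs : G ⊆ Icc 0 T := by
    rw [hG]
    exact fun t ht => ht.1
  have hGfin : volume G ≠ ⊤ := by
    refine ne_top_of_le_ne_top ?_ (measure_mono hGs)
    rw [Real.volume_Icc]
    exact ENNReal.ofReal_ne_top
  have hGr : p * T ≤ (volume G).toReal := by
    rw [← ENNReal.ofReal_toReal hGfin] at hGv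
    exact (ENNReal.ofReal_le_ofReal_iff ENNReal.toReal_nonneg).1 hGv
  have hG0 : 0 < (volume G).toReal := lt_of_lt_of_le (by positivity) hGr
  obtain ⟨hXi, hXl⟩ := hX c hsmall G hGm hGs
  have hNj : ∀ j : ℕ, 1 ≤ j → j < R + 3 → IntegrableOn (nw j T) G ∧
      ∫ t in G, nw j T t ≤ (2 * j + C2 * Real.sqrt j) * (volume G).toReal :=
    fun j hj1 hj2 => hN j (Finset.mem_range.2 hj2) hj1 G hGm hGs hGr
  -- the inequality at one height
  have hone : ∀ t ∈ G, Real.log (e / C0) + 4 * a * R - Real.log (2 * M) + 1 -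
      M⁻¹ * ∫ u : ℝ, kk a R u * ‖WS (fT ρ) T t (c + u)‖ ≤
      Real.log (1 / r) * nw 2 T t + ∑ j ∈ Finset.Ico 1 R, nw (j + 2) T t / j := by
    intro t ht
    refine one_height hT1 (by positivity) hlow hr hr1 hR1 ha0.le hM0 ?_
    rw [hG] at ht
    obtain ⟨-, γ, hγI, hγ1⟩ := ht
    obtain ⟨hγ, hm, hγr⟩ := mem_Iso.1 hγI
    exact ⟨γ, hγ, hm, hγ1, fun γ' hγ' hne => hrr.trans (hγr γ' hγ' hne)⟩
  obtain ⟨κ, hκ⟩ : ∃ κ : ℝ, κ = Real.log (e / C0) + 4 * a * R - Real.log (2 * M) + 1 := ⟨_, rfl⟩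
  rw [← hκ] at hone
  have hci : IntegrableOn (fun _ : ℝ => κ) G := integrableOn_const hGfin
  have hfi : IntegrableOn (fun t => κ - M⁻¹ * ∫ u : ℝ, kk a R u * ‖WS (fT ρ) T t (c + u)‖) G :=
    hci.sub (hXi.const_mul _)
  have hsi : ∀ j ∈ Finset.Ico 1 R, IntegrableOn (fun t => nw (j + 2) T t / j) G := by
    intro j hj
    rw [Finset.mem_Ico] at hj
    exact (hNj (j + 2) (by omega) (by omega)).1.div_const _
  have hn2 := hNj 2 (by norm_num) (by omega)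
  have hgi : IntegrableOn (fun t => Real.log (1 / r) * nw 2 T t + ∑ j ∈ Finset.Ico 1 R, nw (j + 2) T t / j) G :=
    (hn2.1.const_mul _).add (integrable_finsetSum _ hsi)
  have hmono := setIntegral_mono_on hfi hgi hGm hone
  have hL : ∫ t in G, (κ - M⁻¹ * ∫ u : ℝ, kk a R u * ‖WS (fT ρ) T t (c + u)‖) =
      κ * (volume G).toReal - M⁻¹ * ∫ t in G, ∫ u : ℝ, kk a R u * ‖WS (fT ρ) T t (c + u)‖ := by
    rw [integral_sub hci (hXi.const_mul _), integral_const_mul, setIntegral_const, smul_eq_mul, mul_comm κ]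
    rfl
  have hRr : ∫ t in G, (Real.log (1 / r) * nw 2 T t + ∑ j ∈ Finset.Ico 1 R, nw (j + 2) T t / j) =
      Real.log (1 / r) * (∫ t in G, nw 2 T t) + ∑ j ∈ Finset.Ico 1 R, (∫ t in G, nw (j + 2) T t) / j := by
    rw [integral_add (hn2.1.const_mul _) (integrable_finsetSum _ hsi), integral_const_mul,
      integral_finsetSum _ hsi]
    simp_rw [integral_div]
  rw [hL, hRr] at hmono
  have hXM : M⁻¹ * ∫ t in G, (∫ u : ℝ, kk a R u * ‖WS (fT ρ) T t (c + u)‖) ≤ (volume G).toReal := by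
    refine (mul_le_mul_of_nonneg_left hXl (inv_nonneg.2 hM0.le)).trans (le_trans (le_of_eq ?_) hGr)
    rw [hM]
    field_simp
  have h2b : Real.log (1 / r) * (∫ t in G, nw 2 T t) ≤ L2 * (volume G).toReal := by
    rw [hL2, mul_assoc]
    exact mul_le_mul_of_nonneg_left hn2.2 hlr
  have hjb : ∑ j ∈ Finset.Ico 1 R, (∫ t in G, nw (j + 2) T t) / j ≤
      (∑ j ∈ Finset.Ico 1 R, (2 * ((j + 2 : ℕ) : ℝ) + C2 * Real.sqrt ((j + 2 : ℕ) : ℝ)) / j) * (volume G).toReal := by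
    rw [Finset.sum_mul]
    refine Finset.sum_le_sum fun j hj => ?_
    rw [Finset.mem_Ico] at hj
    have h := (hNj (j + 2) (by omega) (by omega)).2
    rw [div_mul_eq_mul_div]
    exact div_le_div_of_nonneg_right h (Nat.cast_nonneg _)
  have hS := mul_le_mul_of_nonneg_right (FIN_sum (by linarith : (0 : ℝ) ≤ C2) R hR1) hG0.le
  have hfin : κ * (volume G).toReal ≤
      (1 + L2 + (2 * R + (12 + 6 * C2) * Real.sqrt R)) * (volume G).toReal := by
    linarith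
  have hfin2 := le_of_mul_le_mul_right hfin hG0
  -- the constants
  have hlog1 : Real.log (e / C0) = Real.log e - Real.log C0 := Real.log_div he0.ne' (by positivity)
  have hlog2 : Real.log (2 * M) = Real.log 2 + Real.log C1 + (Real.log C0 - 3 * Real.log e) / 2 - Real.log p := by
    rw [hM, Real.log_mul (by norm_num) (by positivity), Real.log_div (by positivity) hp.ne',
      Real.log_mul (by positivity) (by positivity), Real.log_sqrt (by positivity),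
      Real.log_div (by positivity) (by positivity), Real.log_pow]
    push_cast
    ring
  have hloge : -Real.log e ≤ 8 / ε := by
    have h := Real.log_le_sub_one_of_pos (show 0 < e⁻¹ by positivity)
    rw [Real.log_inv] at h
    have h2 : e⁻¹ = 8 / ε := by rw [he]; field_simp
    linarith
  have h4a : 4 * a * R = 2 * R + ε * R := by rw [ha]; ring
  have hn := hnum ε hε hε1 R hRK
  have h20 : (20 : ℝ) / ε = 5 / 2 * (8 / ε) := by ring
  rw [hκ, hlog1, hlog2, h4a] at hfin2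
  rw [h20] at hn
  linarith

end Pool.Agent.Lib.MP_00e05b_nt.Gap
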