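import Mathlib

/-!
# LEAF KR: the kernel of the direct version

`kk a R u = ∫_0^π R sin θ exp (-2π (|u| - a) R sin θ) dθ` (`R > 0`, `a ≥ 0`): continuous in `u` (dominated convergence on a compact
interval), `≥ 0`, at most `π R exp (2π a R)` for every `u` (`-(|u| - a) ≤ a`, `0 ≤ sin θ ≤ 1`), and
`∫_{|u| > a} kk = 2 ∫_0^π (1/2π) dθ = 1` by Tonelli (`∫_a^∞ 2π y exp (-2π (u - a) y) du = 1` for `y = R sin θ > 0`, a.e. `θ`).
-/

open Set Filter Topology MeasureTheory

namespace Pool.Agent.Lib.MP_00e05b_nt.Gap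

/-- The kernel. -/
noncomputable def kk (a R u : ℝ) : ℝ :=
  ∫ θ in (0 : ℝ)..Real.pi, R * Real.sin θ * Real.exp (-(2 * Real.pi * (|u| - a) * (R * Real.sin θ)))

private theorem KR_cont2 (a R : ℝ) : Continuous (Function.uncurry fun u θ : ℝ =>
    R * Real.sin θ * Real.exp (-(2 * Real.pi * (|u| - a) * (R * Real.sin θ)))) := by
  unfold Function.uncurry
  have h : Continuous fun p : ℝ × ℝ => |p.1| := continuous_abs.comp continuous_fst
  fun_prop

theorem kk_cont (a R : ℝ) : Continuous (kk a R) :=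
  intervalIntegral.continuous_parametric_intervalIntegral_of_continuous' (KR_cont2 a R) _ _

private theorem KR_sin {θ : ℝ} (hθ : θ ∈ Icc 0 Real.pi) : 0 ≤ Real.sin θ :=
  Real.sin_nonneg_of_nonneg_of_le_pi hθ.1 hθ.2

theorem kk_nonneg (a : ℝ) {R : ℝ} (hR : 0 < R) (u : ℝ) : 0 ≤ kk a R u := by
  refine intervalIntegral.integral_nonneg Real.pi_pos.le fun θ hθ => ?_
  exact mul_nonneg (mul_nonneg hR.le (KR_sin hθ)) (Real.exp_pos _).le

theorem kk_le {a R : ℝ} (ha : 0 ≤ a) (hR : 0 < R) (u : ℝ) :
    kk a R u ≤ Real.pi * R * Real.exp (2 * Real.pi * a * R) := by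
  have h : kk a R u ≤ ∫ _ in (0 : ℝ)..Real.pi, R * Real.exp (2 * Real.pi * a * R) := by
    refine intervalIntegral.integral_mono_on Real.pi_pos.le ?_ (by simp) fun θ hθ => ?_
    · exact ((KR_cont2 a R).comp (Continuous.prodMk_right u)).intervalIntegrable _ _
    · have h1 := KR_sin hθ
      have h2 := Real.sin_le_one θ
      refine mul_le_mul (mul_le_of_le_one_right hR.le h2) (Real.exp_le_exp.2 ?_) (Real.exp_pos _).le hR.le
      have h3 : 0 ≤ R * Real.sin θ := mul_nonneg hR.le h1
      have h4 : R * Real.sin θ ≤ R := mul_le_of_le_one_right hR.le h2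
      have h5 : 0 ≤ 2 * Real.pi * |u| * (R * Real.sin θ) := by
        have := abs_nonneg u
        have := Real.pi_pos
        positivity
      have h6 : 2 * Real.pi * a * (R * Real.sin θ) ≤ 2 * Real.pi * a * R :=
        mul_le_mul_of_nonneg_left h4 (by have := Real.pi_pos; positivity)
      linarith
  refine h.trans (le_of_eq ?_)
  rw [intervalIntegral.integral_const, smul_eq_mul]
  ring

private theorem KR_right {a y : ℝ} (ha : 0 ≤ a) (hy : 0 < y) :
    ∫⁻ u in Ioi a, ENNReal.ofReal (y * Real.exp (-(2 * Real.pi * (|u| - a) * y))) =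
      ENNReal.ofReal (1 / (2 * Real.pi)) := by
  have hpi := Real.pi_pos
  have hn : -(2 * Real.pi * y) < 0 := by
    have : 0 < 2 * Real.pi * y := by positivity
    linarith
  have e1 : ∫⁻ u in Ioi a, ENNReal.ofReal (y * Real.exp (-(2 * Real.pi * (|u| - a) * y))) =
      ∫⁻ u in Ioi a, ENNReal.ofReal (y * Real.exp (2 * Real.pi * a * y) *
        Real.exp (-(2 * Real.pi * y) * u)) := by
    refine setLIntegral_congr_fun measurableSet_Ioi fun u hu => ?_
    have hu0 : 0 ≤ u := ha.trans (le_of_lt hu)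
    show ENNReal.ofReal _ = ENNReal.ofReal _
    rw [abs_of_nonneg hu0, mul_assoc y, ← Real.exp_add]
    congr 3
    ring
  rw [e1, ← ofReal_integral_eq_lintegral_ofReal ((integrableOn_exp_mul_Ioi hn a).const_mul _)
    (Eventually.of_forall fun u => by positivity), integral_const_mul, integral_exp_mul_Ioi hn a]
  congr 1
  have h2 : Real.exp (2 * Real.pi * a * y) * Real.exp (-(2 * Real.pi * y) * a) = 1 := by
    rw [← Real.exp_add]
    have : 2 * Real.pi * a * y + -(2 * Real.pi * y) * a = 0 := by ring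
    rw [this, Real.exp_zero]
  have h3 : y * Real.exp (2 * Real.pi * a * y) *
      (-Real.exp (-(2 * Real.pi * y) * a) / -(2 * Real.pi * y)) =
      (Real.exp (2 * Real.pi * a * y) * Real.exp (-(2 * Real.pi * y) * a)) * (y / (2 * Real.pi * y)) := by
    rw [neg_div_neg_eq]
    ring
  rw [h3, h2, one_mul]
  field_simp

private theorem KR_left {a y : ℝ} (ha : 0 ≤ a) (hy : 0 < y) :
    ∫⁻ u in Iic (-a), ENNReal.ofReal (y * Real.exp (-(2 * Real.pi * (|u| - a) * y))) =
      ENNReal.ofReal (1 / (2 * Real.pi)) := by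
  have hpi := Real.pi_pos
  have hn : 0 < 2 * Real.pi * y := by positivity
  have e1 : ∫⁻ u in Iic (-a), ENNReal.ofReal (y * Real.exp (-(2 * Real.pi * (|u| - a) * y))) =
      ∫⁻ u in Iic (-a), ENNReal.ofReal (y * Real.exp (2 * Real.pi * a * y) *
        Real.exp (2 * Real.pi * y * u)) := by
    refine setLIntegral_congr_fun measurableSet_Iic fun u hu => ?_
    have hu' : u ≤ -a := hu
    have hu0 : u ≤ 0 := by linarith
    show ENNReal.ofReal _ = ENNReal.ofReal _
    rw [abs_of_nonpos hu0, mul_assoc y, ← Real.exp_add]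
    congr 3
    ring
  rw [e1, ← ofReal_integral_eq_lintegral_ofReal ((integrableOn_exp_mul_Iic hn (-a)).const_mul _)
    (Eventually.of_forall fun u => by positivity), integral_const_mul, integral_exp_mul_Iic hn (-a)]
  congr 1
  have h2 : Real.exp (2 * Real.pi * a * y) * Real.exp (2 * Real.pi * y * -a) = 1 := by
    rw [← Real.exp_add]
    have : 2 * Real.pi * a * y + 2 * Real.pi * y * -a = 0 := by ring
    rw [this, Real.exp_zero]
  have h3 : y * Real.exp (2 * Real.pi * a * y) *
      (Real.exp (2 * Real.pi * y * -a) / (2 * Real.pi * y)) =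
      (Real.exp (2 * Real.pi * a * y) * Real.exp (2 * Real.pi * y * -a)) * (y / (2 * Real.pi * y)) := by
    ring
  rw [h3, h2, one_mul]
  field_simp

private theorem KR_inner {a y : ℝ} (ha : 0 ≤ a) (hy : 0 ≤ y) :
    ∫⁻ u in {u : ℝ | a < |u|}, ENNReal.ofReal (y * Real.exp (-(2 * Real.pi * (|u| - a) * y))) ≤
      ENNReal.ofReal (1 / Real.pi) := by
  rcases hy.eq_or_lt with rfl | hy
  · simp
  · have hs : {u : ℝ | a < |u|} ⊆ Iic (-a) ∪ Ioi a := by
      intro u hu
      have hu' : a < |u| := hu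
      rcases lt_abs.1 hu' with h | h
      · exact Or.inr h
      · exact Or.inl (by show u ≤ -a; linarith)
    refine (lintegral_mono_set hs).trans ((lintegral_union_le _ _ _).trans ?_)
    rw [KR_left ha hy, KR_right ha hy, ← ENNReal.ofReal_add (by positivity) (by positivity)]
    refine le_of_eq ?_
    congr 1
    field_simp
    norm_num

theorem kk_int {a R : ℝ} (ha : 0 ≤ a) (hR : 0 < R) :
    Integrable (kk a R) ∧ ∫ u in {u : ℝ | a < |u|}, kk a R u ≤ 1 := by
  have hpi := Real.pi_pos
  have hms : MeasurableSet {u : ℝ | a < |u|} := measurableSet_lt measurable_const measurable_id.abs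
  have hl : ∫⁻ u in {u : ℝ | a < |u|}, ENNReal.ofReal (kk a R u) ≤ 1 := by
    have e1 : ∀ u, ENNReal.ofReal (kk a R u) = ∫⁻ θ in Ioc 0 Real.pi, ENNReal.ofReal
        (R * Real.sin θ * Real.exp (-(2 * Real.pi * (|u| - a) * (R * Real.sin θ)))) := by
      intro u
      unfold kk
      rw [intervalIntegral.integral_of_le hpi.le]
      refine ofReal_integral_eq_lintegral_ofReal ?_ ?_
      · exact (((KR_cont2 a R).comp (Continuous.prodMk_right u)).integrableOn_Icc
          (a := 0) (b := Real.pi)).mono_set Ioc_subset_Icc_self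
      · refine (ae_restrict_iff' measurableSet_Ioc).2 (Eventually.of_forall fun θ hθ => ?_)
        exact mul_nonneg (mul_nonneg hR.le (KR_sin ⟨hθ.1.le, hθ.2⟩)) (Real.exp_pos _).le
    simp only [e1]
    rw [lintegral_lintegral_swap]
    · have h2 : ∫⁻ θ in Ioc 0 Real.pi, ∫⁻ u in {u : ℝ | a < |u|}, ENNReal.ofReal
          (R * Real.sin θ * Real.exp (-(2 * Real.pi * (|u| - a) * (R * Real.sin θ)))) ≤
          ∫⁻ _ in Ioc 0 Real.pi, ENNReal.ofReal (1 / Real.pi) := by
        refine setLIntegral_mono measurable_const fun θ hθ => ?_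
        exact KR_inner ha (mul_nonneg hR.le (KR_sin ⟨hθ.1.le, hθ.2⟩))
      refine h2.trans (le_of_eq ?_)
      rw [setLIntegral_const, Real.volume_Ioc, sub_zero, ← ENNReal.ofReal_mul (by positivity)]
      have : 1 / Real.pi * Real.pi = 1 := by field_simp
      rw [this, ENNReal.ofReal_one]
    · exact (KR_cont2 a R).measurable.ennreal_ofReal.aemeasurable
  have hint : IntegrableOn (kk a R) {u : ℝ | a < |u|} := by
    refine ⟨(kk_cont a R).aestronglyMeasurable, ?_⟩
    rw [hasFiniteIntegral_iff_ofReal (Eventually.of_forall fun u => kk_nonneg a hR u)]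
    exact hl.trans_lt ENNReal.one_lt_top
  refine ⟨?_, ?_⟩
  · have h1 : IntegrableOn (kk a R) (Icc (-a) a) := (kk_cont a R).integrableOn_Icc
    have h2 := hint.union h1
    have h3 : {u : ℝ | a < |u|} ∪ Icc (-a) a = univ := by
      ext u
      simp only [mem_union, mem_ofPred_eq, mem_Icc, mem_univ, iff_true]
      rcases lt_or_ge a |u| with h | h
      · exact Or.inl h
      · exact Or.inr (abs_le.1 h)
    rw [h3, integrableOn_univ] at h2
    exact h2
  · rw [integral_eq_lintegral_of_nonneg_ae (Eventually.of_forall fun u => kk_nonneg a hR u)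
      (kk_cont a R).aestronglyMeasurable]
    exact ENNReal.toReal_le_of_le_ofReal zero_le_one (by rw [ENNReal.ofReal_one]; exact hl)

end Pool.Agent.Lib.MP_00e05b_nt.Gap
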