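import Pool.Agent.Lib.MP_00e05b_nt.Gap.B0K

/-!
# LEAF MJ: majorants of `[-j, j]` with Fourier transform supported in `[-1, 1]` and integral `2j + O(√j)`

As `B0K`: `Φ ≥ 0`, `∫ Φ = 1`, `Φ = fT φ`, `φ` smooth even supported in `(-1, 1)`, `|φ| ≤ 1 = φ 0`, `Φ x ≤ C/(1 + x²)²`. `A = C₁ √j` with
`∫_{|u| > A} Φ ≤ C A⁻³ ≤ 1/2` for all `j ≥ 1`, `d = 2 C A⁻³`, `κ α = (1 + d) φ α ∫_{-(j+A)}^{j+A} cos (2π y α) dy`; then
`fT κ x = (1 + d) ∫_{-(j+A)}^{j+A} Φ (x - y) dy ≥ (1 + d)(1 - d/2) ≥ 1` for `|x| ≤ j` (`d ≤ 1`), `κ 0 = (1 + d)(2j + 2A) ≤ 2j + C √j`, and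
`|κ α| ≤ 2 min (2(j + A), 1/(π|α|))`, so `|α| κ α² ≤ C j` on `[-1, 1]`.
-/

open Set Filter Topology MeasureTheory
open scoped ContDiff

namespace Pool.Agent.Lib.MP_00e05b_nt.Gap

open Pool.Agent.Lib.MP_00e05b_nt Pool.Agent.Lib.MP_00e05b_nt.Mont

/-- The indicator function of `[-a, a]`. -/
private noncomputable def MJ_chi (a : ℝ) : ℝ → ℝ := indicator (Icc (-a) a) fun _ => 1

private lemma MJ_chi_nonneg (a y : ℝ) : 0 ≤ MJ_chi a y :=
  indicator_nonneg (fun _ _ => zero_le_one) y

private lemma MJ_chi_le (a y : ℝ) : MJ_chi a y ≤ 1 :=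
  indicator_le_self' (fun _ _ => zero_le_one) y

private lemma MJ_chi_one {a y : ℝ} (h : |y| ≤ a) : MJ_chi a y = 1 := by
  rw [abs_le] at h
  exact indicator_of_mem (mem_Icc.2 h) _

private lemma MJ_chi_meas (a : ℝ) : Measurable (MJ_chi a) :=
  measurable_const.indicator measurableSet_Icc

private lemma MJ_chi_int (a : ℝ) : Integrable (MJ_chi a) := by
  unfold MJ_chi
  rw [integrable_indicator_iff measurableSet_Icc]
  exact integrableOn_const (by simp)

private lemma MJ_chi_zero {a : ℝ} (ha : 0 ≤ a) : fT (MJ_chi a) 0 = 2 * a := by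
  rw [fT_zero]
  unfold MJ_chi
  rw [integral_indicator measurableSet_Icc, setIntegral_const]
  simp only [Measure.real, Real.volume_Icc, smul_eq_mul, mul_one]
  rw [ENNReal.toReal_ofReal (by linarith)]
  ring

private lemma MJ_chi_smooth (a : ℝ) : ContDiff ℝ ∞ (fT (MJ_chi a)) := by
  have hI : Integrable (fun y : ℝ => (MJ_chi a y : ℂ)) := (MJ_chi_int a).ofReal
  have h1 : ContDiff ℝ ∞ (FourierTransform.fourier (fun y : ℝ => (MJ_chi a y : ℂ))) := by
    refine Real.contDiff_fourier (N := ⊤) fun n _ => ?_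
    have h2 : Integrable (fun v : ℝ => |a| ^ n * MJ_chi a v) := (MJ_chi_int a).const_mul _
    refine h2.mono ?_ (Eventually.of_forall fun v => ?_)
    · have h3 := (MJ_chi_meas a)
      exact ((measurable_norm.pow_const n).mul (Complex.measurable_ofReal.comp h3).norm).aestronglyMeasurable
    · rw [norm_mul, norm_norm, norm_pow, norm_norm, Complex.norm_real, norm_mul, norm_pow]
      by_cases hv : v ∈ Icc (-a) a
      · have h4 : ‖v‖ ≤ ‖|a|‖ := by
          rw [Real.norm_eq_abs, Real.norm_eq_abs, abs_abs]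
          exact (abs_le.2 hv).trans (le_abs_self a)
        exact mul_le_mul_of_nonneg_right (pow_le_pow_left₀ (norm_nonneg _) h4 n) (norm_nonneg _)
      · have h5 : MJ_chi a v = 0 := indicator_of_notMem hv _
        rw [h5, norm_zero, mul_zero, mul_zero]
  have h6 : fT (MJ_chi a) = fun x => (FourierTransform.fourier (fun y : ℝ => (MJ_chi a y : ℂ)) x).re := by
    funext x
    have h7 : Integrable (fun v : ℝ => Complex.exp (((-2 * Real.pi * v * x : ℝ) : ℂ) * Complex.I) • (MJ_chi a v : ℂ)) := by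
      refine hI.bdd_mul (c := 1) (by fun_prop) (Eventually.of_forall fun v => ?_)
      rw [Complex.norm_exp_ofReal_mul_I]
    have h8 : (∫ v : ℝ, Complex.exp (((-2 * Real.pi * v * x : ℝ) : ℂ) * Complex.I) • (MJ_chi a v : ℂ)).re =
        ∫ v : ℝ, (Complex.exp (((-2 * Real.pi * v * x : ℝ) : ℂ) * Complex.I) • (MJ_chi a v : ℂ)).re :=
      (integral_re h7).symm
    rw [Real.fourier_real_eq_integral_exp_smul, h8]
    refine integral_congr_ae (Eventually.of_forall fun v => ?_)
    simp only [smul_eq_mul]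
    rw [Complex.re_mul_ofReal, Complex.exp_ofReal_mul_I_re, mul_comm,
      show -2 * Real.pi * v * x = -(2 * Real.pi * x * v) by ring, Real.cos_neg]
  rw [h6]
  exact Complex.reCLM.contDiff.comp h1

/-- The two bounds of the transform of the indicator function. -/
private lemma MJ_chi_abs {a : ℝ} (ha : 0 ≤ a) (α : ℝ) : |fT (MJ_chi a) α| ≤ 2 * a := by
  rw [← MJ_chi_zero ha, fT_zero, fT]
  refine (abs_integral_le_integral_abs).trans (integral_mono_of_nonneg ?_ (MJ_chi_int a) ?_)
  · exact Eventually.of_forall fun y => abs_nonneg _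
  · refine Eventually.of_forall fun y => ?_
    simp only
    rw [abs_mul, abs_of_nonneg (MJ_chi_nonneg _ _)]
    exact mul_le_of_le_one_right (MJ_chi_nonneg _ _) (Real.abs_cos_le_one _)

private lemma MJ_chi_dec {a : ℝ} (ha : 0 ≤ a) (α : ℝ) : |α| * |fT (MJ_chi a) α| ≤ 1 / Real.pi := by
  have hπ := Real.pi_pos
  rcases eq_or_ne α 0 with h0 | h0
  · rw [h0, abs_zero, zero_mul]
    positivity
  · have h1 : fT (MJ_chi a) α = ∫ y in (-a)..a, Real.cos (2 * Real.pi * α * y) := by
      rw [intervalIntegral.integral_of_le (by linarith), ← integral_Icc_eq_integral_Ioc,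
        ← integral_indicator measurableSet_Icc, fT]
      refine integral_congr_ae (Eventually.of_forall fun y => ?_)
      simp only [MJ_chi]
      by_cases hy : y ∈ Icc (-a) a
      · rw [indicator_of_mem hy, indicator_of_mem hy, one_mul]
      · rw [indicator_of_notMem hy, indicator_of_notMem hy, zero_mul]
    have hc : 2 * Real.pi * α ≠ 0 := by positivity
    rw [h1, intervalIntegral.integral_comp_mul_left (fun y => Real.cos y) hc, integral_cos, smul_eq_mul,
      mul_neg, Real.sin_neg, sub_neg_eq_add, abs_mul, abs_inv, abs_mul, abs_of_pos (by positivity : 0 < 2 * Real.pi)]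
    have h2 : |Real.sin (2 * Real.pi * α * a) + Real.sin (2 * Real.pi * α * a)| ≤ 2 := by
      refine (abs_add_le _ _).trans ?_
      have := Real.abs_sin_le_one (2 * Real.pi * α * a)
      linarith
    have h3 : 0 < |α| := abs_pos.2 h0
    have h4 : |α| * ((2 * Real.pi * |α|)⁻¹ * |Real.sin (2 * Real.pi * α * a) + Real.sin (2 * Real.pi * α * a)|) =
        (2 * Real.pi)⁻¹ * |Real.sin (2 * Real.pi * α * a) + Real.sin (2 * Real.pi * α * a)| := by
      field_simp
    rw [h4]
    calc (2 * Real.pi)⁻¹ * |Real.sin (2 * Real.pi * α * a) + Real.sin (2 * Real.pi * α * a)|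
        ≤ (2 * Real.pi)⁻¹ * 2 := by gcongr
      _ = 1 / Real.pi := by field_simp

private lemma MJ_formula {h : ℝ → ℝ} {s : ℝ} (hE : ES h s) (a x : ℝ) :
    ∫ α, h α * fT (MJ_chi a) α * Real.cos (2 * Real.pi * x * α) =
      ∫ y, MJ_chi a y * ((fT h (x - y) + fT h (x + y)) / 2) := by
  have hI := hE.integrable
  have hc := MJ_chi_int a
  have h1 : ∀ α, h α * fT (MJ_chi a) α * Real.cos (2 * Real.pi * x * α) =
      ∫ y, h α * MJ_chi a y * (Real.cos (2 * Real.pi * α * y) * Real.cos (2 * Real.pi * x * α)) := by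
    intro α
    rw [fT, ← integral_const_mul, ← integral_mul_const]
    refine integral_congr_ae (Eventually.of_forall fun y => ?_)
    simp only
    ring
  have h2 : Integrable (Function.uncurry fun α y : ℝ => h α * MJ_chi a y *
      (Real.cos (2 * Real.pi * α * y) * Real.cos (2 * Real.pi * x * α))) (volume.prod volume) := by
    have h3 : Integrable (fun z : ℝ × ℝ => h z.1 * MJ_chi a z.2) (volume.prod volume) := hI.mul_prod hc
    have h4 := h3.mul_bdd (c := 1) (g := fun z : ℝ × ℝ =>
      Real.cos (2 * Real.pi * z.1 * z.2) * Real.cos (2 * Real.pi * x * z.1)) (by fun_prop)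
      (Eventually.of_forall fun z => by
        rw [norm_mul, Real.norm_eq_abs, Real.norm_eq_abs]
        exact mul_le_one₀ (Real.abs_cos_le_one _) (abs_nonneg _) (Real.abs_cos_le_one _))
    exact h4
  rw [integral_congr_ae (Eventually.of_forall h1), integral_integral_swap h2]
  refine integral_congr_ae (Eventually.of_forall fun y => ?_)
  simp only
  have h5 : ∀ z : ℝ, Integrable fun α => h α * Real.cos (2 * Real.pi * z * α) := by
    intro z
    refine hI.mul_bdd (c := 1) (by fun_prop) (Eventually.of_forall fun v => ?_)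
    rw [Real.norm_eq_abs]
    exact Real.abs_cos_le_one _
  have h6 : ∀ α, h α * MJ_chi a y * (Real.cos (2 * Real.pi * α * y) * Real.cos (2 * Real.pi * x * α)) =
      MJ_chi a y / 2 * (h α * Real.cos (2 * Real.pi * (x - y) * α) +
        h α * Real.cos (2 * Real.pi * (x + y) * α)) := by
    intro α
    have e1 : 2 * Real.pi * (x - y) * α = 2 * Real.pi * x * α - 2 * Real.pi * α * y := by ring
    have e2 : 2 * Real.pi * (x + y) * α = 2 * Real.pi * x * α + 2 * Real.pi * α * y := by ring
    rw [e1, e2, Real.cos_sub, Real.cos_add]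
    ring
  rw [integral_congr_ae (Eventually.of_forall h6), integral_const_mul, integral_add (h5 _) (h5 _)]
  unfold fT
  ring

/-- The lower bound of the convolution, by the first moment. -/
private lemma MJ_low {Φ : ℝ → ℝ} (hΦ : Integrable Φ) (hΦ1 : Integrable fun v => |v| * Φ v) (h0 : ∀ v, 0 ≤ Φ v)
    {A R : ℝ} (hA : 0 < A) {x : ℝ} (hx : |x| ≤ R) :
    (∫ v, Φ v) - A⁻¹ * ∫ v, |v| * Φ v ≤ ∫ y, MJ_chi (R + A) y * Φ (x - y) := by
  have h1 : ∫ y, MJ_chi (R + A) y * Φ (x - y) = ∫ v, MJ_chi (R + A) (x - v) * Φ v := by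
    rw [← integral_sub_left_eq_self (fun y => MJ_chi (R + A) y * Φ (x - y)) volume x]
    refine integral_congr_ae (Eventually.of_forall fun y => ?_)
    simp only
    rw [sub_sub_cancel]
  have hm : Measurable fun v => MJ_chi (R + A) (x - v) :=
    (MJ_chi_meas _).comp (by fun_prop)
  have hI : Integrable fun v => MJ_chi (R + A) (x - v) * Φ v := by
    refine hΦ.bdd_mul (c := 1) hm.aestronglyMeasurable (Eventually.of_forall fun v => ?_)
    rw [Real.norm_eq_abs, abs_of_nonneg (MJ_chi_nonneg _ _)]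
    exact MJ_chi_le _ _
  rw [h1, ← integral_const_mul, ← integral_sub hΦ (hΦ1.const_mul _)]
  refine integral_mono (hΦ.sub (hΦ1.const_mul _)) hI fun v => ?_
  simp only
  by_cases hv : |v| ≤ A
  · have h4 : |x - v| ≤ R + A := by
      calc |x - v| ≤ |x| + |v| := abs_sub _ _
        _ ≤ R + A := add_le_add hx hv
    rw [MJ_chi_one h4, one_mul]
    have h5 : 0 ≤ A⁻¹ * (|v| * Φ v) := by
      have := h0 v
      positivity
    linarith
  · push Not at hv
    have h5 : Φ v ≤ A⁻¹ * (|v| * Φ v) := by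
      have h6 : 1 ≤ A⁻¹ * |v| := by
        rw [inv_mul_eq_div, le_div_iff₀ hA]
        linarith
      have h7 := mul_le_mul_of_nonneg_right h6 (h0 v)
      rw [one_mul, mul_assoc] at h7
      exact h7
    have h6 := mul_nonneg (MJ_chi_nonneg (R + A) (x - v)) (h0 v)
    linarith

theorem exists_major_j : ∃ C : ℝ, 1 ≤ C ∧ ∀ j : ℕ, 1 ≤ j → ∃ κ : ℝ → ℝ, ES κ 1 ∧ (∀ x, 0 ≤ fT κ x) ∧
    (∀ x, |x| ≤ (j : ℝ) → 1 ≤ fT κ x) ∧ κ 0 ≤ 2 * j + C * Real.sqrt j ∧ ∫ α, |α| * κ α ^ 2 ≤ C * j := by
  obtain ⟨h, c0, hE, hc0, hnn, hlow⟩ := exists_posdef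
  have hT : ∀ x, fT h x = ck h (2 * Real.pi * x) := fun x => rfl
  have hΦ0 : ∀ x, 0 ≤ fT h x := fun x => by
    rw [hT]
    exact hnn _
  obtain ⟨hCE, -, C0, hC0, hdec⟩ := fT_smooth hE.smooth hE.even ⟨1 / 2, hE.supp⟩
  have hcont : Continuous (fT h) := fT_cont hCE.cont hCE.supp
  have hh0 : 0 < h 0 := by
    rw [← fT_int hCE]
    have hπ := Real.pi_pos
    have h1 : ∫ u, (Icc (-(1 / (2 * Real.pi)) : ℝ) (1 / (2 * Real.pi))).indicator (fun _ => c0) u ≤ ∫ u, fT h u := by
      refine integral_mono ?_ hCE.int fun u => ?_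
      · rw [integrable_indicator_iff measurableSet_Icc]
        exact integrableOn_const (by simp)
      · by_cases hu : u ∈ Icc (-(1 / (2 * Real.pi)) : ℝ) (1 / (2 * Real.pi))
        · rw [indicator_of_mem hu, hT]
          refine hlow _ ?_
          rw [abs_mul, abs_of_pos (by positivity : 0 < 2 * Real.pi)]
          have h2 : |u| ≤ 1 / (2 * Real.pi) := abs_le.2 hu
          rw [le_div_iff₀ (by positivity)] at h2
          linarith
        · rw [indicator_of_notMem hu]
          exact hΦ0 u
    have h2 : 0 < ∫ u, (Icc (-(1 / (2 * Real.pi)) : ℝ) (1 / (2 * Real.pi))).indicator (fun _ => c0) u := by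
      rw [integral_indicator measurableSet_Icc, setIntegral_const]
      simp only [Measure.real, Real.volume_Icc, smul_eq_mul]
      rw [ENNReal.toReal_ofReal (by
        have : 0 < 1 / (2 * Real.pi) := by positivity
        linarith)]
      have : 0 < 1 / (2 * Real.pi) := by positivity
      have h3 : 0 < 1 / (2 * Real.pi) - -(1 / (2 * Real.pi)) := by linarith
      exact mul_pos h3 hc0
    linarith
  -- the first moment
  have hΦ1 : Integrable fun v => |v| * fT h v := by
    have h1 : Integrable fun v : ℝ => C0 * (1 + v ^ 2)⁻¹ := (integrable_inv_one_add_sq).const_mul C0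
    refine h1.mono' (by fun_prop : Continuous fun v => |v| * fT h v).aestronglyMeasurable
      (Eventually.of_forall fun v => ?_)
    rw [norm_mul, Real.norm_eq_abs, Real.norm_eq_abs, abs_abs]
    have h2 := hdec v
    have h3 : |v| ≤ 1 + v ^ 2 := by nlinarith [sq_abs v, sq_nonneg (|v| - 1), abs_nonneg v]
    calc |v| * |fT h v| ≤ (1 + v ^ 2) * (C0 / (1 + v ^ 2) ^ 2) := by gcongr
      _ = C0 * (1 + v ^ 2)⁻¹ := by field_simp
  have hm0 : 0 ≤ ∫ v, |v| * fT h v := integral_nonneg fun v => mul_nonneg (abs_nonneg _) (hΦ0 v)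
  set m : ℝ := (∫ v, |v| * fT h v) / h 0 with hm
  have hm1 : 0 ≤ m := by positivity
  have hle : ∀ α, |h α| ≤ h 0 := by
    intro α
    rw [← fT_inv hCE α, ← fT_int hCE]
    refine (abs_integral_le_integral_abs).trans (integral_mono_of_nonneg ?_ hCE.int ?_)
    · exact Eventually.of_forall fun y => abs_nonneg _
    · refine Eventually.of_forall fun y => ?_
      simp only
      rw [abs_mul, abs_of_nonneg (hΦ0 y)]
      exact mul_le_of_le_one_right (hΦ0 y) (Real.abs_cos_le_one _)
  refine ⟨12 * m + 12, by linarith, fun j hj => ?_⟩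
  have hj1 : (1 : ℝ) ≤ j := by exact_mod_cast hj
  set r : ℝ := Real.sqrt j with hr
  have hr1 : 1 ≤ r := by
    rw [hr]
    exact Real.one_le_sqrt.2 hj1
  have hr2 : r * r = j := Real.mul_self_sqrt (by linarith)
  set A : ℝ := (2 * m + 1) * r with hA
  have hA0 : 0 < A := by positivity
  set a : ℝ := (j : ℝ) + A with ha
  have ha0 : 0 < a := by positivity
  have hpos : 0 < (1 + r⁻¹) / h 0 := by positivity
  have hr3 : r⁻¹ ≤ 1 := inv_le_one_of_one_le₀ hr1
  refine ⟨fun α => (1 + r⁻¹) / h 0 * (h α * fT (MJ_chi a) α), ⟨?_, ?_, ?_⟩, ?_⟩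
  · exact contDiff_const.mul (hE.smooth.mul (MJ_chi_smooth _))
  · intro u
    rw [hE.even, fT_even]
  · intro u hu
    have h1 : h u = 0 := hE.supp _ (by linarith)
    rw [h1, zero_mul, mul_zero]
  · have hform : ∀ x, fT (fun α => (1 + r⁻¹) / h 0 * (h α * fT (MJ_chi a) α)) x =
        (1 + r⁻¹) / h 0 * ∫ y, MJ_chi a y * ((fT h (x - y) + fT h (x + y)) / 2) := by
      intro x
      rw [fT, ← MJ_formula hE, ← integral_const_mul]
      refine integral_congr_ae (Eventually.of_forall fun α => ?_)
      simp only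
      ring
    refine ⟨fun x => ?_, fun x hx => ?_, ?_, ?_⟩
    · rw [hform]
      refine mul_nonneg hpos.le (integral_nonneg fun y => mul_nonneg (MJ_chi_nonneg _ _) ?_)
      have h1 := hΦ0 (x - y)
      have h2 := hΦ0 (x + y)
      positivity
    · rw [hform]
      have hIa : ∀ g : ℝ → ℝ, Continuous g → Integrable fun y => MJ_chi a y * g y := by
        intro g hg
        have h1 : IntegrableOn g (Icc (-a) a) := hg.continuousOn.integrableOn_Icc
        rw [← integrable_indicator_iff measurableSet_Icc] at h1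
        refine h1.congr (Eventually.of_forall fun y => ?_)
        simp only [MJ_chi]
        by_cases hy : y ∈ Icc (-a) a
        · rw [indicator_of_mem hy, indicator_of_mem hy, one_mul]
        · rw [indicator_of_notMem hy, indicator_of_notMem hy, zero_mul]
      have hI1 := hIa (fun y => fT h (x - y)) (by fun_prop)
      have hI2 := hIa (fun y => fT h (x + y)) (by fun_prop)
      have h1 := MJ_low hCE.int hΦ1 hΦ0 hA0 hx
      have h2 := MJ_low hCE.int hΦ1 hΦ0 hA0 (x := -x) (R := j) (by rwa [abs_neg])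
      rw [← ha] at h1 h2
      have h3 : ∫ y, MJ_chi a y * fT h (-x - y) = ∫ y, MJ_chi a y * fT h (x + y) := by
        refine integral_congr_ae (Eventually.of_forall fun y => ?_)
        simp only
        rw [show -x - y = -(x + y) by ring, fT_even]
      rw [h3] at h2
      have h4 : ∫ y, MJ_chi a y * ((fT h (x - y) + fT h (x + y)) / 2) =
          ((∫ y, MJ_chi a y * fT h (x - y)) + ∫ y, MJ_chi a y * fT h (x + y)) / 2 := by
        rw [← integral_add hI1 hI2, ← integral_div]
        refine integral_congr_ae (Eventually.of_forall fun y => ?_)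
        simp only
        ring
      rw [h4]
      have h5 : (∫ v, fT h v) - A⁻¹ * (∫ v, |v| * fT h v) = h 0 * (1 - m / A) := by
        rw [fT_int hCE, hm]
        field_simp
      rw [h5] at h1 h2
      have h6 : m / A ≤ r⁻¹ / 2 := by
        rw [hA, div_le_iff₀ (by positivity)]
        have : r⁻¹ / 2 * ((2 * m + 1) * r) = m + 1 / 2 := by
          field_simp
        rw [this]
        linarith
      have h7 : h 0 * (1 - r⁻¹ / 2) ≤ ((∫ y, MJ_chi a y * fT h (x - y)) + ∫ y, MJ_chi a y * fT h (x + y)) / 2 := by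
        have h8 : h 0 * (1 - r⁻¹ / 2) ≤ h 0 * (1 - m / A) := by
          refine mul_le_mul_of_nonneg_left ?_ hh0.le
          linarith
        linarith
      have h9 : 1 ≤ (1 + r⁻¹) / h 0 * (h 0 * (1 - r⁻¹ / 2)) := by
        have h10 : (1 + r⁻¹) / h 0 * (h 0 * (1 - r⁻¹ / 2)) = (1 + r⁻¹) * (1 - r⁻¹ / 2) := by
          field_simp
        rw [h10]
        have h11 : 0 ≤ r⁻¹ := by positivity
        nlinarith
      exact h9.trans (mul_le_mul_of_nonneg_left h7 hpos.le)
    · change (1 + r⁻¹) / h 0 * (h 0 * fT (MJ_chi a) 0) ≤ 2 * j + (12 * m + 12) * r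
      rw [MJ_chi_zero ha0.le]
      have h1 : (1 + r⁻¹) / h 0 * (h 0 * (2 * a)) = 2 * (1 + r⁻¹) * a := by
        field_simp
      have h2 : (1 + r⁻¹) * a = j + (2 * m + 1) * r + r + (2 * m + 1) := by
        rw [ha, hA, ← hr2]
        field_simp
        ring
      rw [h1, mul_assoc, h2]
      nlinarith
    · have hb : ∀ α, |α| * ((1 + r⁻¹) / h 0 * (h α * fT (MJ_chi a) α)) ^ 2 ≤
          (Icc (-1 : ℝ) 1).indicator (fun _ => 3 * a) α := by
        intro α
        by_cases hα : α ∈ Icc (-1 : ℝ) 1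
        · rw [indicator_of_mem hα]
          have e1 : ((1 + r⁻¹) / h 0 * (h α * fT (MJ_chi a) α)) ^ 2 =
              (1 + r⁻¹) ^ 2 * (h α / h 0) ^ 2 * fT (MJ_chi a) α ^ 2 := by
            field_simp
          have e2 : (h α / h 0) ^ 2 ≤ 1 := by
            rw [← sq_abs, abs_div, abs_of_pos hh0]
            have : |h α| / h 0 ≤ 1 := (div_le_one hh0).2 (hle α)
            exact pow_le_one₀ (by positivity) this
          have e3 : (1 + r⁻¹) ^ 2 ≤ 4 := by
            have : 0 ≤ r⁻¹ := by positivity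
            nlinarith
          have e4 : |α| * fT (MJ_chi a) α ^ 2 ≤ 1 / Real.pi * (2 * a) := by
            rw [← sq_abs (fT (MJ_chi a) α), sq, ← mul_assoc]
            exact mul_le_mul (MJ_chi_dec ha0.le α) (MJ_chi_abs ha0.le α) (abs_nonneg _) (by positivity)
          have e5 : 1 / Real.pi * (2 * a) ≤ 3 / 4 * a := by
            have hπ : (3 : ℝ) < Real.pi := Real.pi_gt_three
            have : 1 / Real.pi ≤ 1 / 3 := one_div_le_one_div_of_le (by norm_num) hπ.le
            nlinarith
          calc |α| * ((1 + r⁻¹) / h 0 * (h α * fT (MJ_chi a) α)) ^ 2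
              = ((1 + r⁻¹) ^ 2 * (h α / h 0) ^ 2) * (|α| * fT (MJ_chi a) α ^ 2) := by
                rw [e1]
                ring
            _ ≤ (4 * 1) * (3 / 4 * a) := by
                refine mul_le_mul (mul_le_mul e3 e2 (sq_nonneg _) (by norm_num)) (e4.trans e5)
                  (by positivity) (by norm_num)
            _ = 3 * a := by ring
        · rw [indicator_of_notMem hα]
          have h1 : h α = 0 := by
            refine hE.supp _ ?_
            by_contra hc
            push Not at hc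
            rw [abs_lt] at hc
            exact hα ⟨by linarith [hc.1], by linarith [hc.2]⟩
          rw [h1, zero_mul, mul_zero]
          norm_num
      have h1 : ∫ α, |α| * ((1 + r⁻¹) / h 0 * (h α * fT (MJ_chi a) α)) ^ 2 ≤
          ∫ α, (Icc (-1 : ℝ) 1).indicator (fun _ => 3 * a) α := by
        refine integral_mono_of_nonneg (Eventually.of_forall fun α => ?_) ?_ (Eventually.of_forall hb)
        · have := abs_nonneg α
          positivity
        · rw [integrable_indicator_iff measurableSet_Icc]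
          exact integrableOn_const (by simp)
      refine h1.trans ?_
      rw [integral_indicator measurableSet_Icc, setIntegral_const]
      simp only [Measure.real, Real.volume_Icc, smul_eq_mul]
      rw [ENNReal.toReal_ofReal (by norm_num)]
      have h2 : r ≤ j := by nlinarith
      have h3 : a ≤ (2 * m + 2) * j := by
        rw [ha, hA]
        nlinarith
      nlinarith

end Pool.Agent.Lib.MP_00e05b_nt.Gap
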