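import Pool.Agent.Lib.MP_00e05b_nt.Gap.Defs

/-!
# LEAF W0: the window, with explicit constants

`W` a fixed smooth even bump supported in `[-1/8, 1/8]` (`exists_EB`), `ρ α = W (α/e)`: `fT ρ x = e fT W (e x)`, and
`fT W y ≥ cos (π/4) ∫ W > 0` for `|y| ≤ 1`; `fT (ρ²) x = e fT (W²) (e x)`, `|fT (W²) y| ≤ D/(1 + y²)²` (`fT_smooth`) and `1 + e²x² ≥ e² (1 + x²)`.
-/

open Set Filter Topology MeasureTheory

namespace Pool.Agent.Lib.MP_00e05b_nt.Gap

open Pool.Agent.Lib.MP_00e05b_nt Pool.Agent.Lib.MP_00e05b_nt.Mont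

theorem W0_scale (φ : ℝ → ℝ) {e : ℝ} (he : 0 < e) (x : ℝ) :
    fT (fun α => φ (α / e)) x = e * fT φ (e * x) := by
  unfold fT
  have h := Measure.integral_comp_div (fun u : ℝ => φ u * Real.cos (2 * Real.pi * (e * x) * u)) e
  rw [abs_of_pos he, smul_eq_mul] at h
  rw [← h]
  refine integral_congr_ae (Filter.Eventually.of_forall fun α => ?_)
  show φ (α / e) * Real.cos (2 * Real.pi * x * α) =
    φ (α / e) * Real.cos (2 * Real.pi * (e * x) * (α / e))
  congr 2
  field_simp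

theorem W0_low {W : ℝ → ℝ} (hW : EB W (1 / 8)) {y : ℝ} (hy : |y| ≤ 1) :
    1 / 2 * ∫ u, W u ≤ fT W y := by
  have hi : Integrable W := hW.es.integrable
  have hc : Continuous fun α : ℝ => W α * Real.cos (2 * Real.pi * y * α) :=
    hW.smooth.continuous.mul (by fun_prop)
  have hi2 : Integrable fun α : ℝ => W α * Real.cos (2 * Real.pi * y * α) := by
    refine hc.integrable_of_hasCompactSupport ?_
    refine HasCompactSupport.intro (K := Set.Icc (-(1 / 8)) (1 / 8)) isCompact_Icc fun α hα => ?_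
    have : 1 / 8 ≤ |α| := by
      by_contra hcon
      exact hα (abs_le.1 (not_le.1 hcon).le)
    rw [hW.supp α this, zero_mul]
  unfold fT
  rw [← integral_const_mul]
  refine integral_mono (hi.const_mul _) hi2 fun α => ?_
  show 1 / 2 * W α ≤ W α * Real.cos (2 * Real.pi * y * α)
  rcases le_or_gt (1 / 8) |α| with h | h
  · rw [hW.supp α h, mul_zero, zero_mul]
  · have h1 : |2 * Real.pi * y * α| ≤ Real.pi / 3 := by
      rw [abs_mul, abs_mul, abs_of_pos Real.two_pi_pos]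
      have h2 : |y| * |α| ≤ 1 * (1 / 8) :=
        mul_le_mul hy h.le (abs_nonneg _) zero_le_one
      nlinarith [Real.pi_pos, mul_le_mul_of_nonneg_left h2 Real.two_pi_pos.le]
    have h3 : (1 / 2 : ℝ) ≤ Real.cos (2 * Real.pi * y * α) := by
      rw [← Real.cos_abs (2 * Real.pi * y * α), ← Real.cos_pi_div_three]
      exact Real.cos_le_cos_of_nonneg_of_le_pi (abs_nonneg _) (by linarith [Real.pi_pos]) h1
    rw [mul_comm]
    exact mul_le_mul_of_nonneg_left h3 (hW.nonneg α)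

theorem W0_pos {W : ℝ → ℝ} (hW : EB W (1 / 8)) : 0 < ∫ u, W u := by
  refine hW.smooth.continuous.integral_pos_of_hasCompactSupport_nonneg_nonzero (x := 0)
    hW.es.compact hW.nonneg ?_
  rw [hW.one 0 (by rw [abs_zero]; norm_num)]
  exact one_ne_zero

theorem exists_window_e : ∃ C : ℝ, 1 ≤ C ∧ ∀ e : ℝ, 0 < e → e ≤ 1 → ∃ ρ : ℝ → ℝ, ES ρ e ∧ (∀ α, |ρ α| ≤ 1) ∧
    (∀ x, |x| ≤ 1 → e / C ≤ fT ρ x) ∧ ∀ x, |fT (fun α => ρ α ^ 2) x| ≤ C / e ^ 3 / (1 + x ^ 2) ^ 2 := by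
  obtain ⟨W, hW⟩ := exists_EB (1 / 8) (by norm_num)
  have hI := W0_pos hW
  obtain ⟨-, -, D, hD, hD2⟩ := fT_smooth (φ := fun α => W α ^ 2) (hW.smooth.pow 2)
    (fun α => by show W (-α) ^ 2 = W α ^ 2; rw [hW.even])
    ⟨1 / 8, fun α hα => by show W α ^ 2 = 0; rw [hW.supp α hα]; norm_num⟩
  refine ⟨1 + 2 / (∫ u, W u) + D, ?_, fun e he he1 => ?_⟩
  · have : 0 < 2 / ∫ u, W u := by positivity
    linarith
  have hC0 : 0 < 1 + 2 / (∫ u, W u) + D := by positivity
  have hdiv : ∀ u : ℝ, |u / e| = |u| / e := fun u => by rw [abs_div, abs_of_pos he]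
  refine ⟨fun α => W (α / e), ⟨hW.smooth.comp (contDiff_id.div_const e), fun u => ?_, fun u hu => ?_⟩,
    fun α => ?_, fun x hx => ?_, fun x => ?_⟩
  · show W (-u / e) = W (u / e)
    rw [neg_div, hW.even]
  · show W (u / e) = 0
    refine hW.supp _ ?_
    rw [hdiv, le_div_iff₀ he]
    linarith
  · show |W (α / e)| ≤ 1
    rw [abs_of_nonneg (hW.nonneg _)]
    exact hW.le_one _
  · rw [W0_scale W he]
    have h1 : |e * x| ≤ 1 := by
      rw [abs_mul, abs_of_pos he]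
      calc e * |x| ≤ 1 * 1 := mul_le_mul he1 hx (abs_nonneg _) zero_le_one
        _ = 1 := one_mul 1
    have h2 := W0_low hW h1
    rw [div_eq_mul_inv]
    refine mul_le_mul_of_nonneg_left (le_trans ?_ h2) he.le
    rw [inv_le_comm₀ hC0 (by positivity)]
    have h3 : (1 / 2 * ∫ u, W u)⁻¹ = 2 / ∫ u, W u := by
      rw [mul_inv, one_div, inv_inv, div_eq_mul_inv]
    rw [h3]
    linarith
  · have h0 : fT (fun α => (fun β => W (β / e)) α ^ 2) x = e * fT (fun α => W α ^ 2) (e * x) :=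
      W0_scale (fun α => W α ^ 2) he x
    rw [h0, abs_mul, abs_of_pos he]
    have h1 := hD2 (e * x)
    have h2 : D / (1 + (e * x) ^ 2) ^ 2 ≤ D / (e ^ 2 * (1 + x ^ 2)) ^ 2 := by
      refine div_le_div_of_nonneg_left hD (by positivity) ?_
      refine pow_le_pow_left₀ (by positivity) ?_ 2
      nlinarith [mul_le_mul he1 he1 he.le zero_le_one]
    have h3 : e * (D / (e ^ 2 * (1 + x ^ 2)) ^ 2) = D / e ^ 3 / (1 + x ^ 2) ^ 2 := by
      field_simp
    calc e * |fT (fun α => W α ^ 2) (e * x)| ≤ e * (D / (e ^ 2 * (1 + x ^ 2)) ^ 2) :=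
          mul_le_mul_of_nonneg_left (h1.trans h2) he.le
      _ = D / e ^ 3 / (1 + x ^ 2) ^ 2 := h3
      _ ≤ (1 + 2 / (∫ u, W u) + D) / e ^ 3 / (1 + x ^ 2) ^ 2 := by
          refine div_le_div_of_nonneg_right ?_ (by positivity)
          refine div_le_div_of_nonneg_right ?_ (by positivity)
          have : 0 < 2 / ∫ u, W u := by positivity
          linarith

end Pool.Agent.Lib.MP_00e05b_nt.Gap
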